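import Pool.Agent.Helper91_SR.Defs

/-!
# Signed and unsigned counts of permutations all whose cycles are even and of length at least four

Used for MP_ef5893_pr (module C).
-/

set_option autoImplicit false

namespace Pool.Agent.Helper91_SR

open Equiv Finset Classical MeasureTheory

variable {n : ℕ}

namespace LongOn

theorem map_ne {T : Finset (Fin n)} {σ : Perm (Fin n)} (h : LongOn T σ) {x : Fin n}
    (hx : x ∈ T) : σ x ≠ x := by
  intro h1
  exact h.2.1 x hx (by rw [h1, h1])

theorem map_mem {T : Finset (Fin n)} {σ : Perm (Fin n)} (h : LongOn T σ) {x : Fin n}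
    (hx : x ∈ T) : σ x ∈ T := by
  by_contra h1
  have h2 := h.1 (σ x) h1
  exact h.2.1 x hx (by rw [h2]; exact σ.injective h2)

end LongOn

theorem long_odd {n : ℕ} (T : Finset (Fin n)) (σ : Perm (Fin n)) (h : LongOn T σ) :
    Even T.card := by
  obtain ⟨A, hA⟩ := h.2.2
  have h1 : (T.filter (fun i => i ∈ A)).card = (T.filter (fun i => ¬ i ∈ A)).card := by
    apply le_antisymm
    · apply Finset.card_le_card_of_injOn (fun i => σ i)
      · intro x hx
        simp only [Finset.coe_filter, Set.mem_ofPred_eq] at hx ⊢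
        exact ⟨h.map_mem hx.1, fun h2 => ((hA x hx.1).1 h2) hx.2⟩
      · exact σ.injective.injOn
    · apply Finset.card_le_card_of_injOn (fun i => σ i)
      · intro x hx
        simp only [Finset.coe_filter, Set.mem_ofPred_eq] at hx ⊢
        exact ⟨h.map_mem hx.1, (hA x hx.1).2 hx.2⟩
      · exact σ.injective.injOn
  have h2 := Finset.card_filter_add_card_filter_not (s := T) (fun i => i ∈ A)
  exact ⟨_, by rw [← h2, h1]⟩

/-- removing two consecutive points `a`, `b` of a cycle of length at least six -/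
theorem splice {T : Finset (Fin n)} {a b c : Fin n} (ha : a ∈ T) (hb : b ∈ T) (hc : c ∈ T)
    (hab : a ≠ b) (hac : a ≠ c) (hbc : b ≠ c) (σ : Perm (Fin n)) :
    (LongOn T σ ∧ σ a = b ∧ σ c = a ∧ σ (σ b) ≠ c) ↔
      LongOn ((T.erase a).erase b) (σ * (swap b c * swap a b)) := by
  set ρ : Perm (Fin n) := σ * (swap b c * swap a b) with hρ
  have ea : ρ a = σ c := by simp [hρ, hab, hac, hbc]
  have eb : ρ b = σ a := by simp [hρ, hab, hac, hbc, swap_apply_of_ne_of_ne]
  have ec : ρ c = σ b := by
    simp [hρ, swap_apply_of_ne_of_ne hac.symm hbc.symm]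
  have ex : ∀ x, x ≠ a → x ≠ b → x ≠ c → ρ x = σ x := by
    intro x h1 h2 h3
    simp [hρ, swap_apply_of_ne_of_ne h1 h2, swap_apply_of_ne_of_ne h2 h3]
  constructor
  · rintro ⟨hL, h1, h2, h3⟩
    obtain ⟨A, hA⟩ := hL.2.2
    have hσb1 : σ b ≠ a := by
      intro h; rw [← h2] at h; exact hbc (σ.injective h)
    have hσb2 : σ b ≠ b := hL.map_ne hb
    have hσb3 : σ b ≠ c := by
      intro h
      have k1 := hA a ha
      have k2 := hA b hb
      have k3 := hA c hc
      rw [h1] at k1; rw [h] at k2; rw [h2] at k3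
      tauto
    refine ⟨?_, ?_, A, ?_⟩
    · intro x hx
      by_cases hxa : x = a
      · subst hxa; rw [ea, h2]
      by_cases hxb : x = b
      · subst hxb; rw [eb, h1]
      have hxT : x ∉ T := by
        intro h; exact hx (mem_erase.2 ⟨hxb, mem_erase.2 ⟨hxa, h⟩⟩)
      have hxc : x ≠ c := by rintro rfl; exact hxT hc
      rw [ex x hxa hxb hxc]; exact hL.1 x hxT
    · intro x hx
      rw [mem_erase, mem_erase] at hx
      obtain ⟨hxb, hxa, hxT⟩ := hx
      by_cases hxc : x = c
      · subst hxc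
        rw [ec, ex _ hσb1 hσb2 hσb3]; exact h3
      rw [ex x hxa hxb hxc]
      have k1 : σ x ≠ a := by
        intro h; rw [← h2] at h; exact hxc (σ.injective h)
      have k2 : σ x ≠ b := by
        intro h; rw [← h1] at h; exact hxa (σ.injective h)
      by_cases k3 : σ x = c
      · rw [k3, ec]
        intro h; exact h3 (by rw [h, k3])
      · rw [ex _ k1 k2 k3]; exact hL.2.1 x hxT
    · intro x hx
      rw [mem_erase, mem_erase] at hx
      obtain ⟨hxb, hxa, hxT⟩ := hx
      by_cases hxc : x = c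
      · subst hxc
        rw [ec]
        have k1 := hA a ha
        have k2 := hA b hb
        have k3 := hA x hc
        rw [h1] at k1; rw [h2] at k3
        tauto
      rw [ex x hxa hxb hxc]; exact hA x hxT
  · intro hL
    have ma : a ∉ (T.erase a).erase b := by simp
    have mb : b ∉ (T.erase a).erase b := by simp
    have mc : c ∈ (T.erase a).erase b := by simp [hac.symm, hbc.symm, hc]
    have h1 : σ a = b := by rw [← eb]; exact hL.1 b mb
    have h2 : σ c = a := by rw [← ea]; exact hL.1 a ma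
    have hc1 := hL.map_mem mc
    rw [ec, mem_erase, mem_erase] at hc1
    have hc2 := hL.map_ne mc
    rw [ec] at hc2
    have hc3 := hL.2.1 c mc
    rw [ec, ex _ hc1.2.1 hc1.1 hc2] at hc3
    have hc4 := hL.map_mem (hL.map_mem mc)
    rw [ec, ex _ hc1.2.1 hc1.1 hc2, mem_erase, mem_erase] at hc4
    obtain ⟨A, hA⟩ := hL.2.2
    refine ⟨⟨?_, ?_, ?_⟩, h1, h2, hc3⟩
    · intro x hx
      have hxa : x ≠ a := by rintro rfl; exact hx ha
      have hxb : x ≠ b := by rintro rfl; exact hx hb
      have hxc : x ≠ c := by rintro rfl; exact hx hc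
      rw [← ex x hxa hxb hxc]
      exact hL.1 x (by simp [hx])
    · intro x hx
      by_cases hxa : x = a
      · subst hxa; rw [h1]; exact hc1.2.1
      by_cases hxb : x = b
      · subst hxb; exact hc4.1
      by_cases hxc : x = c
      · subst hxc; rw [h2, h1]; exact hbc
      have mx : x ∈ (T.erase a).erase b := by simp [hxa, hxb, hx]
      have k1 := hL.map_mem mx
      rw [ex x hxa hxb hxc, mem_erase, mem_erase] at k1
      by_cases k3 : σ x = c
      · rw [k3, h2]; exact fun h => hxa h.symm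
      · have k2 := hL.2.1 x mx
        rw [ex x hxa hxb hxc, ex _ k1.2.1 k1.1 k3] at k2
        exact k2
    · refine ⟨univ.filter (fun y => (y = a ∧ c ∉ A) ∨ (y = b ∧ c ∈ A) ∨
        (y ≠ a ∧ y ≠ b ∧ y ∈ A)), ?_⟩
      intro x hx
      simp only [mem_filter, mem_univ, true_and]
      by_cases hxa : x = a
      · subst hxa
        rw [h1]
        simp [hab, hab.symm]
      by_cases hxb : x = b
      · subst hxb
        have k := hA c mc
        rw [ec] at k
        simp [hxa, hc1.1, hc1.2.1, k]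
      by_cases hxc : x = c
      · subst hxc
        rw [h2]
        simp [hxa, hxb, hab]
      have mx : x ∈ (T.erase a).erase b := by simp [hxa, hxb, hx]
      have k1 := hL.map_mem mx
      rw [ex x hxa hxb hxc, mem_erase, mem_erase] at k1
      have k := hA x mx
      rw [ex x hxa hxb hxc] at k
      simp [hxa, hxb, k1.1, k1.2.1, k]

/-- removing a cycle of length four -/
theorem splice4 {T : Finset (Fin n)} {a b c d : Fin n} (ha : a ∈ T) (hb : b ∈ T) (hc : c ∈ T)
    (hd : d ∈ T) (hab : a ≠ b) (hac : a ≠ c) (had : a ≠ d) (hbc : b ≠ c) (hbd : b ≠ d)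
    (hcd : c ≠ d) (σ : Perm (Fin n)) :
    (LongOn T σ ∧ σ a = b ∧ σ b = d ∧ σ d = c ∧ σ c = a) ↔
      LongOn ((((T.erase a).erase b).erase c).erase d)
        (σ * (swap b c * swap a b * swap c d)) := by
  set ρ : Perm (Fin n) := σ * (swap b c * swap a b * swap c d) with hρ
  have ea : ρ a = σ c := by
    simp [hρ, swap_apply_of_ne_of_ne hac had]
  have eb : ρ b = σ a := by
    simp [hρ, swap_apply_of_ne_of_ne hbc hbd, swap_apply_of_ne_of_ne hab hac]
  have ec : ρ c = σ d := by
    simp [hρ, swap_apply_of_ne_of_ne had.symm hbd.symm, swap_apply_of_ne_of_ne hbd.symm hcd.symm]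
  have ed : ρ d = σ b := by
    simp [hρ, swap_apply_of_ne_of_ne hac.symm hbc.symm]
  have ex : ∀ x, x ≠ a → x ≠ b → x ≠ c → x ≠ d → ρ x = σ x := by
    intro x h1 h2 h3 h4
    simp [hρ, swap_apply_of_ne_of_ne h1 h2, swap_apply_of_ne_of_ne h2 h3,
      swap_apply_of_ne_of_ne h3 h4]
  constructor
  · rintro ⟨hL, h1, h2, h3, h4⟩
    obtain ⟨A, hA⟩ := hL.2.2
    have key : ∀ x, x ≠ a → x ≠ b → x ≠ c → x ≠ d →
        σ x ≠ a ∧ σ x ≠ b ∧ σ x ≠ c ∧ σ x ≠ d := by
      intro x k1 k2 k3 k4
      refine ⟨?_, ?_, ?_, ?_⟩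
      · intro h; rw [← h4] at h; exact k3 (σ.injective h)
      · intro h; rw [← h1] at h; exact k1 (σ.injective h)
      · intro h; rw [← h3] at h; exact k4 (σ.injective h)
      · intro h; rw [← h2] at h; exact k2 (σ.injective h)
    refine ⟨?_, ?_, A, ?_⟩
    · intro x hx
      by_cases hxa : x = a
      · subst hxa; rw [ea, h4]
      by_cases hxb : x = b
      · subst hxb; rw [eb, h1]
      by_cases hxc : x = c
      · subst hxc; rw [ec, h3]
      by_cases hxd : x = d
      · subst hxd; rw [ed, h2]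
      have hxT : x ∉ T := by
        intro h; exact hx (by simp [hxa, hxb, hxc, hxd, h])
      rw [ex x hxa hxb hxc hxd]; exact hL.1 x hxT
    · intro x hx
      simp only [mem_erase] at hx
      obtain ⟨hxd, hxc, hxb, hxa, hxT⟩ := hx
      obtain ⟨k1, k2, k3, k4⟩ := key x hxa hxb hxc hxd
      rw [ex x hxa hxb hxc hxd, ex _ k1 k2 k3 k4]
      exact hL.2.1 x hxT
    · intro x hx
      simp only [mem_erase] at hx
      obtain ⟨hxd, hxc, hxb, hxa, hxT⟩ := hx
      rw [ex x hxa hxb hxc hxd]; exact hA x hxT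
  · intro hL
    have h4 : σ c = a := by rw [← ea]; exact hL.1 a (by simp)
    have h1 : σ a = b := by rw [← eb]; exact hL.1 b (by simp)
    have h3 : σ d = c := by rw [← ec]; exact hL.1 c (by simp)
    have h2 : σ b = d := by rw [← ed]; exact hL.1 d (by simp)
    obtain ⟨A, hA⟩ := hL.2.2
    refine ⟨⟨?_, ?_, ?_⟩, h1, h2, h3, h4⟩
    · intro x hx
      have hxa : x ≠ a := by rintro rfl; exact hx ha
      have hxb : x ≠ b := by rintro rfl; exact hx hb
      have hxc : x ≠ c := by rintro rfl; exact hx hc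
      have hxd : x ≠ d := by rintro rfl; exact hx hd
      rw [← ex x hxa hxb hxc hxd]
      exact hL.1 x (by simp [hx])
    · intro x hx
      by_cases hxa : x = a
      · subst hxa; rw [h1, h2]; exact had.symm
      by_cases hxb : x = b
      · subst hxb; rw [h2, h3]; exact hbc.symm
      by_cases hxc : x = c
      · subst hxc; rw [h4, h1]; exact hbc
      by_cases hxd : x = d
      · subst hxd; rw [h3, h4]; exact had
      have mx : x ∈ (((T.erase a).erase b).erase c).erase d := by simp [hxa, hxb, hxc, hxd, hx]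
      have k1 := hL.map_mem mx
      rw [ex x hxa hxb hxc hxd] at k1
      simp only [mem_erase] at k1
      have k2 := hL.2.1 x mx
      rw [ex x hxa hxb hxc hxd, ex _ k1.2.2.2.1 k1.2.2.1 k1.2.1 k1.1] at k2
      exact k2
    · refine ⟨univ.filter (fun y => y = a ∨ y = d ∨
        (y ≠ b ∧ y ≠ c ∧ y ∈ A)), ?_⟩
      intro x hx
      simp only [mem_filter, mem_univ, true_and]
      by_cases hxa : x = a
      · subst hxa
        rw [h1]
        simp [hab.symm, hbd]
      by_cases hxb : x = b
      · subst hxb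
        rw [h2]
        simp [hxa, hbd]
      by_cases hxc : x = c
      · subst hxc
        rw [h4]
        simp [hxa, hcd]
      by_cases hxd : x = d
      · subst hxd
        rw [h3]
        simp [hac.symm, hcd]
      have mx : x ∈ (((T.erase a).erase b).erase c).erase d := by simp [hxa, hxb, hxc, hxd, hx]
      have k1 := hL.map_mem mx
      rw [ex x hxa hxb hxc hxd] at k1
      simp only [mem_erase] at k1
      have k := hA x mx
      rw [ex x hxa hxb hxc hxd] at k
      simp [hxa, hxb, hxc, hxd, k1.1, k1.2.1, k1.2.2.1, k1.2.2.2.1, k]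

/-- weighted count of the permutations in `LongOn T` -/
noncomputable def gsum (χ : Perm (Fin n) →* ℤˣ) (T : Finset (Fin n)) : ℤ :=
  ∑ σ ∈ univ.filter (fun σ : Perm (Fin n) => LongOn T σ), ((χ σ : ℤˣ) : ℤ)

theorem edge_sum (χ : Perm (Fin n) →* ℤˣ) (ε : ℤˣ) (hχ : ∀ x y : Fin n, x ≠ y → χ (swap x y) = ε)
    {T : Finset (Fin n)} {a b : Fin n} (ha : a ∈ T) (hb : b ∈ T) (hab : a ≠ b) :
    ∑ σ ∈ univ.filter (fun σ : Perm (Fin n) => LongOn T σ ∧ σ a = b), ((χ σ : ℤˣ) : ℤ) =
      ∑ c ∈ (T.erase a).erase b, (gsum χ ((T.erase a).erase b) +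
        ∑ d ∈ ((T.erase a).erase b).erase c,
          (ε : ℤ) * gsum χ ((((T.erase a).erase b).erase c).erase d)) := by
  have hε : ε * ε = 1 := Int.units_mul_self ε
  rw [← Finset.sum_fiberwise_of_maps_to (t := (T.erase a).erase b)
    (g := fun σ : Perm (Fin n) => σ⁻¹ a)]
  · apply Finset.sum_congr rfl
    intro c hc
    simp only [mem_erase] at hc
    obtain ⟨hcb, hca, hcT⟩ := hc
    rw [← Finset.sum_filter_add_sum_filter_not _ (fun σ : Perm (Fin n) => σ (σ b) ≠ c)]
    congr 1
    · unfold gsum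
      refine Finset.sum_equiv (Equiv.mulRight (swap b c * swap a b)) ?_ ?_
      · intro σ
        simp only [mem_filter, mem_univ, true_and, Equiv.coe_mulRight]
        rw [← splice ha hb hcT hab hca.symm hcb.symm σ]
        rw [Equiv.Perm.inv_eq_iff_eq]
        constructor
        · rintro ⟨⟨⟨k1, k2⟩, k3⟩, k4⟩; exact ⟨k1, k2, k3.symm, k4⟩
        · rintro ⟨k1, k2, k3, k4⟩; exact ⟨⟨⟨k1, k2⟩, k3.symm⟩, k4⟩
      · intro σ _
        simp only [Equiv.coe_mulRight, map_mul, hχ b c hcb.symm, hχ a b hab, hε, mul_one]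
    · rw [← Finset.sum_fiberwise_of_maps_to (t := ((T.erase a).erase b).erase c)
        (g := fun σ : Perm (Fin n) => σ b)]
      · apply Finset.sum_congr rfl
        intro d hd
        simp only [mem_erase] at hd
        obtain ⟨hdc, hdb, hda, hdT⟩ := hd
        unfold gsum
        rw [Finset.mul_sum]
        refine Finset.sum_equiv (Equiv.mulRight (swap b c * swap a b * swap c d)) ?_ ?_
        · intro σ
          simp only [mem_filter, mem_univ, true_and, Equiv.coe_mulRight]
          rw [← splice4 ha hb hcT hdT hab hca.symm hda.symm hcb.symm hdb.symm hdc.symm σ]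
          rw [Equiv.Perm.inv_eq_iff_eq]
          constructor
          · rintro ⟨⟨⟨⟨k1, k2⟩, k3⟩, k4⟩, k5⟩
            rw [not_not, k5] at k4
            exact ⟨k1, k2, k5, k4, k3.symm⟩
          · rintro ⟨k1, k2, k3, k4, k5⟩
            exact ⟨⟨⟨⟨k1, k2⟩, k5.symm⟩, by rw [not_not, k3, k4]⟩, k3⟩
        · intro σ _
          simp only [Equiv.coe_mulRight, map_mul, hχ b c hcb.symm, hχ a b hab, hχ c d hdc.symm,
            hε, one_mul]
          have h2 : ((ε : ℤˣ) : ℤ) * ((ε : ℤˣ) : ℤ) = 1 := by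
            rw [← Units.val_mul, hε, Units.val_one]
          push_cast
          rw [mul_comm ((χ σ : ℤˣ) : ℤ), ← mul_assoc, h2, one_mul]
      · intro σ hσ
        simp only [mem_filter, mem_univ, true_and, Equiv.Perm.inv_eq_iff_eq] at hσ
        obtain ⟨⟨⟨hL, h1⟩, h2⟩, h3⟩ := hσ
        obtain ⟨A, hA⟩ := hL.2.2
        simp only [mem_erase]
        refine ⟨?_, hL.map_ne hb, ?_, hL.map_mem hb⟩
        · intro h
          have k1 := hA a ha
          have k2 := hA b hb
          have k3 := hA c hcT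
          rw [h1] at k1; rw [h] at k2; rw [← h2] at k3
          tauto
        · intro h; rw [h2] at h; exact hcb (σ.injective h).symm
  · intro σ hσ
    simp only [mem_filter, mem_univ, true_and] at hσ
    obtain ⟨hL, h1⟩ := hσ
    have h2 : σ (σ⁻¹ a) = a := by simp
    simp only [mem_erase]
    refine ⟨?_, ?_, ?_⟩
    · intro h
      rw [h] at h2
      exact hL.2.1 a ha (by rw [h1, h2])
    · intro h
      rw [h] at h2
      exact hL.map_ne ha h2
    · by_contra h
      have h3 := hL.1 _ h
      rw [h2] at h3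
      rw [← h3] at h
      exact h ha

theorem gsum_eq_sum_edge (χ : Perm (Fin n) →* ℤˣ) {T : Finset (Fin n)} {a : Fin n} (ha : a ∈ T) :
    gsum χ T = ∑ b ∈ T.erase a,
      ∑ σ ∈ univ.filter (fun σ : Perm (Fin n) => LongOn T σ ∧ σ a = b), ((χ σ : ℤˣ) : ℤ) := by
  unfold gsum
  rw [← Finset.sum_fiberwise_of_maps_to (t := T.erase a) (g := fun σ : Perm (Fin n) => σ a)]
  · apply Finset.sum_congr rfl
    intro b hb
    rw [Finset.filter_filter]
  · intro σ hσ
    simp only [mem_filter, mem_univ, true_and] at hσ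
    simp only [mem_erase]
    exact ⟨hσ.map_ne ha, hσ.map_mem ha⟩

theorem gsum_empty (χ : Perm (Fin n) →* ℤˣ) : gsum χ (∅ : Finset (Fin n)) = 1 := by
  unfold gsum
  have h : univ.filter (fun σ : Perm (Fin n) => LongOn ∅ σ) = {1} := by
    ext σ
    simp only [mem_filter, mem_univ, true_and, mem_singleton]
    constructor
    · intro h
      ext i
      rw [h.1 i (by simp)]; rfl
    · rintro rfl
      exact ⟨fun i _ => rfl, by simp, ∅, by simp⟩
  rw [h]; simp

/-- the main counting formula -/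
theorem gsum_eq (χ : Perm (Fin n) →* ℤˣ) (ε : ℤˣ) (hχ : ∀ x y : Fin n, x ≠ y → χ (swap x y) = ε)
    (m : ℕ) : ∀ T : Finset (Fin n), T.card = 2 * m →
      ((gsum χ T : ℤ) : ℝ) = (Nat.factorial (2 * m) : ℝ) * gam ((ε : ℤ) : ℝ) m := by
  induction m using Nat.strong_induction_on with
  | _ m ih =>
    intro T hT
    match m, ih, hT with
    | 0, _, hT =>
      have : T = ∅ := Finset.card_eq_zero.1 (by simpa using hT)
      subst this
      rw [gsum_empty]; simp [gam]
    | 1, _, hT =>
      have hne : T.Nonempty := Finset.card_pos.1 (by omega)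
      obtain ⟨a, ha⟩ := hne
      rw [gsum_eq_sum_edge χ ha]
      have : ∀ b ∈ T.erase a, ∑ σ ∈ univ.filter (fun σ : Perm (Fin n) => LongOn T σ ∧ σ a = b),
          ((χ σ : ℤˣ) : ℤ) = 0 := by
        intro b hb
        rw [mem_erase] at hb
        rw [edge_sum χ ε hχ ha hb.2 hb.1.symm]
        have hemp : (T.erase a).erase b = ∅ := by
          apply Finset.card_eq_zero.1
          rw [Finset.card_erase_of_mem (mem_erase.2 hb), Finset.card_erase_of_mem ha]
          omega
        rw [hemp]; simp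
      rw [Finset.sum_eq_zero this]
      simp [gam]
    | m + 2, ih, hT =>
      have hne : T.Nonempty := Finset.card_pos.1 (by omega)
      obtain ⟨a, ha⟩ := hne
      rw [gsum_eq_sum_edge χ ha]
      push_cast
      have h1 : ∀ b ∈ T.erase a,
          ∑ σ ∈ univ.filter (fun σ : Perm (Fin n) => LongOn T σ ∧ σ a = b),
            (((χ σ : ℤˣ) : ℤ) : ℝ) =
          (2 * (m : ℝ) + 2) * ((Nat.factorial (2 * (m + 1)) : ℝ) * gam ((ε : ℤ) : ℝ) (m + 1) +
            (2 * (m : ℝ) + 1) * (((ε : ℤ) : ℝ) *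
              ((Nat.factorial (2 * m) : ℝ) * gam ((ε : ℤ) : ℝ) m))) := by
        intro b hb
        rw [mem_erase] at hb
        have h2 := edge_sum χ ε hχ ha hb.2 hb.1.symm
        have h3 : (((∑ σ ∈ univ.filter (fun σ : Perm (Fin n) => LongOn T σ ∧ σ a = b),
            ((χ σ : ℤˣ) : ℤ)) : ℤ) : ℝ) = _ := congrArg (fun z : ℤ => (z : ℝ)) h2
        push_cast at h3
        rw [h3]
        have c1 : ((T.erase a).erase b).card = 2 * (m + 1) := by
          rw [Finset.card_erase_of_mem (mem_erase.2 hb), Finset.card_erase_of_mem ha]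
          omega
        have h4 : ∀ c ∈ (T.erase a).erase b, (((gsum χ ((T.erase a).erase b) : ℤ) : ℝ) +
            ∑ d ∈ ((T.erase a).erase b).erase c,
              ((ε : ℤ) : ℝ) * ((gsum χ ((((T.erase a).erase b).erase c).erase d) : ℤ) : ℝ)) =
            ((Nat.factorial (2 * (m + 1)) : ℝ) * gam ((ε : ℤ) : ℝ) (m + 1) +
            (2 * (m : ℝ) + 1) * (((ε : ℤ) : ℝ) *
              ((Nat.factorial (2 * m) : ℝ) * gam ((ε : ℤ) : ℝ) m))) := by
          intro c hc
          rw [ih (m + 1) (by omega) _ c1]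
          congr 1
          have c2 : (((T.erase a).erase b).erase c).card = 2 * m + 1 := by
            rw [Finset.card_erase_of_mem hc]; omega
          have h5 : ∀ d ∈ ((T.erase a).erase b).erase c,
              ((ε : ℤ) : ℝ) * ((gsum χ ((((T.erase a).erase b).erase c).erase d) : ℤ) : ℝ) =
              ((ε : ℤ) : ℝ) * ((Nat.factorial (2 * m) : ℝ) * gam ((ε : ℤ) : ℝ) m) := by
            intro d hd
            rw [ih m (by omega)]
            rw [Finset.card_erase_of_mem hd]; omega
          rw [Finset.sum_congr rfl h5, Finset.sum_const, c2, nsmul_eq_mul]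
          push_cast; ring
        rw [Finset.sum_congr rfl h4, Finset.sum_const, c1, nsmul_eq_mul]
        push_cast; ring
      rw [Finset.sum_congr rfl h1, Finset.sum_const, Finset.card_erase_of_mem ha, nsmul_eq_mul]
      have c3 : T.card - 1 = 2 * m + 3 := by omega
      rw [c3]
      have f1 : (Nat.factorial (2 * (m + 1)) : ℝ) =
          (2 * (m : ℝ) + 2) * ((2 * (m : ℝ) + 1) * (Nat.factorial (2 * m) : ℝ)) := by
        rw [show 2 * (m + 1) = (2 * m + 1) + 1 by ring, Nat.factorial_succ, Nat.factorial_succ]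
        push_cast; ring
      have f2 : (Nat.factorial (2 * (m + 2)) : ℝ) =
          (2 * (m : ℝ) + 4) * ((2 * (m : ℝ) + 3) * (Nat.factorial (2 * (m + 1)) : ℝ)) := by
        rw [show 2 * (m + 2) = (2 * (m + 1) + 1) + 1 by ring, Nat.factorial_succ,
          Nat.factorial_succ]
        push_cast; ring
      rw [f2, f1]
      have hpos : (2 * (m : ℝ) + 4) ≠ 0 := by positivity
      simp only [gam]
      push_cast
      field_simp

theorem sum_sign_long {n : ℕ} (T : Finset (Fin n)) (m : ℕ) (hT : T.card = 2 * m) :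
    ∑ σ ∈ univ.filter (fun σ : Perm (Fin n) => LongOn T σ), ((Perm.sign σ : ℤ) : ℝ) =
      (Nat.factorial (2 * m) : ℝ) * gam (-1) m := by
  have h := gsum_eq (Perm.sign : Perm (Fin n) →* ℤˣ) (-1) (fun x y hxy => Perm.sign_swap hxy) m T hT
  unfold gsum at h
  push_cast at h
  exact h

theorem card_long {n : ℕ} (T : Finset (Fin n)) (m : ℕ) (hT : T.card = 2 * m) :
    ((univ.filter (fun σ : Perm (Fin n) => LongOn T σ)).card : ℝ) =
      (Nat.factorial (2 * m) : ℝ) * gam 1 m := by
  have h := gsum_eq (1 : Perm (Fin n) →* ℤˣ) 1 (fun x y _ => rfl) m T hT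
  unfold gsum at h
  simp only [MonoidHom.one_apply, Units.val_one, Finset.sum_const, nsmul_eq_mul, mul_one,
    Int.cast_natCast, Int.cast_one] at h
  exact h

/-- the signed number of the permutations in `LongOn T` through a given edge -/
theorem sum_sign_long_edge {n : ℕ} (T : Finset (Fin n)) (m : ℕ) (hT : T.card = 2 * m)
    (a b : Fin n) (ha : a ∈ T) (hb : b ∈ T) (hab : a ≠ b) :
    (2 * (m : ℝ) - 1) * ∑ σ ∈ univ.filter (fun σ : Perm (Fin n) => LongOn T σ ∧ σ a = b),
      ((Perm.sign σ : ℤ) : ℝ) = (Nat.factorial (2 * m) : ℝ) * gam (-1) m := by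
  have hχ : ∀ x y : Fin n, x ≠ y → (Perm.sign : Perm (Fin n) →* ℤˣ) (swap x y) = -1 :=
    fun x y hxy => Perm.sign_swap hxy
  have hm : 1 ≤ m := by
    have : 0 < T.card := Finset.card_pos.2 ⟨a, ha⟩
    omega
  obtain ⟨k, rfl⟩ : ∃ k, m = k + 1 := ⟨m - 1, by omega⟩
  -- all the edge sums are equal
  have hall : ∀ b' ∈ T.erase a,
      ∑ σ ∈ univ.filter (fun σ : Perm (Fin n) => LongOn T σ ∧ σ a = b'),
        ((Perm.sign σ : ℤ) : ℝ) =
      ∑ σ ∈ univ.filter (fun σ : Perm (Fin n) => LongOn T σ ∧ σ a = b),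
        ((Perm.sign σ : ℤ) : ℝ) := by
    have hval : ∀ b' ∈ T.erase a,
        ∑ σ ∈ univ.filter (fun σ : Perm (Fin n) => LongOn T σ ∧ σ a = b'),
          ((Perm.sign σ : ℤ) : ℝ) =
        (2 * (k : ℝ)) * ((Nat.factorial (2 * k) : ℝ) * gam (-1) k +
          ((2 * k - 1 : ℕ) : ℝ) * (((-1 : ℤ) : ℝ) *
            ((Nat.factorial (2 * (k - 1)) : ℝ) * gam (-1) (k - 1)))) := by
      intro b' hb'
      rw [mem_erase] at hb'
      have h2 := edge_sum (Perm.sign : Perm (Fin n) →* ℤˣ) (-1) hχ ha hb'.2 hb'.1.symm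
      have h3 : (((∑ σ ∈ univ.filter (fun σ : Perm (Fin n) => LongOn T σ ∧ σ a = b'),
          ((Perm.sign σ : ℤˣ) : ℤ)) : ℤ) : ℝ) = _ := congrArg (fun z : ℤ => (z : ℝ)) h2
      push_cast at h3
      rw [h3]
      have c1 : ((T.erase a).erase b').card = 2 * k := by
        rw [Finset.card_erase_of_mem (mem_erase.2 hb'), Finset.card_erase_of_mem ha]
        omega
      have h4 : ∀ c ∈ (T.erase a).erase b',
          (((gsum (Perm.sign : Perm (Fin n) →* ℤˣ) ((T.erase a).erase b') : ℤ) : ℝ) +
          ∑ d ∈ ((T.erase a).erase b').erase c,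
            (-1) * ((gsum (Perm.sign : Perm (Fin n) →* ℤˣ)
              ((((T.erase a).erase b').erase c).erase d) : ℤ) : ℝ)) =
          ((Nat.factorial (2 * k) : ℝ) * gam (-1) k +
          ((2 * k - 1 : ℕ) : ℝ) * (((-1 : ℤ) : ℝ) *
            ((Nat.factorial (2 * (k - 1)) : ℝ) * gam (-1) (k - 1)))) := by
        intro c hc
        have hk : 1 ≤ k := by
          have : 0 < ((T.erase a).erase b').card := Finset.card_pos.2 ⟨c, hc⟩
          omega
        have e1 := gsum_eq (Perm.sign : Perm (Fin n) →* ℤˣ) (-1) hχ k _ c1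
        push_cast at e1
        rw [e1]
        congr 1
        have c2 : (((T.erase a).erase b').erase c).card = 2 * k - 1 := by
          rw [Finset.card_erase_of_mem hc]; omega
        have h5 : ∀ d ∈ ((T.erase a).erase b').erase c,
            (-1) * ((gsum (Perm.sign : Perm (Fin n) →* ℤˣ)
              ((((T.erase a).erase b').erase c).erase d) : ℤ) : ℝ) =
            (((-1 : ℤ) : ℝ) * ((Nat.factorial (2 * (k - 1)) : ℝ) * gam (-1) (k - 1))) := by
          intro d hd
          have e2 := gsum_eq (Perm.sign : Perm (Fin n) →* ℤˣ) (-1) hχ (k - 1)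
            ((((T.erase a).erase b').erase c).erase d)
            (by rw [Finset.card_erase_of_mem hd]; omega)
          push_cast at e2
          rw [e2]; push_cast; ring
        rw [Finset.sum_congr rfl h5, Finset.sum_const, c2, nsmul_eq_mul]
      rw [Finset.sum_congr rfl h4, Finset.sum_const, c1, nsmul_eq_mul]
      push_cast; ring
    intro b' hb'
    rw [hval b' hb', hval b (mem_erase.2 ⟨hab.symm, hb⟩)]
  rw [← sum_sign_long T (k + 1) hT]
  have h1 := gsum_eq_sum_edge (Perm.sign : Perm (Fin n) →* ℤˣ) ha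
  have h2 : ((gsum (Perm.sign : Perm (Fin n) →* ℤˣ) T : ℤ) : ℝ) = _ :=
    congrArg (fun z : ℤ => (z : ℝ)) h1
  unfold gsum at h2
  push_cast at h2
  rw [h2, Finset.sum_congr rfl hall, Finset.sum_const, Finset.card_erase_of_mem ha, hT,
    nsmul_eq_mul]
  have : ((2 * (k + 1) - 1 : ℕ) : ℝ) = 2 * ((k + 1 : ℕ) : ℝ) - 1 := by
    rw [show 2 * (k + 1) - 1 = 2 * k + 1 by omega]; push_cast; ring
  rw [this]

end Pool.Agent.Helper91_SR
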