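import Pool.Agent.Helper91_SR.Defs
set_option autoImplicit false
namespace Pool.Agent.Helper91_SR
open Equiv Finset Classical

variable {n : ℕ}

theorem match_mem {T : Finset (Fin n)} {μ : Perm (Fin n)} (h : MatchOn T μ) {i : Fin n}
    (hi : i ∉ T) : μ i ∉ T := by
  intro h'
  have h1 := h.1 _ h'
  rw [(h.2 i hi).1] at h1
  exact (h.2 i hi).2 h1.symm

/-- removing one pair -/
theorem match_remove {T : Finset (Fin n)} {μ : Perm (Fin n)} (h : MatchOn T μ) {a : Fin n}
    (ha : a ∉ T) : MatchOn (insert a (insert (μ a) T)) (swap a (μ a) * μ) := by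
  have hne := (h.2 a ha).2
  have hinv := (h.2 a ha).1
  constructor
  · intro i hi
    rw [Finset.mem_insert, Finset.mem_insert] at hi
    rw [Perm.mul_apply]
    rcases hi with rfl | rfl | hi
    · exact swap_apply_right _ _
    · rw [hinv, swap_apply_left]
    · rw [h.1 i hi]
      apply swap_apply_of_ne_of_ne
      · rintro rfl; exact ha hi
      · rintro rfl; exact match_mem h ha hi
  · intro i hi
    simp only [Finset.mem_insert, not_or] at hi
    obtain ⟨h1, h2, h3⟩ := hi
    have h4 : μ i ≠ a := by
      intro e
      apply h2
      rw [← e, (h.2 i h3).1]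
    have h5 : μ i ≠ μ a := fun e => h1 (μ.injective e)
    have h6 : (swap a (μ a) * μ) i = μ i := by
      rw [Perm.mul_apply, swap_apply_of_ne_of_ne h4 h5]
    rw [h6]
    refine ⟨?_, (h.2 i h3).2⟩
    rw [Perm.mul_apply, (h.2 i h3).1, swap_apply_of_ne_of_ne h1 h2]

/-- adding one pair -/
theorem match_add {T : Finset (Fin n)} {ν : Perm (Fin n)} {a b : Fin n} (ha : a ∉ T)
    (hb : b ∉ T) (hab : a ≠ b) (h : MatchOn (insert a (insert b T)) ν) :
    MatchOn T (swap a b * ν) ∧ (swap a b * ν) a = b := by
  have hνa : ν a = a := h.1 a (by simp)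
  have hνb : ν b = b := h.1 b (by simp)
  have hA : (swap a b * ν) a = b := by rw [Perm.mul_apply, hνa, swap_apply_left]
  have hB : (swap a b * ν) b = a := by rw [Perm.mul_apply, hνb, swap_apply_right]
  refine ⟨⟨?_, ?_⟩, hA⟩
  · intro i hi
    rw [Perm.mul_apply, h.1 i (by simp [hi])]
    apply swap_apply_of_ne_of_ne
    · rintro rfl; exact ha hi
    · rintro rfl; exact hb hi
  · intro i hi
    by_cases h1 : i = a
    · rw [h1, hA, hB]; exact ⟨rfl, hab.symm⟩
    · by_cases h2 : i = b
      · rw [h2, hB, hA]; exact ⟨rfl, hab⟩
      · have hi' : i ∉ insert a (insert b T) := by simp [h1, h2, hi]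
        have h3 := h.2 i hi'
        have h4 : ν i ≠ a := by
          intro e
          apply h1
          rw [← h3.1, e, hνa]
        have h5 : ν i ≠ b := by
          intro e
          apply h2
          rw [← h3.1, e, hνb]
        have h6 : (swap a b * ν) i = ν i := by
          rw [Perm.mul_apply, swap_apply_of_ne_of_ne h4 h5]
        rw [h6]
        refine ⟨?_, h3.2⟩
        rw [Perm.mul_apply, h3.1, swap_apply_of_ne_of_ne h1 h2]

theorem sign_match_ind : ∀ (k : ℕ) (T : Finset (Fin n)) (μ : Perm (Fin n)), MatchOn T μ →
    n - T.card ≤ k → Even (n - T.card) ∧ (Perm.sign μ : ℤ) = (-1) ^ ((n - T.card) / 2) := by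
  intro k
  induction k with
  | zero =>
    intro T μ h hk
    have hc : T.card ≤ n := by
      have := Finset.card_le_univ T
      simpa using this
    have h1 : T = univ := by
      rw [← Finset.card_eq_iff_eq_univ]
      rw [Fintype.card_fin]; omega
    have h2 : μ = 1 := by
      ext1 i
      exact h.1 i (by rw [h1]; simp)
    have h3 : n - T.card = 0 := by omega
    rw [h3, h2]
    simp
  | succ k ih =>
    intro T μ h hk
    by_cases hT : T = univ
    · have h2 : μ = 1 := by
        ext1 i
        exact h.1 i (by rw [hT]; simp)
      rw [h2, hT]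
      simp
    · obtain ⟨a, ha⟩ : ∃ a, a ∉ T := by
        by_contra hcon
        push Not at hcon
        exact hT (Finset.eq_univ_iff_forall.mpr hcon)
      have hb := match_mem h ha
      have hne := (h.2 a ha).2
      have hr := match_remove h ha
      have hcard : (insert a (insert (μ a) T)).card = T.card + 2 := by
        rw [Finset.card_insert_of_notMem, Finset.card_insert_of_notMem hb]
        simp only [Finset.mem_insert, not_or]
        exact ⟨hne.symm, ha⟩
      have hc : T.card + 2 ≤ n := by
        rw [← hcard]
        have := Finset.card_le_univ (insert a (insert (μ a) T))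
        simpa using this
      obtain ⟨h1, h2⟩ := ih _ _ hr (by rw [hcard]; omega)
      rw [hcard] at h1 h2
      have h3 : n - T.card = (n - (T.card + 2)) + 2 := by omega
      constructor
      · rw [h3]
        exact h1.add (by decide)
      · rw [h3]
        have h4 : (n - (T.card + 2) + 2) / 2 = (n - (T.card + 2)) / 2 + 1 := by omega
        rw [h4, pow_succ, ← h2]
        rw [Perm.sign_mul, Perm.sign_swap hne.symm]
        simp

theorem sign_match (T : Finset (Fin n)) (μ : Perm (Fin n)) (h : MatchOn T μ) :
    T.card ≤ n ∧ Even (n - T.card) ∧ (Perm.sign μ : ℤ) = (-1) ^ ((n - T.card) / 2) := by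
  refine ⟨?_, sign_match_ind _ T μ h le_rfl⟩
  have := Finset.card_le_univ T
  simpa using this

theorem card_match_aux : ∀ (k : ℕ) (T : Finset (Fin n)), T.card + 2 * k = n →
    (univ.filter (fun μ : Perm (Fin n) => MatchOn T μ)).card = dd k := by
  intro k
  induction k with
  | zero =>
    intro T hT
    have h1 : T = univ := by
      rw [← Finset.card_eq_iff_eq_univ]
      rw [Fintype.card_fin]; omega
    have h2 : (univ.filter (fun μ : Perm (Fin n) => MatchOn T μ)) = {1} := by
      ext μ
      simp only [Finset.mem_filter, Finset.mem_univ, true_and, Finset.mem_singleton]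
      constructor
      · intro h
        ext1 i
        exact h.1 i (by rw [h1]; simp)
      · rintro rfl
        refine ⟨fun i _ => rfl, fun i hi => ?_⟩
        rw [h1] at hi
        simp at hi
    rw [h2]
    simp [dd]
  | succ k ih =>
    intro T hT
    obtain ⟨a, ha⟩ : ∃ a, a ∉ T := by
      by_contra hcon
      push Not at hcon
      have : T = univ := Finset.eq_univ_iff_forall.mpr hcon
      rw [this] at hT
      simp at hT
    -- fibre over the partner of `a`
    have h1 : (univ.filter (fun μ : Perm (Fin n) => MatchOn T μ)).card =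
        ∑ b ∈ univ \ insert a T, ((univ.filter (fun μ : Perm (Fin n) => MatchOn T μ)).filter
          (fun μ => μ a = b)).card := by
      apply Finset.card_eq_sum_card_fiberwise
      intro μ hμ
      simp only [Finset.coe_filter, Finset.mem_univ, true_and, Set.mem_ofPred_eq] at hμ
      simp only [Finset.coe_sdiff, Finset.coe_univ, Finset.coe_insert, Set.mem_sdiff, Set.mem_univ,
        true_and, Set.mem_insert_iff, Finset.mem_coe, not_or]
      exact ⟨(hμ.2 a ha).2, match_mem hμ ha⟩
    rw [h1]
    have h2 : ∀ b ∈ univ \ insert a T, ((univ.filter (fun μ : Perm (Fin n) => MatchOn T μ)).filter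
          (fun μ => μ a = b)).card = dd k := by
      intro b hb
      simp only [Finset.mem_sdiff, Finset.mem_univ, true_and, Finset.mem_insert, not_or] at hb
      have hcard : (insert a (insert b T)).card = T.card + 2 := by
        rw [Finset.card_insert_of_notMem, Finset.card_insert_of_notMem hb.2]
        simp only [Finset.mem_insert, not_or]
        exact ⟨fun e => hb.1 e.symm, ha⟩
      rw [← ih (insert a (insert b T)) (by rw [hcard]; omega)]
      apply Finset.card_bij' (fun μ _ => swap a b * μ) (fun ν _ => swap a b * ν)
      · intro μ hμ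
        simp only [Finset.mem_filter, Finset.mem_univ, true_and] at hμ ⊢
        rw [← hμ.2]
        exact match_remove hμ.1 ha
      · intro ν hν
        simp only [Finset.mem_filter, Finset.mem_univ, true_and] at hν ⊢
        exact match_add ha hb.2 (fun e => hb.1 e.symm) hν
      · intro μ _
        rw [← mul_assoc, swap_mul_self, one_mul]
      · intro μ _
        rw [← mul_assoc, swap_mul_self, one_mul]
    rw [Finset.sum_congr rfl h2, Finset.sum_const, smul_eq_mul]
    have h3 : (univ \ insert a T).card = 2 * k + 1 := by
      rw [Finset.card_sdiff_of_subset (Finset.subset_univ _), Finset.card_insert_of_notMem ha,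
        Finset.card_univ, Fintype.card_fin]
      omega
    rw [h3, dd]

theorem card_match (T : Finset (Fin n)) (k : ℕ) (hT : T.card + 2 * k = n) :
    (univ.filter (fun μ : Perm (Fin n) => MatchOn T μ)).card = dd k :=
  card_match_aux k T hT

end Pool.Agent.Helper91_SR
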