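import Pool.Agent.Helper91_SR.MomE
import Pool.Agent.Helper91_SR.CountC2
set_option autoImplicit false
namespace Pool.Agent.Helper91_SR
open Equiv Finset Classical MeasureTheory

variable (n k m : ℕ) (hn : n = 2*k) (hk : 0 < k) (T : Finset (Fin n)) (hT : T.card = 2*m)
include hn hk hT

omit hn hk in
theorem two_m_le : 2 * m ≤ n := by
  rw [← hT]
  have := Finset.card_le_univ T
  simpa using this

omit hn hk in
theorem sum_tau : ∑ i, (tau T i : ℝ) = 2 * m := by
  have hsum : ∑ i, tau T i = 2 * m := by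
    unfold tau
    rw [Finset.sum_ite_mem, Finset.univ_inter, Finset.sum_const, hT]
    simp
  exact_mod_cast hsum

omit hn hk hT in
theorem fact2 (i : Fin n) : (Nat.factorial (tau T i + 2) : ℝ) = 2 + 4 * (tau T i : ℝ) := by
  unfold tau
  split_ifs
  · have : Nat.factorial (1 + 2) = 6 := by decide
    rw [this]; norm_num
  · have : Nat.factorial (0 + 2) = 2 := by decide
    rw [this]; norm_num

omit hn hk hT in
theorem fact4 (i l : Fin n) : (if i = l then (Nat.factorial (tau T i + 4) : ℝ) else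
        (Nat.factorial (tau T i + 2) : ℝ) * (Nat.factorial (tau T l + 2) : ℝ)) =
      (2 + 4 * (tau T i : ℝ)) * (2 + 4 * (tau T l : ℝ)) +
        if i = l then 20 + 64 * (tau T i : ℝ) else 0 := by
  split_ifs with h
  · subst h
    unfold tau
    split_ifs
    · have : Nat.factorial (1 + 4) = 120 := by decide
      rw [this]; norm_num
    · have : Nat.factorial (0 + 4) = 24 := by decide
      rw [this]; norm_num
  · rw [fact2, fact2, add_zero]

omit hT hn hk in
theorem dd_succ' : (dd (k + m + 1) : ℝ) = (2 * ((k : ℝ) + m) + 1) * dd (k + m) := by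
  rw [dd]; push_cast; ring

omit hT hn hk in
theorem dd_succ2' : (dd (k + m + 2) : ℝ) =
    (2 * ((k : ℝ) + m) + 3) * ((2 * ((k : ℝ) + m) + 1) * dd (k + m)) := by
  rw [dd, dd]; push_cast; ring

theorem M1 : IntegrableOn (fun x => wT T x * ((∑ i, x i ^ 2) - 2) ^ 2) (orth n) ∧ ∫ x in orth n, wT T x * ((∑ i, x i ^ 2) - 2) ^ 2 ≤ (16*(m:ℝ)^2/(n:ℝ)^2 + 88/(n:ℝ)) / (dd (k+m) : ℝ) := by
  obtain ⟨i0, v0⟩ := M0 n k m hn hk T hT
  have hp := fun i l => mom_pair n k m hn hk T hT i l
  have hs : ∀ i : Fin n, IntegrableOn (fun x => wT T x * x i ^ 2) (orth n) ∧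
      ∫ x in orth n, wT T x * x i ^ 2 = (2 + 4 * (tau T i : ℝ)) / (dd (k + m + 1) : ℝ) := by
    intro i
    have h := mom_single n k m hn hk T hT i 1
    rw [show 2 * 1 = 2 by norm_num, fact2] at h
    exact h
  have hexp : ∀ x : Fin n → ℝ, wT T x * ((∑ i, x i ^ 2) - 2) ^ 2 =
      (∑ i, ∑ l, wT T x * (x i ^ 2 * x l ^ 2)) - 4 * (∑ i, wT T x * x i ^ 2) + 4 * wT T x := by
    intro x
    have h1 : ∑ i, ∑ l, wT T x * (x i ^ 2 * x l ^ 2) = wT T x * (∑ i, x i ^ 2) ^ 2 := by
      rw [sq (∑ i, x i ^ 2), Finset.sum_mul_sum, Finset.mul_sum]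
      apply Finset.sum_congr rfl
      intro i _
      rw [Finset.mul_sum]
    rw [h1, ← Finset.mul_sum]
    ring
  have hi1 : ∀ i ∈ (Finset.univ : Finset (Fin n)),
      IntegrableOn (fun x => ∑ l, wT T x * (x i ^ 2 * x l ^ 2)) (orth n) :=
    fun i _ => integrable_finsetSum _ fun l _ => (hp i l).1
  have hi2 : IntegrableOn (fun x => ∑ i, ∑ l, wT T x * (x i ^ 2 * x l ^ 2)) (orth n) :=
    integrable_finsetSum _ hi1
  have hi3 : IntegrableOn (fun x => ∑ i : Fin n, wT T x * x i ^ 2) (orth n) :=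
    integrable_finsetSum _ fun i _ => (hs i).1
  simp only [hexp]
  refine ⟨(hi2.sub (hi3.const_mul 4)).add (i0.const_mul 4), ?_⟩
  have hval : ∫ x in orth n, ((∑ i, ∑ l, wT T x * (x i ^ 2 * x l ^ 2)) -
      4 * (∑ i, wT T x * x i ^ 2) + 4 * wT T x) =
      (∫ x in orth n, ∑ i, ∑ l, wT T x * (x i ^ 2 * x l ^ 2)) -
      4 * (∫ x in orth n, ∑ i, wT T x * x i ^ 2) + 4 * ∫ x in orth n, wT T x := by
    rw [integral_add, integral_sub, integral_const_mul, integral_const_mul]
    · exact hi2
    · exact hi3.const_mul 4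
    · exact hi2.sub (hi3.const_mul 4)
    · exact i0.const_mul 4
  rw [hval, v0, integral_finsetSum _ hi1, integral_finsetSum _ fun i _ => (hs i).1]
  have e1 : ∑ i, ∫ x in orth n, ∑ l, wT T x * (x i ^ 2 * x l ^ 2) =
      ((2 * n + 8 * m : ℝ) ^ 2 + (20 * n + 128 * m)) / (dd (k + m + 2) : ℝ) := by
    have h1 : ∀ i ∈ (Finset.univ : Finset (Fin n)),
        ∫ x in orth n, ∑ l, wT T x * (x i ^ 2 * x l ^ 2) =
        ((2 + 4 * (tau T i : ℝ)) * (2 * n + 8 * m) + (20 + 64 * (tau T i : ℝ))) /
          (dd (k + m + 2) : ℝ) := by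
      intro i _
      rw [integral_finsetSum _ fun l _ => (hp i l).1]
      rw [Finset.sum_congr rfl fun l _ => (hp i l).2, ← Finset.sum_div]
      congr 1
      rw [Finset.sum_congr rfl fun l _ => fact4 n T i l, Finset.sum_add_distrib, ← Finset.mul_sum,
        Finset.sum_add_distrib, ← Finset.mul_sum, sum_tau n m T hT, Finset.sum_const,
        Finset.sum_ite_eq, if_pos (Finset.mem_univ i)]
      simp only [Finset.card_univ, Fintype.card_fin, nsmul_eq_mul]
      ring
    rw [Finset.sum_congr rfl h1, ← Finset.sum_div]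
    congr 1
    rw [Finset.sum_add_distrib, ← Finset.sum_mul, Finset.sum_add_distrib, Finset.sum_add_distrib,
      ← Finset.mul_sum, ← Finset.mul_sum, sum_tau n m T hT]
    simp only [Finset.sum_const, Finset.card_univ, Fintype.card_fin, nsmul_eq_mul]
    ring
  have e2 : ∑ i, ∫ x in orth n, wT T x * x i ^ 2 = (2 * n + 8 * m : ℝ) / (dd (k + m + 1) : ℝ) := by
    rw [Finset.sum_congr rfl fun i _ => (hs i).2, ← Finset.sum_div]
    congr 1
    rw [Finset.sum_add_distrib, ← Finset.mul_sum, sum_tau n m T hT]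
    simp only [Finset.sum_const, Finset.card_univ, Fintype.card_fin, nsmul_eq_mul]
    ring
  rw [e1, e2, dd_succ2', dd_succ']
  have hd := ddr_pos (k + m)
  have hm2 : (2 * m : ℝ) ≤ n := by exact_mod_cast two_m_le n m T hT
  have hm0 : (0 : ℝ) ≤ m := by positivity
  have hn1 : (1 : ℝ) ≤ n := by
    have : 1 ≤ n := by omega
    exact_mod_cast this
  have hN : 2 * ((k : ℝ) + m) + 1 = n + 2 * m + 1 := by
    rw [hn]; push_cast; ring
  have hN3 : 2 * ((k : ℝ) + m) + 3 = n + 2 * m + 3 := by
    rw [hn]; push_cast; ring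
  rw [hN, hN3]
  set N : ℝ := n + 2 * m + 1 with hNdef
  have hNn : (n : ℝ) ≤ N := by rw [hNdef]; linarith
  have hN0 : 0 < N := by linarith
  have key : ((2 * n + 8 * m : ℝ) ^ 2 + (20 * n + 128 * m)) / (N + 2) / N -
      4 * ((2 * n + 8 * m : ℝ) / N) + 4 ≤ 16 * (m : ℝ) ^ 2 / n ^ 2 + 88 / n := by
    have h1 : ((2 * n + 8 * m : ℝ) ^ 2 + (20 * n + 128 * m)) / (N + 2) / N ≤
        ((2 * n + 8 * m : ℝ) ^ 2 + (20 * n + 128 * m)) / N / N := by
      apply div_le_div_of_nonneg_right _ hN0.le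
      apply div_le_div_of_nonneg_left (by positivity) hN0 (by linarith)
    have h2 : ((2 * n + 8 * m : ℝ) ^ 2 + (20 * n + 128 * m)) / N / N -
      4 * ((2 * n + 8 * m : ℝ) / N) + 4 = ((4 * m - 2) ^ 2 + (20 * n + 128 * m)) / N ^ 2 := by
      have : (2 * n + 8 * m : ℝ) = 2 * N + (4 * m - 2) := by rw [hNdef]; ring
      rw [this]
      field_simp
      ring
    have h3 : ((4 * (m : ℝ) - 2) ^ 2 + (20 * n + 128 * m)) / N ^ 2 ≤
        ((4 * (m : ℝ) - 2) ^ 2 + (20 * n + 128 * m)) / n ^ 2 := by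
      apply div_le_div_of_nonneg_left (by positivity) (by positivity)
      exact pow_le_pow_left₀ (by linarith) hNn 2
    have h4 : ((4 * (m : ℝ) - 2) ^ 2 + (20 * n + 128 * m)) / (n : ℝ) ^ 2 ≤
        16 * (m : ℝ) ^ 2 / n ^ 2 + 88 / n := by
      have h5 : (88 : ℝ) / n = 88 * n / n ^ 2 := by field_simp
      rw [h5, ← add_div]
      apply div_le_div_of_nonneg_right _ (by positivity)
      nlinarith
    linarith
  calc _ = (((2 * n + 8 * m : ℝ) ^ 2 + (20 * n + 128 * m)) / (N + 2) / N -
      4 * ((2 * n + 8 * m : ℝ) / N) + 4) / (dd (k + m) : ℝ) := by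
        have hN2 : (n : ℝ) + 2 * m + 3 = N + 2 := by rw [hNdef]; ring
        rw [hN2]
        field_simp
    _ ≤ _ := div_le_div_of_nonneg_right key hd.le

/-- fourth mixed moments along a matching -/
theorem mom_match2 (μ : Perm (Fin n)) (hμ : MatchOn T μ) (i l : Fin n) (hi : i ∉ T)
    (hl : l ∉ T) :
    IntegrableOn (fun x => wT T x * ((x i * x (μ i)) * (x l * x (μ l)))) (orth n) ∧
    ∫ x in orth n, wT T x * ((x i * x (μ i)) * (x l * x (μ l))) =
      (1 + (if l = i then 3 else 0) + if l = μ i then 3 else 0) / (dd (k + m + 2) : ℝ) := by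
  have hne := (hμ.2 i hi).2
  have hμi := match_mem hμ hi
  have t1 : tau T i = 0 := by unfold tau; rw [if_neg hi]
  have t2 : tau T (μ i) = 0 := by unfold tau; rw [if_neg hμi]
  have hpair := mom_pair n k m hn hk T hT i (μ i)
  rw [if_neg hne.symm, t1, t2] at hpair
  have f2 : (Nat.factorial (0 + 2) : ℝ) = 2 := by
    have : Nat.factorial (0 + 2) = 2 := by decide
    rw [this]; norm_num
  rw [f2] at hpair
  by_cases h1 : l = i
  · subst h1
    have h2 : ∀ x : Fin n → ℝ, (x l * x (μ l)) * (x l * x (μ l)) = x l ^ 2 * x (μ l) ^ 2 := by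
      intro x; ring
    simp only [h2]
    rw [if_pos trivial, if_neg hne.symm]
    refine ⟨hpair.1, ?_⟩
    rw [hpair.2]
    norm_num
  · by_cases h3 : l = μ i
    · subst h3
      have h2 : ∀ x : Fin n → ℝ, (x i * x (μ i)) * (x (μ i) * x (μ (μ i))) =
          x i ^ 2 * x (μ i) ^ 2 := by
        intro x
        rw [(hμ.2 i hi).1]; ring
      simp only [h2]
      rw [if_pos trivial, if_neg hne]
      refine ⟨hpair.1, ?_⟩
      rw [hpair.2]
      norm_num
    · rw [if_neg h1, if_neg h3]
      have hne2 := (hμ.2 l hl).2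
      have h4 : μ l ≠ i := by
        intro h
        apply h3
        rw [← h, (hμ.2 l hl).1]
      have h5 : μ l ≠ μ i := fun h => h1 (μ.injective h)
      set e : Fin n → ℕ := fun s => if s = i ∨ s = μ i ∨ s = l ∨ s = μ l then 1 else 0 with he
      have hprod : ∀ x : Fin n → ℝ, ∏ s, x s ^ e s = (x i * x (μ i)) * (x l * x (μ l)) := by
        intro x
        have h6 : ∏ s, x s ^ e s = ∏ s ∈ ({i, μ i, l, μ l} : Finset (Fin n)), x s := by
          rw [← Finset.prod_subset (Finset.subset_univ ({i, μ i, l, μ l} : Finset (Fin n)))]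
          · apply Finset.prod_congr rfl
            intro s hs
            simp only [Finset.mem_insert, Finset.mem_singleton] at hs
            simp only [he]
            rw [if_pos hs, pow_one]
          · intro s _ hs
            simp only [Finset.mem_insert, Finset.mem_singleton] at hs
            simp only [he]
            rw [if_neg hs, pow_zero]
        rw [h6, Finset.prod_insert, Finset.prod_insert, Finset.prod_insert, Finset.prod_singleton]
        · ring
        · simp only [Finset.mem_singleton]; exact hne2.symm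
        · simp only [Finset.mem_insert, Finset.mem_singleton, not_or]
          exact ⟨fun h => h3 h.symm, fun h => h5 h.symm⟩
        · simp only [Finset.mem_insert, Finset.mem_singleton, not_or]
          exact ⟨hne.symm, fun h => h1 h.symm, fun h => h4 h.symm⟩
      have hsum : ∑ s, e s = 2 * 2 := by
        have h6 : ∑ s, e s = ∑ s ∈ ({i, μ i, l, μ l} : Finset (Fin n)), 1 := by
          rw [← Finset.sum_subset (Finset.subset_univ ({i, μ i, l, μ l} : Finset (Fin n)))]
          · apply Finset.sum_congr rfl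
            intro s hs
            simp only [Finset.mem_insert, Finset.mem_singleton] at hs
            simp only [he]
            rw [if_pos hs]
          · intro s _ hs
            simp only [Finset.mem_insert, Finset.mem_singleton] at hs
            simp only [he]
            rw [if_neg hs]
        rw [h6, Finset.sum_insert, Finset.sum_insert, Finset.sum_insert, Finset.sum_singleton]
        · norm_num
        · simp only [Finset.mem_singleton]; exact hne2.symm
        · simp only [Finset.mem_insert, Finset.mem_singleton, not_or]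
          exact ⟨fun h => h3 h.symm, fun h => h5 h.symm⟩
        · simp only [Finset.mem_insert, Finset.mem_singleton, not_or]
          exact ⟨hne.symm, fun h => h1 h.symm, fun h => h4 h.symm⟩
      have h := mom_T n k m hn hk T hT e 2 hsum
      have hfac : ∏ s, (Nat.factorial (tau T s + e s) : ℝ) = 1 := by
        apply Finset.prod_eq_one
        intro s _
        have h7 : tau T s + e s ≤ 1 := by
          simp only [he]
          split_ifs with h8
          · have : tau T s = 0 := by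
              unfold tau
              rw [if_neg]
              rcases h8 with rfl | rfl | rfl | rfl
              · exact hi
              · exact hμi
              · exact hl
              · exact match_mem hμ hl
            omega
          · have := tau_le n T s
            omega
        have h9 : Nat.factorial (tau T s + e s) = 1 := Nat.factorial_eq_one.mpr h7
        rw [h9]; norm_num
      simp only [hprod] at h
      rw [hfac] at h
      refine ⟨h.1, ?_⟩
      rw [h.2]
      norm_num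

theorem mom_match1 (μ : Perm (Fin n)) (hμ : MatchOn T μ) (i : Fin n) (hi : i ∉ T) :
    IntegrableOn (fun x => wT T x * (x i * x (μ i))) (orth n) ∧
    ∫ x in orth n, wT T x * (x i * x (μ i)) = 1 / (dd (k + m + 1) : ℝ) := by
  have hne := (hμ.2 i hi).2
  have hμi := match_mem hμ hi
  set e : Fin n → ℕ := fun s => if s = i ∨ s = μ i then 1 else 0 with he
  have hprod : ∀ x : Fin n → ℝ, ∏ s, x s ^ e s = x i * x (μ i) := by
    intro x
    have h6 : ∏ s, x s ^ e s = ∏ s ∈ ({i, μ i} : Finset (Fin n)), x s := by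
      rw [← Finset.prod_subset (Finset.subset_univ ({i, μ i} : Finset (Fin n)))]
      · apply Finset.prod_congr rfl
        intro s hs
        simp only [Finset.mem_insert, Finset.mem_singleton] at hs
        simp only [he]
        rw [if_pos hs, pow_one]
      · intro s _ hs
        simp only [Finset.mem_insert, Finset.mem_singleton] at hs
        simp only [he]
        rw [if_neg hs, pow_zero]
    rw [h6, Finset.prod_insert, Finset.prod_singleton]
    simp only [Finset.mem_singleton]; exact hne.symm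
  have hsum : ∑ s, e s = 2 * 1 := by
    have h6 : ∑ s, e s = ∑ s ∈ ({i, μ i} : Finset (Fin n)), 1 := by
      rw [← Finset.sum_subset (Finset.subset_univ ({i, μ i} : Finset (Fin n)))]
      · apply Finset.sum_congr rfl
        intro s hs
        simp only [Finset.mem_insert, Finset.mem_singleton] at hs
        simp only [he]
        rw [if_pos hs]
      · intro s _ hs
        simp only [Finset.mem_insert, Finset.mem_singleton] at hs
        simp only [he]
        rw [if_neg hs]
    rw [h6, Finset.sum_insert, Finset.sum_singleton]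
    simp only [Finset.mem_singleton]; exact hne.symm
  have h := mom_T n k m hn hk T hT e 1 hsum
  have hfac : ∏ s, (Nat.factorial (tau T s + e s) : ℝ) = 1 := by
    apply Finset.prod_eq_one
    intro s _
    have h7 : tau T s + e s ≤ 1 := by
      simp only [he]
      split_ifs with h8
      · have : tau T s = 0 := by
          unfold tau
          rw [if_neg]
          rcases h8 with rfl | rfl
          · exact hi
          · exact hμi
        omega
      · have := tau_le n T s
        omega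
    have h9 : Nat.factorial (tau T s + e s) = 1 := Nat.factorial_eq_one.mpr h7
    rw [h9]; norm_num
  simp only [hprod] at h
  rw [hfac] at h
  exact h

theorem M2 (μ : Perm (Fin n)) (hμ : MatchOn T μ) : IntegrableOn (fun x => wT T x * ((1/2) * (∑ i ∈ Tᶜ, x i * x (μ i)) - 1/2) ^ 2) (orth n) ∧ ∫ x in orth n, wT T x * ((1/2) * (∑ i ∈ Tᶜ, x i * x (μ i)) - 1/2) ^ 2 ≤ (8*(m:ℝ)^2/(n:ℝ)^2 + 2/(n:ℝ)) / (dd (k+m) : ℝ) := by
  obtain ⟨i0, v0⟩ := M0 n k m hn hk T hT
  have hp : ∀ i ∈ Tᶜ, ∀ l ∈ Tᶜ, _ := fun i hi l hl =>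
    mom_match2 n k m hn hk T hT μ hμ i l (Finset.mem_compl.mp hi) (Finset.mem_compl.mp hl)
  have hs : ∀ i ∈ Tᶜ, _ := fun i hi =>
    mom_match1 n k m hn hk T hT μ hμ i (Finset.mem_compl.mp hi)
  have hexp : ∀ x : Fin n → ℝ, wT T x * ((1/2) * (∑ i ∈ Tᶜ, x i * x (μ i)) - 1/2) ^ 2 =
      1 / 4 * (∑ i ∈ Tᶜ, ∑ l ∈ Tᶜ, wT T x * ((x i * x (μ i)) * (x l * x (μ l)))) -
        1 / 2 * (∑ i ∈ Tᶜ, wT T x * (x i * x (μ i))) + 1 / 4 * wT T x := by
    intro x
    have h1 : ∑ i ∈ Tᶜ, ∑ l ∈ Tᶜ, wT T x * ((x i * x (μ i)) * (x l * x (μ l))) =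
        wT T x * (∑ i ∈ Tᶜ, x i * x (μ i)) ^ 2 := by
      rw [sq (∑ i ∈ Tᶜ, x i * x (μ i)), Finset.sum_mul_sum, Finset.mul_sum]
      apply Finset.sum_congr rfl
      intro i _
      rw [Finset.mul_sum]
    rw [h1, ← Finset.mul_sum]
    ring
  have hi1 : ∀ i ∈ Tᶜ, IntegrableOn
      (fun x => ∑ l ∈ Tᶜ, wT T x * ((x i * x (μ i)) * (x l * x (μ l)))) (orth n) :=
    fun i hi => integrable_finsetSum _ fun l hl => (hp i hi l hl).1
  have hi2 : IntegrableOn
      (fun x => ∑ i ∈ Tᶜ, ∑ l ∈ Tᶜ, wT T x * ((x i * x (μ i)) * (x l * x (μ l)))) (orth n) :=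
    integrable_finsetSum _ hi1
  have hi3 : IntegrableOn (fun x => ∑ i ∈ Tᶜ, wT T x * (x i * x (μ i))) (orth n) :=
    integrable_finsetSum _ fun i hi => (hs i hi).1
  simp only [hexp]
  refine ⟨((hi2.const_mul _).sub (hi3.const_mul _)).add (i0.const_mul _), ?_⟩
  have hval : ∫ x in orth n, (1 / 4 * (∑ i ∈ Tᶜ, ∑ l ∈ Tᶜ,
        wT T x * ((x i * x (μ i)) * (x l * x (μ l)))) -
        1 / 2 * (∑ i ∈ Tᶜ, wT T x * (x i * x (μ i))) + 1 / 4 * wT T x) =
      1 / 4 * (∫ x in orth n, ∑ i ∈ Tᶜ, ∑ l ∈ Tᶜ,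
        wT T x * ((x i * x (μ i)) * (x l * x (μ l)))) -
        1 / 2 * (∫ x in orth n, ∑ i ∈ Tᶜ, wT T x * (x i * x (μ i))) +
        1 / 4 * ∫ x in orth n, wT T x := by
    rw [integral_add, integral_sub, integral_const_mul, integral_const_mul, integral_const_mul]
    · exact hi2.const_mul _
    · exact hi3.const_mul _
    · exact (hi2.const_mul _).sub (hi3.const_mul _)
    · exact i0.const_mul _
  rw [hval, v0, integral_finsetSum _ hi1, integral_finsetSum _ fun i hi => (hs i hi).1]
  have hcard : ((Tᶜ : Finset (Fin n)).card : ℝ) = n - 2 * m := by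
    rw [Finset.card_compl, Fintype.card_fin, hT, Nat.cast_sub (two_m_le n m T hT)]
    push_cast; ring
  have e1 : ∑ i ∈ Tᶜ, ∫ x in orth n, ∑ l ∈ Tᶜ, wT T x * ((x i * x (μ i)) * (x l * x (μ l))) =
      ((n - 2 * m : ℝ) * (n - 2 * m + 6)) / (dd (k + m + 2) : ℝ) := by
    have h1 : ∀ i ∈ Tᶜ,
        ∫ x in orth n, ∑ l ∈ Tᶜ, wT T x * ((x i * x (μ i)) * (x l * x (μ l))) =
        ((n - 2 * m : ℝ) + 6) / (dd (k + m + 2) : ℝ) := by
      intro i hi
      have hi' := Finset.mem_compl.mp hi
      rw [integral_finsetSum _ fun l hl => (hp i hi l hl).1]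
      rw [Finset.sum_congr rfl fun l hl => (hp i hi l hl).2, ← Finset.sum_div]
      congr 1
      rw [Finset.sum_add_distrib, Finset.sum_add_distrib, Finset.sum_const, Finset.sum_ite_eq',
        Finset.sum_ite_eq', if_pos hi, if_pos (Finset.mem_compl.mpr (match_mem hμ hi')),
        nsmul_eq_mul, hcard]
      ring
    rw [Finset.sum_congr rfl h1, Finset.sum_const, nsmul_eq_mul, hcard]
    ring
  have e2 : ∑ i ∈ Tᶜ, ∫ x in orth n, wT T x * (x i * x (μ i)) =
      (n - 2 * m : ℝ) / (dd (k + m + 1) : ℝ) := by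
    rw [Finset.sum_congr rfl fun i hi => (hs i hi).2, Finset.sum_const, nsmul_eq_mul, hcard]
    ring
  rw [e1, e2, dd_succ2', dd_succ']
  have hd := ddr_pos (k + m)
  have hm2 : (2 * m : ℝ) ≤ n := by exact_mod_cast two_m_le n m T hT
  have hm0 : (0 : ℝ) ≤ m := by positivity
  have hn2 : (2 : ℝ) ≤ n := by
    have : 2 ≤ n := by omega
    exact_mod_cast this
  have hN : 2 * ((k : ℝ) + m) + 1 = n + 2 * m + 1 := by
    rw [hn]; push_cast; ring
  have hN3 : 2 * ((k : ℝ) + m) + 3 = n + 2 * m + 3 := by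
    rw [hn]; push_cast; ring
  rw [hN, hN3]
  set N : ℝ := n + 2 * m + 1 with hNdef
  have hNn : (n : ℝ) ≤ N := by rw [hNdef]; linarith
  have hN0 : 0 < N := by linarith
  have hnm : 0 ≤ (n : ℝ) - 2 * m := by linarith
  have key : 1 / 4 * (((n - 2 * m : ℝ) * (n - 2 * m + 6)) / (N + 2) / N) -
      1 / 2 * ((n - 2 * m : ℝ) / N) + 1 / 4 ≤ 8 * (m : ℝ) ^ 2 / n ^ 2 + 2 / n := by
    have h1 : ((n - 2 * m : ℝ) * (n - 2 * m + 6)) / (N + 2) / N ≤
        ((n - 2 * m : ℝ) * (n - 2 * m + 6)) / N / N := by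
      apply div_le_div_of_nonneg_right _ hN0.le
      apply div_le_div_of_nonneg_left _ hN0 (by linarith)
      positivity
    have h2 : 1 / 4 * (((n - 2 * m : ℝ) * (n - 2 * m + 6)) / N / N) -
      1 / 2 * ((n - 2 * m : ℝ) / N) + 1 / 4 =
        ((4 * m + 1) ^ 2 + 6 * (n - 2 * m)) / (4 * N ^ 2) := by
      have : (n - 2 * m : ℝ) = N - (4 * m + 1) := by rw [hNdef]; ring
      rw [this]
      field_simp
      ring
    have h3 : ((4 * (m : ℝ) + 1) ^ 2 + 6 * (n - 2 * m)) / (4 * N ^ 2) ≤
        ((4 * (m : ℝ) + 1) ^ 2 + 6 * (n - 2 * m)) / (4 * n ^ 2) := by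
      apply div_le_div_of_nonneg_left (by positivity) (by positivity)
      have := pow_le_pow_left₀ (by linarith : (0 : ℝ) ≤ n) hNn 2
      linarith
    have h4 : ((4 * (m : ℝ) + 1) ^ 2 + 6 * (n - 2 * m)) / (4 * (n : ℝ) ^ 2) ≤
        8 * (m : ℝ) ^ 2 / n ^ 2 + 2 / n := by
      have h5 : 8 * (m : ℝ) ^ 2 / n ^ 2 + 2 / n = (32 * (m : ℝ) ^ 2 + 8 * n) / (4 * n ^ 2) := by
        field_simp
        ring
      rw [h5]
      apply div_le_div_of_nonneg_right _ (by positivity)
      nlinarith [sq_nonneg ((m : ℝ) - 1), sq_nonneg (4 * (m : ℝ) - 1)]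
    linarith
  calc _ = (1 / 4 * (((n - 2 * m : ℝ) * (n - 2 * m + 6)) / (N + 2) / N) -
      1 / 2 * ((n - 2 * m : ℝ) / N) + 1 / 4) / (dd (k + m) : ℝ) := by
        have hN2 : (n : ℝ) + 2 * m + 3 = N + 2 := by rw [hNdef]; ring
        rw [hN2]
        field_simp
    _ ≤ _ := div_le_div_of_nonneg_right key hd.le

end Pool.Agent.Helper91_SR
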