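import Pool.Agent.Helper91_SR.PointD3
import Pool.Agent.Helper91_SR.MomE2
set_option autoImplicit false
namespace Pool.Agent.Helper91_SR
open Equiv Finset Classical MeasureTheory

variable {n : ℕ}

theorem measurable_orth : MeasurableSet (orth n) :=
  MeasurableSet.univ_pi fun _ => measurableSet_Ioi

theorem measurable_le1 : MeasurableSet {x : Fin n → ℝ | ∀ i, x i ≤ 1} := by
  have : {x : Fin n → ℝ | ∀ i, x i ≤ 1} = Set.univ.pi fun _ => Set.Iic (1 : ℝ) := by
    ext x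
    rw [Set.mem_univ_pi]
    rfl
  rw [this]
  exact MeasurableSet.univ_pi fun _ => measurableSet_Iic

theorem box_ae : box n =ᵐ[volume] (orth n ∩ {x : Fin n → ℝ | ∀ i, x i ≤ 1} : Set (Fin n → ℝ)) := by
  have h1 : box n = Set.Icc (fun _ => (0 : ℝ)) (fun _ => (1 : ℝ)) := by
    unfold box
    rw [Set.pi_univ_Icc]
  have h2 : (orth n ∩ {x : Fin n → ℝ | ∀ i, x i ≤ 1} : Set (Fin n → ℝ)) =
      Set.univ.pi fun _ => Set.Ioc (0 : ℝ) 1 := by
    ext x
    simp only [orth, Set.mem_inter_iff, Set.mem_pi, Set.mem_univ, Set.mem_Ioi, forall_true_left,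
      Set.mem_ofPred_eq, Set.mem_Ioc]
    exact forall_and.symm
  rw [h1, h2, volume_pi]
  exact (Measure.univ_pi_Ioc_ae_eq_Icc (f := fun _ => (0 : ℝ)) (g := fun _ => (1 : ℝ))).symm

theorem box_integral (f : (Fin n → ℝ) → ℝ) : ∫ x in box n, f x =
    ∫ x in orth n, {x : Fin n → ℝ | ∀ i, x i ≤ 1}.indicator f x := by
  rw [setIntegral_congr_set box_ae, setIntegral_indicator measurable_le1]

theorem compact_box : IsCompact (box n) := isCompact_univ_pi fun _ => isCompact_Icc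

theorem box_integrable {f : (Fin n → ℝ) → ℝ} (hf : Continuous f) : IntegrableOn f (box n) :=
  hf.continuousOn.integrableOn_compact compact_box

theorem mem_box {x : Fin n → ℝ} (hx : x ∈ box n) : (∀ i, 0 ≤ x i) ∧ ∀ i, x i ≤ 1 := by
  unfold box at hx
  rw [Set.mem_univ_pi] at hx
  exact ⟨fun i => (hx i).1, fun i => (hx i).2⟩

/-- a nonnegative function integrates to less on the box than on the orthant -/
theorem box_le_orth {f : (Fin n → ℝ) → ℝ} (h0 : ∀ x, (∀ i, 0 ≤ x i) → 0 ≤ f x)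
    (hf : IntegrableOn f (orth n)) : IntegrableOn f (box n) ∧
    ∫ x in box n, f x ≤ ∫ x in orth n, f x := by
  have h1 : IntegrableOn f (orth n ∩ {x : Fin n → ℝ | ∀ i, x i ≤ 1}) :=
    hf.mono_set Set.inter_subset_left
  refine ⟨h1.congr_set_ae box_ae, ?_⟩
  rw [setIntegral_congr_set box_ae]
  apply setIntegral_mono_set hf
  · filter_upwards [ae_restrict_mem measurable_orth] with x hx
    apply h0
    intro i
    unfold orth at hx
    rw [Set.mem_univ_pi] at hx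
    exact (hx i).le
  · exact (Set.inter_subset_left).eventuallyLE

variable {k m : ℕ}

theorem D2a (hn : n = 2 * k) (hk : 0 < k) {T : Finset (Fin n)} (hT : T.card = 2 * m)
    {σ μ : Perm (Fin n)} (hσ : LongOn T σ) (hμ : MatchOn T μ) :
    |(∫ x in box n, (∏ i ∈ T, x i) * ∏ e ∈ nonadj (σ * μ), (1 - x e.1 * x e.2)) -
      ∫ x in box n, (∏ i ∈ T, x i) * ((∏ e ∈ nonadj μ, (1 - x e.1 * x e.2)) *
        (1 + ∑ i ∈ T, x i * x (σ i)))| ≤
    Real.exp 6 * ((312 * (m : ℝ) ^ 2 / (n : ℝ) ^ 2) / (dd (k + m) : ℝ)) := by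
  have c1 : Continuous fun x : Fin n → ℝ =>
      (∏ i ∈ T, x i) * ∏ e ∈ nonadj (σ * μ), (1 - x e.1 * x e.2) := by fun_prop
  have c2 : Continuous fun x : Fin n → ℝ =>
      (∏ i ∈ T, x i) * ((∏ e ∈ nonadj μ, (1 - x e.1 * x e.2)) *
        (1 + ∑ i ∈ T, x i * x (σ i))) := by fun_prop
  rw [← integral_sub (box_integrable c1) (box_integrable c2)]
  obtain ⟨i6, v6⟩ := M6 n k m hn hk T hT
  have hf : IntegrableOn (fun x => Real.exp 6 * (wT T x * (∑ i ∈ T, x i ^ 2) ^ 2)) (orth n) :=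
    i6.const_mul _
  obtain ⟨hb1, hb2⟩ := box_le_orth (f := fun x => Real.exp 6 * (wT T x * (∑ i ∈ T, x i ^ 2) ^ 2))
    (fun x hx => by
      have : 0 ≤ wT T x := by
        unfold wT gw
        have := Finset.prod_nonneg (s := T) (fun i _ => hx i)
        positivity
      positivity) hf
  have hle : ∀ x ∈ box n, ‖(∏ i ∈ T, x i) * ∏ e ∈ nonadj (σ * μ), (1 - x e.1 * x e.2) -
      (∏ i ∈ T, x i) * ((∏ e ∈ nonadj μ, (1 - x e.1 * x e.2)) *
        (1 + ∑ i ∈ T, x i * x (σ i)))‖ ≤ Real.exp 6 * (wT T x * (∑ i ∈ T, x i ^ 2) ^ 2) := by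
    intro x hx
    obtain ⟨h0, h1⟩ := mem_box hx
    have hp := point_a hσ hμ x h0 h1
    have hprod : 0 ≤ ∏ i ∈ T, x i := Finset.prod_nonneg fun i _ => h0 i
    rw [← mul_sub, norm_mul, Real.norm_of_nonneg hprod, Real.norm_eq_abs]
    calc (∏ i ∈ T, x i) * _ ≤ (∏ i ∈ T, x i) *
          (Real.exp 6 * gw x * (∑ i ∈ T, x i ^ 2) ^ 2) := mul_le_mul_of_nonneg_left hp hprod
      _ = _ := by unfold wT; ring
  have h3 : |∫ x in box n, ((∏ i ∈ T, x i) * ∏ e ∈ nonadj (σ * μ), (1 - x e.1 * x e.2) -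
      (∏ i ∈ T, x i) * ((∏ e ∈ nonadj μ, (1 - x e.1 * x e.2)) *
        (1 + ∑ i ∈ T, x i * x (σ i))))| ≤
      ∫ x in box n, Real.exp 6 * (wT T x * (∑ i ∈ T, x i ^ 2) ^ 2) := by
    rw [← Real.norm_eq_abs]
    apply norm_integral_le_of_norm_le hb1
    filter_upwards [ae_restrict_mem compact_box.isClosed.measurableSet] with x hx
    exact hle x hx
  refine h3.trans (hb2.trans ?_)
  rw [integral_const_mul]
  exact mul_le_mul_of_nonneg_left v6 (Real.exp_pos _).le

theorem D2b (hn : n = 2 * k) (hk : 0 < k) {T : Finset (Fin n)} (hT : T.card = 2 * m)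
    {μ : Perm (Fin n)} (hμ : MatchOn T μ) (lam : ℝ) (hlam : 0 < lam) :
    |(∫ x in box n, (∏ i ∈ T, x i) * ((∏ e ∈ nonadj μ, (1 - x e.1 * x e.2)) *
        (1 + (∑ i ∈ T, ∑ j ∈ T.erase i, x i * x j) / (2 * (m : ℝ) - 1)))) -
      Real.exp (1 / 2) / (dd (k + m) : ℝ)| ≤
    Real.exp 6 * ((lam / 2 * (8 * (m : ℝ) ^ 2 / (n : ℝ) ^ 2 + 2 / (n : ℝ)) +
      (lam + 1) / 4 * (16 * (m : ℝ) ^ 2 / (n : ℝ) ^ 2 + 88 / (n : ℝ)) + 1 / lam +
      1 / 2 * (120 / (n : ℝ)) + (n + 64) * (5040 / (n : ℝ) ^ 2) +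
      12 * (m : ℝ) / (n : ℝ)) / (dd (k + m) : ℝ)) := by
  obtain ⟨i0, v0⟩ := M0 n k m hn hk T hT
  obtain ⟨i1, v1⟩ := M1 n k m hn hk T hT
  obtain ⟨i2, v2⟩ := M2 n k m hn hk T hT μ hμ
  obtain ⟨i3, v3⟩ := M3 n k m hn hk T hT
  obtain ⟨i4, v4⟩ := M4 n k m hn hk T hT
  obtain ⟨i5, v5⟩ := M5 n k m hn hk T hT
  set F : (Fin n → ℝ) → ℝ := fun x => (∏ i ∈ T, x i) * ((∏ e ∈ nonadj μ, (1 - x e.1 * x e.2)) *
        (1 + (∑ i ∈ T, ∑ j ∈ T.erase i, x i * x j) / (2 * (m : ℝ) - 1))) with hF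
  have cF : Continuous F := by
    rw [hF]; fun_prop
  have iF : IntegrableOn F (box n) := box_integrable cF
  have iF' : IntegrableOn ({x : Fin n → ℝ | ∀ i, x i ≤ 1}.indicator F) (orth n) := by
    have h1 : IntegrableOn F (orth n ∩ {x : Fin n → ℝ | ∀ i, x i ≤ 1}) :=
      iF.congr_set_ae box_ae.symm
    unfold IntegrableOn
    rw [integrable_indicator_iff measurable_le1]
    unfold IntegrableOn
    rw [Measure.restrict_restrict measurable_le1, Set.inter_comm]
    exact h1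
  have ie : IntegrableOn (fun x => Real.exp (1 / 2) * wT T x) (orth n) := i0.const_mul _
  have e1 : Real.exp (1 / 2) / (dd (k + m) : ℝ) = ∫ x in orth n, Real.exp (1 / 2) * wT T x := by
    rw [integral_const_mul, v0]
    ring
  rw [box_integral, e1, ← integral_sub iF' ie]
  -- the bounding function
  set B : (Fin n → ℝ) → ℝ := fun x => Real.exp 6 * (lam / 2 * (wT T x *
      ((1/2) * (∑ i ∈ Tᶜ, x i * x (μ i)) - 1/2) ^ 2) +
      (lam + 1) / 4 * (wT T x * ((∑ i, x i ^ 2) - 2) ^ 2) + 1 / lam * wT T x +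
      1 / 2 * (wT T x * ∑ i, x i ^ 4) + (n + 64) * (wT T x * ∑ i, x i ^ 6) +
      wT T x * ∑ i ∈ T, x i ^ 2) with hB
  have iB : IntegrableOn B (orth n) := by
    rw [hB]
    exact ((((((i2.const_mul _).add (i1.const_mul _)).add (i0.const_mul _)).add
      (i3.const_mul _)).add (i4.const_mul _)).add i5).const_mul _
  have vB : ∫ x in orth n, B x = Real.exp 6 * (lam / 2 * (∫ x in orth n, wT T x *
      ((1/2) * (∑ i ∈ Tᶜ, x i * x (μ i)) - 1/2) ^ 2) +
      (lam + 1) / 4 * (∫ x in orth n, wT T x * ((∑ i, x i ^ 2) - 2) ^ 2) +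
      1 / lam * (∫ x in orth n, wT T x) +
      1 / 2 * (∫ x in orth n, wT T x * ∑ i, x i ^ 4) +
      (n + 64) * (∫ x in orth n, wT T x * ∑ i, x i ^ 6) +
      ∫ x in orth n, wT T x * ∑ i ∈ T, x i ^ 2) := by
    rw [hB, integral_const_mul]
    congr 1
    rw [integral_add, integral_add, integral_add, integral_add, integral_add,
      integral_const_mul, integral_const_mul, integral_const_mul, integral_const_mul,
      integral_const_mul]
    · exact i2.const_mul _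
    · exact i1.const_mul _
    · exact (i2.const_mul _).add (i1.const_mul _)
    · exact i0.const_mul _
    · exact ((i2.const_mul _).add (i1.const_mul _)).add (i0.const_mul _)
    · exact i3.const_mul _
    · exact (((i2.const_mul _).add (i1.const_mul _)).add (i0.const_mul _)).add (i3.const_mul _)
    · exact i4.const_mul _
    · exact ((((i2.const_mul _).add (i1.const_mul _)).add (i0.const_mul _)).add
        (i3.const_mul _)).add (i4.const_mul _)
    · exact i5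
  have hbd : |∫ x in orth n, ({x : Fin n → ℝ | ∀ i, x i ≤ 1}.indicator F x -
      Real.exp (1 / 2) * wT T x)| ≤ ∫ x in orth n, B x := by
    rw [← Real.norm_eq_abs]
    apply norm_integral_le_of_norm_le iB
    filter_upwards [ae_restrict_mem measurable_orth] with x hx
    have h0 : ∀ i, 0 ≤ x i := by
      intro i
      unfold orth at hx
      rw [Set.mem_univ_pi] at hx
      exact (hx i).le
    have hprod : 0 ≤ ∏ i ∈ T, x i := Finset.prod_nonneg fun i _ => h0 i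
    have hg : 0 < gw x := Real.exp_pos _
    have hpb := point_b hμ x h0 lam hlam
    set G := (if ∀ i, x i ≤ 1 then ∏ e ∈ nonadj μ, (1 - x e.1 * x e.2) else 0) with hG
    set Y := (∑ i ∈ T, ∑ j ∈ T.erase i, x i * x j) / (2 * (m : ℝ) - 1) with hY
    have hind : {x : Fin n → ℝ | ∀ i, x i ≤ 1}.indicator F x = (∏ i ∈ T, x i) * (G * (1 + Y)) := by
      by_cases h1 : ∀ i, x i ≤ 1
      · rw [Set.indicator_of_mem (show x ∈ {x : Fin n → ℝ | ∀ i, x i ≤ 1} from h1), hG,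
          if_pos h1]
      · rw [Set.indicator_of_notMem (show x ∉ {x : Fin n → ℝ | ∀ i, x i ≤ 1} from h1), hG,
          if_neg h1]
        ring
    have hG0 : 0 ≤ G := by
      rw [hG]
      split_ifs with h1
      · apply Finset.prod_nonneg
        intro e _
        have := mul_le_one₀ (h1 e.1) (h0 e.2) (h1 e.2)
        linarith
      · exact le_rfl
    have hG1 : G ≤ Real.exp 6 * gw x := by
      rw [hG]
      split_ifs with h1
      · exact prod_le μ x h0 h1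
      · positivity
    have hYle : Y ≤ ∑ i ∈ T, x i ^ 2 := Y_le hT x
    have hY0 : 0 ≤ Y := by
      rw [hY]
      rcases Nat.eq_zero_or_pos m with h | h
      · have : T = ∅ := by rw [← Finset.card_eq_zero, hT, h]
        rw [this]
        simp
      · have h1 : (1 : ℝ) ≤ m := by exact_mod_cast h
        apply div_nonneg
        · exact Finset.sum_nonneg fun i _ => Finset.sum_nonneg fun j _ => mul_nonneg (h0 i) (h0 j)
        · linarith
    rw [hind]
    have e2 : (∏ i ∈ T, x i) * (G * (1 + Y)) - Real.exp (1 / 2) * wT T x =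
        (∏ i ∈ T, x i) * ((G - Real.exp (1 / 2) * gw x) + G * Y) := by
      unfold wT; ring
    rw [e2, norm_mul, Real.norm_of_nonneg hprod, Real.norm_eq_abs]
    have h5 : |(G - Real.exp (1 / 2) * gw x) + G * Y| ≤
        Real.exp 6 * gw x * (lam / 2 * ((1 / 2) * (∑ i ∈ Tᶜ, x i * x (μ i)) - 1 / 2) ^ 2 +
      (lam + 1) / 4 * ((∑ i, x i ^ 2) - 2) ^ 2 + 1 / lam +
      1 / 2 * (∑ i, x i ^ 4) + (n + 64) * ∑ i, x i ^ 6) +
        Real.exp 6 * gw x * ∑ i ∈ T, x i ^ 2 := by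
      refine (abs_add_le _ _).trans (add_le_add hpb ?_)
      rw [abs_of_nonneg (mul_nonneg hG0 hY0)]
      exact mul_le_mul hG1 hYle hY0 (by positivity)
    calc (∏ i ∈ T, x i) * |(G - Real.exp (1 / 2) * gw x) + G * Y|
        ≤ (∏ i ∈ T, x i) * _ := mul_le_mul_of_nonneg_left h5 hprod
      _ = B x := by
          rw [hB]
          unfold wT
          ring
  refine hbd.trans ?_
  rw [vB]
  apply mul_le_mul_of_nonneg_left _ (Real.exp_pos _).le
  rw [v0]
  have hl1 : 0 ≤ lam / 2 := by positivity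
  have hl2 : 0 ≤ (lam + 1) / 4 := by positivity
  have hn64 : (0 : ℝ) ≤ n + 64 := by positivity
  have t1 := mul_le_mul_of_nonneg_left v2 hl1
  have t2 := mul_le_mul_of_nonneg_left v1 hl2
  have t3 := mul_le_mul_of_nonneg_left v3 (show (0 : ℝ) ≤ 1 / 2 by norm_num)
  have t4 := mul_le_mul_of_nonneg_left v4 hn64
  calc _ ≤ lam / 2 * ((8*(m:ℝ)^2/(n:ℝ)^2 + 2/(n:ℝ)) / (dd (k+m) : ℝ)) +
        (lam + 1) / 4 * ((16*(m:ℝ)^2/(n:ℝ)^2 + 88/(n:ℝ)) / (dd (k+m) : ℝ)) +
        1 / lam * (1 / (dd (k + m) : ℝ)) + 1 / 2 * ((120/(n:ℝ)) / (dd (k+m) : ℝ)) +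
        (n + 64) * ((5040/(n:ℝ)^2) / (dd (k+m) : ℝ)) + (12*(m:ℝ)/(n:ℝ)) / (dd (k+m) : ℝ) := by
        linarith
    _ = _ := by ring

end Pool.Agent.Helper91_SR
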