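import Mathlib

/-!
# Random stable roommates: definitions

Used for MP_ef5893_pr.  A *stable partition* of a preference profile is a permutation `P` of the
people; person `i` has successor `P i` and predecessor `P⁻¹ i`.
-/

set_option autoImplicit false

namespace Pool.Agent.Helper91_SR

open Equiv Finset Classical

/-- people in parties of length at least three -/
noncomputable def longS {n : ℕ} (P : Perm (Fin n)) : Finset (Fin n) :=
  univ.filter fun i => P (P i) ≠ i

/-- pairs that are not adjacent in the partition `P` -/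
noncomputable def nonadj {n : ℕ} (P : Perm (Fin n)) : Finset (Fin n × Fin n) :=
  univ.filter fun e => e.1 < e.2 ∧ P e.1 ≠ e.2 ∧ P e.2 ≠ e.1

/-- all parties of `P` have even length (expressed by a proper two-colouring) -/
def EvenP {n : ℕ} (P : Perm (Fin n)) : Prop :=
  ∃ A : Finset (Fin n), ∀ i, (P i ∈ A ↔ i ∉ A)

/-- `P` is a stable partition of the profile `p` (`p i j` is the rank of `j` in the list of `i`) -/
def Stab {n : ℕ} (p : Fin n → Perm (Fin n)) (P : Perm (Fin n)) : Prop :=
  (∀ i, P (P i) ≠ i → p i (P i) < p i (P⁻¹ i)) ∧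
  (∀ i j, i ≠ j → ¬ (p i j < p i (P⁻¹ i) ∧ p j i < p j (P⁻¹ j)))

/-- the profile `p` has a stable perfect matching -/
def Solv {n : ℕ} (p : Fin n → Perm (Fin n)) : Prop :=
  ∃ m : Fin n → Fin n, (∀ x, m (m x) = x ∧ m x ≠ x) ∧
    ∀ u w : Fin n, u ≠ w → ¬ (p u w < p u (m u) ∧ p w u < p w (m w))

/-- `(-1)` to the number of parties of length at least four -/
noncomputable def wt {n : ℕ} (P : Perm (Fin n)) : ℤ :=
  (Perm.sign P : ℤ) * (-1) ^ ((n - (longS P).card) / 2)

/-- `σ` moves only points of `T`, all its cycles on `T` are even and of length at least four -/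
def LongOn {n : ℕ} (T : Finset (Fin n)) (σ : Perm (Fin n)) : Prop :=
  (∀ i, i ∉ T → σ i = i) ∧ (∀ i ∈ T, σ (σ i) ≠ i) ∧
    ∃ A : Finset (Fin n), ∀ i ∈ T, (σ i ∈ A ↔ i ∉ A)

/-- `μ` fixes `T` pointwise and is a fixed point free involution outside `T` -/
def MatchOn {n : ℕ} (T : Finset (Fin n)) (μ : Perm (Fin n)) : Prop :=
  (∀ i ∈ T, μ i = i) ∧ ∀ i, i ∉ T → μ (μ i) = i ∧ μ i ≠ i

/-- double factorials of odd numbers: `dd k = (2k-1)!!` -/
def dd : ℕ → ℕ
  | 0 => 1
  | k + 1 => (2 * k + 1) * dd k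

/-- `(2m)! γ_m` is the signed (`ε = -1`) or unsigned (`ε = 1`) number of permutations of a
`2m`-element set all whose cycles are even and of length at least four. -/
noncomputable def gam (ε : ℝ) : ℕ → ℝ
  | 0 => 1
  | 1 => 0
  | m + 2 => ((2 * (m : ℝ) + 2) * gam ε (m + 1) + ε * gam ε m) / (2 * (m : ℝ) + 4)

/-- the unit box -/
def box (n : ℕ) : Set (Fin n → ℝ) := Set.univ.pi fun _ => Set.Icc (0 : ℝ) 1

/-- the positive orthant -/
def orth (n : ℕ) : Set (Fin n → ℝ) := Set.univ.pi fun _ => Set.Ioi (0 : ℝ)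

/-- the Gaussian weight of the coordinate sum -/
noncomputable def gw {n : ℕ} (x : Fin n → ℝ) : ℝ := Real.exp (-(∑ i, x i) ^ 2 / 2)

end Pool.Agent.Helper91_SR
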