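import Mathlib
import Pool.Agent.Helper91_SR.Defs

/-!
# Random stable roommates: the probability that a permutation is a stable partition

(module B, helper50)
-/

set_option autoImplicit false

namespace Pool.Agent.Helper91_SR

open Equiv Finset Classical MeasureTheory

theorem apply_inv_self' {n : ℕ} (P : Perm (Fin n)) (i : Fin n) : P (P⁻¹ i) = i := by simp

theorem inv_apply_self' {n : ℕ} (P : Perm (Fin n)) (i : Fin n) : P⁻¹ (P i) = i := by simp

/-! ### One preference list -/

theorem row_swap {n : ℕ} {T : Finset (Fin n)} {k m : Fin n} (hk : k ∈ T) (hm : m ∈ T)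
    {q : Perm (Fin n)} (hq : ∀ j ∈ T, j ≠ m → q j < q m) :
    ∀ j ∈ T, j ≠ k → (q * swap k m) j < (q * swap k m) k := by
  intro j hj hjk
  rw [Perm.mul_apply, Perm.mul_apply, swap_apply_left]
  apply hq
  · by_cases h : j = m
    · subst h; rw [swap_apply_right]; exact hk
    · rw [swap_apply_of_ne_of_ne hjk h]; exact hj
  · intro h
    apply hjk
    have h2 := congrArg (swap k m) h
    rwa [swap_apply_self, swap_apply_right] at h2

theorem row_card_eq {n : ℕ} {T : Finset (Fin n)} {k m : Fin n} (hk : k ∈ T) (hm : m ∈ T) :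
    (univ.filter fun q : Perm (Fin n) => ∀ j ∈ T, j ≠ m → q j < q m).card =
    (univ.filter fun q : Perm (Fin n) => ∀ j ∈ T, j ≠ k → q j < q k).card := by
  apply Finset.card_nbij' (fun q => q * swap k m) (fun q => q * swap k m)
  · intro q hq
    have hq' : ∀ j ∈ T, j ≠ m → q j < q m := by simpa using hq
    have := row_swap hk hm hq'
    simpa using this
  · intro q hq
    have hq' : ∀ j ∈ T, j ≠ k → q j < q k := by simpa using hq
    have := row_swap hm hk hq'
    rw [swap_comm m k] at this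
    simpa using this
  · intro q _
    simp [mul_assoc]
  · intro q _
    simp [mul_assoc]

theorem row_count {n : ℕ} (S : Finset (Fin n)) (k : Fin n) (hk : k ∉ S) :
    ((univ.filter fun q : Perm (Fin n) => ∀ j ∈ S, q j < q k).card : ℝ) =
      (Fintype.card (Perm (Fin n)) : ℝ) * (1 / ((S.card : ℝ) + 1)) := by
  set T := insert k S with hT
  have hkT : k ∈ T := mem_insert_self _ _
  have h0 : (univ.filter fun q : Perm (Fin n) => ∀ j ∈ S, q j < q k) =
      (univ.filter fun q : Perm (Fin n) => ∀ j ∈ T, j ≠ k → q j < q k) := by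
    apply Finset.filter_congr
    intro q _
    constructor
    · intro h j hj hjk
      rw [hT, mem_insert] at hj
      rcases hj with hj | hj
      · exact absurd hj hjk
      · exact h j hj
    · intro h j hj
      apply h j (mem_insert_of_mem hj)
      rintro rfl
      exact hk hj
  have h1 : ∑ m ∈ T, (univ.filter fun q : Perm (Fin n) => ∀ j ∈ T, j ≠ m → q j < q m).card =
      Fintype.card (Perm (Fin n)) := by
    have h2 : ∀ m ∈ T, (univ.filter fun q : Perm (Fin n) => ∀ j ∈ T, j ≠ m → q j < q m).card =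
        ∑ q : Perm (Fin n), if (∀ j ∈ T, j ≠ m → q j < q m) then 1 else 0 := by
      intro m _
      rw [Finset.card_filter]
    rw [Finset.sum_congr rfl h2, Finset.sum_comm]
    rw [← Finset.card_univ, Finset.card_eq_sum_ones]
    apply Finset.sum_congr rfl
    intro q _
    obtain ⟨m, hm, hmax⟩ := Finset.exists_max_image T (fun j => q j) ⟨k, hkT⟩
    rw [Finset.sum_eq_single m]
    · rw [if_pos]
      intro j hj hjm
      exact lt_of_le_of_ne (hmax j hj) (fun h => hjm (q.injective h))
    · intro m' hm' hne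
      rw [if_neg]
      intro h
      have := h m hm hne.symm
      exact absurd (hmax m' hm') (not_le.2 this)
    · intro h
      exact absurd hm h
  have h3 : (T.card : ℕ) * (univ.filter fun q : Perm (Fin n) => ∀ j ∈ S, q j < q k).card =
      Fintype.card (Perm (Fin n)) := by
    rw [h0, ← h1, Finset.sum_congr rfl (fun m hm => row_card_eq hkT hm), Finset.sum_const,
      smul_eq_mul]
  have h4 : T.card = S.card + 1 := by rw [hT, card_insert_of_notMem hk]
  rw [h4] at h3
  rw [← h3]
  push_cast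
  have : ((S.card : ℝ) + 1) ≠ 0 := by positivity
  field_simp

/-! ### Expansion over sets of non-adjacent pairs -/

/-- the people whom `i` should prefer to his predecessor, for a set `E` of pairs -/
noncomputable def rowS {n : ℕ} (P : Perm (Fin n)) (E : Finset (Fin n × Fin n)) (i : Fin n) :
    Finset (Fin n) :=
  univ.filter fun j => (i ∈ longS P ∧ P i = j) ∨ (i, j) ∈ E ∨ (j, i) ∈ E

theorem prod_rows {n : ℕ} (Q : Finset (Fin n × Fin n)) (w : Fin n → Fin n → ℝ) :
    ∏ q ∈ Q, w q.1 q.2 = ∏ i, ∏ j ∈ univ.filter (fun j => (i, j) ∈ Q), w i j := by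
  have h : ∏ q ∈ Q, w q.1 q.2 = ∏ q : Fin n × Fin n, if q ∈ Q then w q.1 q.2 else 1 := by
    rw [Finset.prod_ite_mem, Finset.univ_inter]
  rw [h, Fintype.prod_prod_type]
  apply Finset.prod_congr rfl
  intro i _
  rw [Finset.prod_filter]

theorem prod_rowS {n : ℕ} (P : Perm (Fin n)) (E : Finset (Fin n × Fin n)) (hE : E ⊆ nonadj P)
    (w : Fin n → Fin n → ℝ) :
    (∏ i ∈ longS P, w i (P i)) * ∏ e ∈ E, (w e.1 e.2 * w e.2 e.1) =
      ∏ i, ∏ j ∈ rowS P E i, w i j := by
  set Q1 : Finset (Fin n × Fin n) := (longS P).image fun i => (i, P i) with hQ1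
  set Q2 : Finset (Fin n × Fin n) := E.image Prod.swap with hQ2
  have e1 : ∏ q ∈ Q1, w q.1 q.2 = ∏ i ∈ longS P, w i (P i) := by
    rw [hQ1, Finset.prod_image]
    intro a _ b _ h
    exact (Prod.mk.inj h).1
  have e2 : ∏ q ∈ Q2, w q.1 q.2 = ∏ e ∈ E, w e.2 e.1 := by
    rw [hQ2, Finset.prod_image]
    · rfl
    · intro a _ b _ h
      exact Prod.swap_injective h
  have hE' : ∀ e ∈ E, e.1 < e.2 ∧ P e.1 ≠ e.2 ∧ P e.2 ≠ e.1 := by
    intro e he
    have := hE he
    simpa [nonadj] using this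
  have d12 : Disjoint Q1 (E ∪ Q2) := by
    rw [Finset.disjoint_left]
    intro q hq1 hq2
    rw [hQ1, mem_image] at hq1
    obtain ⟨i, _, rfl⟩ := hq1
    rw [mem_union] at hq2
    rcases hq2 with h | h
    · exact (hE' _ h).2.1 rfl
    · rw [hQ2, mem_image] at h
      obtain ⟨e, he, h⟩ := h
      have h1 : e.2 = i := (Prod.mk.inj h).1
      have h2 : e.1 = P i := (Prod.mk.inj h).2
      exact (hE' _ he).2.2 (by rw [h1, h2])
  have d2 : Disjoint E Q2 := by
    rw [Finset.disjoint_left]
    intro q hq1 hq2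
    rw [hQ2, mem_image] at hq2
    obtain ⟨e, he, rfl⟩ := hq2
    have h1 := (hE' _ he).1
    have h2 := (hE' _ hq1).1
    exact absurd h1 (not_lt.2 h2.le)
  have h3 : (∏ i ∈ longS P, w i (P i)) * ∏ e ∈ E, (w e.1 e.2 * w e.2 e.1) =
      ∏ q ∈ Q1 ∪ (E ∪ Q2), w q.1 q.2 := by
    rw [Finset.prod_union d12, Finset.prod_union d2, e1, e2, Finset.prod_mul_distrib]
  rw [h3, prod_rows]
  apply Finset.prod_congr rfl
  intro i _
  apply Finset.prod_congr _ (fun _ _ => rfl)
  unfold rowS
  apply Finset.filter_congr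
  intro j _
  rw [mem_union, mem_union, hQ1, hQ2, mem_image, mem_image]
  constructor
  · rintro (⟨a, ha, h⟩ | h | ⟨e, he, h⟩)
    · obtain ⟨h1, h2⟩ := Prod.mk.inj h
      subst h1
      exact Or.inl ⟨ha, h2⟩
    · exact Or.inr (Or.inl h)
    · have h1 : e.2 = i := (Prod.mk.inj h).1
      have h2 : e.1 = j := (Prod.mk.inj h).2
      refine Or.inr (Or.inr ?_)
      rw [← h1, ← h2]
      exact he
  · rintro (⟨ha, h⟩ | h | h)
    · exact Or.inl ⟨i, ha, by rw [h]⟩
    · exact Or.inr (Or.inl h)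
    · exact Or.inr (Or.inr ⟨(j, i), h, rfl⟩)

theorem expand {n : ℕ} (P : Perm (Fin n)) (w : Fin n → Fin n → ℝ) :
    (∏ i ∈ longS P, w i (P i)) * ∏ e ∈ nonadj P, (1 - w e.1 e.2 * w e.2 e.1) =
      ∑ E ∈ (nonadj P).powerset, (-1 : ℝ) ^ E.card * ∏ i, ∏ j ∈ rowS P E i, w i j := by
  have h : ∏ e ∈ nonadj P, (1 - w e.1 e.2 * w e.2 e.1) =
      ∑ E ∈ (nonadj P).powerset, (-1 : ℝ) ^ E.card * ∏ e ∈ E, (w e.1 e.2 * w e.2 e.1) := by
    have h1 : ∏ e ∈ nonadj P, (1 - w e.1 e.2 * w e.2 e.1) =
        ∏ e ∈ nonadj P, (1 + (-1) * (w e.1 e.2 * w e.2 e.1)) := by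
      apply Finset.prod_congr rfl
      intro e _
      ring
    rw [h1, Finset.prod_one_add]
    apply Finset.sum_congr rfl
    intro E _
    rw [Finset.prod_mul_distrib, Finset.prod_const]
  rw [h, Finset.mul_sum]
  apply Finset.sum_congr rfl
  intro E hE
  rw [mem_powerset] at hE
  rw [← prod_rowS P E hE w]
  ring

theorem inv_notMem_rowS {n : ℕ} (P : Perm (Fin n)) (E : Finset (Fin n × Fin n))
    (hE : E ⊆ nonadj P) (i : Fin n) : P⁻¹ i ∉ rowS P E i := by
  intro h
  have hE' : ∀ e ∈ E, e.1 < e.2 ∧ P e.1 ≠ e.2 ∧ P e.2 ≠ e.1 := by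
    intro e he
    have := hE he
    simpa [nonadj] using this
  unfold rowS at h
  rw [mem_filter] at h
  rcases h.2 with ⟨h1, h2⟩ | h | h
  · have h3 : P (P i) ≠ i := by simpa [longS] using h1
    apply h3
    rw [h2]
    exact apply_inv_self' P i
  · exact (hE' _ h).2.2 (apply_inv_self' P i)
  · exact (hE' _ h).2.1 (apply_inv_self' P i)

/-! ### The number of profiles -/

/-- the indicator that `i` prefers `j` to his predecessor -/
noncomputable def lik {n : ℕ} (P : Perm (Fin n)) (p : Fin n → Perm (Fin n)) (i j : Fin n) : ℝ :=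
  if p i j < p i (P⁻¹ i) then 1 else 0

theorem stab_indicator {n : ℕ} (P : Perm (Fin n)) (p : Fin n → Perm (Fin n)) :
    (if Stab p P then (1 : ℝ) else 0) =
      (∏ i ∈ longS P, lik P p i (P i)) *
        ∏ e ∈ nonadj P, (1 - lik P p e.1 e.2 * lik P p e.2 e.1) := by
  by_cases h : Stab p P
  · rw [if_pos h]
    obtain ⟨h1, h2⟩ := h
    have e1 : ∏ i ∈ longS P, lik P p i (P i) = 1 := by
      apply Finset.prod_eq_one
      intro i hi
      unfold lik
      rw [if_pos]
      apply h1
      simpa [longS] using hi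
    have e2 : ∏ e ∈ nonadj P, (1 - lik P p e.1 e.2 * lik P p e.2 e.1) = 1 := by
      apply Finset.prod_eq_one
      intro e he
      have he' : e.1 < e.2 ∧ P e.1 ≠ e.2 ∧ P e.2 ≠ e.1 := by simpa [nonadj] using he
      have h3 := h2 e.1 e.2 he'.1.ne
      unfold lik
      by_cases h4 : p e.1 e.2 < p e.1 (P⁻¹ e.1)
      · by_cases h5 : p e.2 e.1 < p e.2 (P⁻¹ e.2)
        · exact absurd ⟨h4, h5⟩ h3
        · rw [if_neg h5]; ring
      · rw [if_neg h4]; ring
    rw [e1, e2, mul_one]
  · rw [if_neg h]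
    symm
    by_cases h1 : ∀ i, P (P i) ≠ i → p i (P i) < p i (P⁻¹ i)
    · have h2 : ¬ ∀ i j, i ≠ j → ¬ (p i j < p i (P⁻¹ i) ∧ p j i < p j (P⁻¹ j)) :=
        fun h2 => h ⟨h1, h2⟩
      push Not at h2
      obtain ⟨i, j, hij, h3, h4⟩ := h2
      have key : ∀ a b : Fin n, a < b → p a b < p a (P⁻¹ a) → p b a < p b (P⁻¹ b) →
          ∏ e ∈ nonadj P, (1 - lik P p e.1 e.2 * lik P p e.2 e.1) = 0 := by
        intro a b hab h5 h6
        have hmem : (a, b) ∈ nonadj P := by
          have hh1 : P a ≠ b := by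
            intro h7
            have : P⁻¹ b = a := by rw [← h7]; exact inv_apply_self' P a
            rw [this] at h6
            exact lt_irrefl _ h6
          have hh2 : P b ≠ a := by
            intro h7
            have : P⁻¹ a = b := by rw [← h7]; exact inv_apply_self' P b
            rw [this] at h5
            exact lt_irrefl _ h5
          simp only [nonadj, mem_filter, mem_univ, true_and]
          exact ⟨hab, hh1, hh2⟩
        apply Finset.prod_eq_zero hmem
        unfold lik
        simp only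
        rw [if_pos h5, if_pos h6]
        ring
      rcases lt_or_gt_of_ne hij with h5 | h5
      · rw [key i j h5 h3 h4, mul_zero]
      · rw [key j i h5 h4 h3, mul_zero]
    · push Not at h1
      obtain ⟨i, hi, h2⟩ := h1
      have hmem : i ∈ longS P := by simpa [longS] using hi
      rw [Finset.prod_eq_zero hmem, zero_mul]
      unfold lik
      rw [if_neg (not_lt.2 h2)]

theorem sum_rows {n : ℕ} (P : Perm (Fin n)) (E : Finset (Fin n × Fin n)) (hE : E ⊆ nonadj P) :
    ∑ p : Fin n → Perm (Fin n), ∏ i, ∏ j ∈ rowS P E i, lik P p i j =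
      (Fintype.card (Fin n → Perm (Fin n)) : ℝ) * ∏ i, (1 / (((rowS P E i).card : ℝ) + 1)) := by
  have h1 : ∀ i, ∑ q : Perm (Fin n), ∏ j ∈ rowS P E i, (if q j < q (P⁻¹ i) then (1 : ℝ) else 0) =
      (Fintype.card (Perm (Fin n)) : ℝ) * (1 / (((rowS P E i).card : ℝ) + 1)) := by
    intro i
    rw [← row_count (rowS P E i) (P⁻¹ i) (inv_notMem_rowS P E hE i), Finset.card_filter]
    push_cast
    apply Finset.sum_congr rfl
    intro q _
    by_cases h : ∀ j ∈ rowS P E i, q j < q (P⁻¹ i)
    · rw [if_pos h]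
      apply Finset.prod_eq_one
      intro j hj
      rw [if_pos (h j hj)]
    · rw [if_neg h]
      push Not at h
      obtain ⟨j, hj, hlt⟩ := h
      apply Finset.prod_eq_zero hj
      rw [if_neg (not_lt.2 hlt)]
  have h2 : ∑ p : Fin n → Perm (Fin n), ∏ i, ∏ j ∈ rowS P E i, lik P p i j =
      ∏ i, ∑ q : Perm (Fin n), ∏ j ∈ rowS P E i, (if q j < q (P⁻¹ i) then (1 : ℝ) else 0) := by
    rw [Finset.prod_univ_sum, Fintype.piFinset_univ]
    rfl
  rw [h2, Finset.prod_congr rfl (fun i _ => h1 i), Finset.prod_mul_distrib, Finset.prod_const]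
  congr 1
  rw [Fintype.card_fun, Finset.card_univ]
  push_cast
  rfl

/-! ### The integral -/

theorem integral_rows {n : ℕ} (k : Fin n → ℕ) :
    ∫ x in box n, ∏ i, x i ^ k i = ∏ i, (1 / ((k i : ℝ) + 1)) := by
  unfold box
  rw [MeasureTheory.volume_pi, Measure.restrict_pi_pi]
  rw [MeasureTheory.integral_fintype_prod_eq_prod (𝕜 := ℝ) (f := fun i t => t ^ k i)]
  apply Finset.prod_congr rfl
  intro i _
  rw [MeasureTheory.integral_Icc_eq_integral_Ioc, ← intervalIntegral.integral_of_le zero_le_one,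
    integral_pow]
  simp

theorem integrable_rows {n : ℕ} (k : Fin n → ℕ) :
    IntegrableOn (fun x : Fin n → ℝ => ∏ i, x i ^ k i) (box n) := by
  apply ContinuousOn.integrableOn_compact
  · exact isCompact_univ_pi fun _ => isCompact_Icc
  · apply Continuous.continuousOn
    fun_prop

theorem prob_stab {n : ℕ} (P : Perm (Fin n)) (_hP : ∀ i, P i ≠ i) :
    ((univ.filter (fun p : Fin n → Perm (Fin n) => Stab p P)).card : ℝ) /
        (Fintype.card (Fin n → Perm (Fin n)) : ℝ) =
      ∫ x in box n, (∏ i ∈ longS P, x i) * ∏ e ∈ nonadj P, (1 - x e.1 * x e.2) := by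
  have hN : (Fintype.card (Fin n → Perm (Fin n)) : ℝ) ≠ 0 := by
    have : 0 < Fintype.card (Fin n → Perm (Fin n)) := Fintype.card_pos
    positivity
  have hL : ((univ.filter (fun p : Fin n → Perm (Fin n) => Stab p P)).card : ℝ) =
      (Fintype.card (Fin n → Perm (Fin n)) : ℝ) * ∑ E ∈ (nonadj P).powerset,
        (-1 : ℝ) ^ E.card * ∏ i, (1 / (((rowS P E i).card : ℝ) + 1)) := by
    rw [Finset.card_filter]
    push_cast
    have h1 : ∀ p : Fin n → Perm (Fin n), (if Stab p P then (1 : ℝ) else 0) =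
        ∑ E ∈ (nonadj P).powerset, (-1 : ℝ) ^ E.card * ∏ i, ∏ j ∈ rowS P E i, lik P p i j := by
      intro p
      rw [stab_indicator, expand P (lik P p)]
    rw [Finset.sum_congr rfl (fun p _ => h1 p), Finset.sum_comm, Finset.mul_sum]
    apply Finset.sum_congr rfl
    intro E hE
    rw [← Finset.mul_sum, sum_rows P E (mem_powerset.1 hE)]
    ring
  have hR : ∫ x in box n, (∏ i ∈ longS P, x i) * ∏ e ∈ nonadj P, (1 - x e.1 * x e.2) =
      ∑ E ∈ (nonadj P).powerset,
        (-1 : ℝ) ^ E.card * ∏ i, (1 / (((rowS P E i).card : ℝ) + 1)) := by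
    have h1 : ∀ x : Fin n → ℝ, (∏ i ∈ longS P, x i) * ∏ e ∈ nonadj P, (1 - x e.1 * x e.2) =
        ∑ E ∈ (nonadj P).powerset, (-1 : ℝ) ^ E.card * ∏ i, x i ^ (rowS P E i).card := by
      intro x
      rw [expand P (fun i _ => x i)]
      apply Finset.sum_congr rfl
      intro E _
      congr 1
      apply Finset.prod_congr rfl
      intro i _
      rw [Finset.prod_const]
    simp_rw [h1]
    rw [integral_finsetSum]
    · apply Finset.sum_congr rfl
      intro E _
      rw [integral_const_mul, integral_rows]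
    · intro E _
      exact (integrable_rows _).const_mul _
  rw [hL, hR]
  field_simp

end Pool.Agent.Helper91_SR
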