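import Pool.Agent.Helper91_SR.Defs

/-!
# Splitting an even permutation partition into its long part and its matching part

Used for MP_ef5893_pr (module C3).
-/

set_option autoImplicit false

namespace Pool.Agent.Helper91_SR

open Equiv Finset Classical MeasureTheory

theorem MatchOn.map_notMem {n : ℕ} {T : Finset (Fin n)} {μ : Perm (Fin n)} (h : MatchOn T μ)
    {x : Fin n} (hx : x ∉ T) : μ x ∉ T := by
  intro h1
  have h2 := h.1 (μ x) h1
  rw [(h.2 x hx).1] at h2
  exact (h.2 x hx).2 h2.symm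

theorem LongOn.map_mem' {n : ℕ} {T : Finset (Fin n)} {σ : Perm (Fin n)} (h : LongOn T σ)
    {x : Fin n} (hx : x ∈ T) : σ x ∈ T := by
  by_contra h1
  have h2 := h.1 (σ x) h1
  exact h.2.1 x hx (by rw [h2]; exact σ.injective h2)

theorem mul_apply_mem {n : ℕ} (T : Finset (Fin n)) (σ μ : Perm (Fin n)) (hσ : LongOn T σ)
    (hμ : MatchOn T μ) (i : Fin n) : (σ * μ) i = if i ∈ T then σ i else μ i := by
  rw [Perm.mul_apply]
  split_ifs with h
  · rw [hμ.1 i h]
  · exact hσ.1 _ (hμ.map_notMem h)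

theorem longS_mul {n : ℕ} (T : Finset (Fin n)) (σ μ : Perm (Fin n)) (hσ : LongOn T σ)
    (hμ : MatchOn T μ) : longS (σ * μ) = T := by
  ext i
  simp only [longS, mem_filter, mem_univ, true_and]
  by_cases h : i ∈ T
  · have h1 : (σ * μ) i = σ i := by rw [mul_apply_mem T σ μ hσ hμ, if_pos h]
    have h2 : (σ * μ) (σ i) = σ (σ i) := by
      rw [mul_apply_mem T σ μ hσ hμ, if_pos (hσ.map_mem' h)]
    rw [h1, h2]
    simp only [h, iff_true]
    exact hσ.2.1 i h
  · have h1 : (σ * μ) i = μ i := by rw [mul_apply_mem T σ μ hσ hμ, if_neg h]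
    have h2 : (σ * μ) (μ i) = μ (μ i) := by
      rw [mul_apply_mem T σ μ hσ hμ, if_neg (hμ.map_notMem h)]
    rw [h1, h2]
    simp only [h, iff_false, not_not]
    exact (hμ.2 i h).1

theorem evenP_mul {n : ℕ} (T : Finset (Fin n)) (σ μ : Perm (Fin n)) (hσ : LongOn T σ)
    (hμ : MatchOn T μ) : EvenP (σ * μ) := by
  obtain ⟨A, hA⟩ := hσ.2.2
  refine ⟨univ.filter (fun i => (i ∈ T ∧ i ∈ A) ∨ (i ∉ T ∧ i < μ i)), ?_⟩
  intro i
  rw [mul_apply_mem T σ μ hσ hμ]
  simp only [mem_filter, mem_univ, true_and]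
  by_cases h : i ∈ T
  · have h1 := hσ.map_mem' h
    have h2 := hA i h
    simp [h, h1, h2]
  · have h1 := hμ.map_notMem h
    have h2 := hμ.2 i h
    simp only [h, if_false, h1, false_and, false_or, not_false_eq_true, true_and, h2.1,
      not_lt]
    constructor
    · exact fun h3 => h3.le
    · exact fun h3 => lt_of_le_of_ne h3 h2.2

/-- the decomposition of an even partition -/
theorem exists_split {n : ℕ} (P : Perm (Fin n)) (hP : EvenP P) :
    ∃ σ μ : Perm (Fin n), LongOn (longS P) σ ∧ MatchOn (longS P) μ ∧ σ * μ = P := by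
  obtain ⟨A, hA⟩ := hP
  have hne : ∀ i, P i ≠ i := by
    intro i h
    have := hA i
    rw [h] at this
    tauto
  have hmem : ∀ i, i ∈ longS P ↔ P (P i) ≠ i := by
    intro i; simp [longS]
  have hT : ∀ i, P i ∈ longS P ↔ i ∈ longS P := by
    intro i
    rw [hmem, hmem]
    constructor
    · intro h h1; exact h (by rw [h1])
    · intro h h1; exact h (P.injective h1)
  set σ : Perm (Fin n) := Perm.ofSubtype (Perm.subtypePerm P (p := fun i => i ∈ longS P) hT)
    with hσ
  have hσ1 : ∀ i, i ∈ longS P → σ i = P i := by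
    intro i hi
    rw [hσ, Perm.ofSubtype_apply_of_mem _ hi]; rfl
  have hσ2 : ∀ i, i ∉ longS P → σ i = i := by
    intro i hi
    rw [hσ, Perm.ofSubtype_apply_of_not_mem _ hi]
  have hμ1 : ∀ i, i ∈ longS P → (σ⁻¹ * P) i = i := by
    intro i hi
    rw [Perm.mul_apply, Perm.inv_eq_iff_eq, hσ1 i hi]
  have hμ2 : ∀ i, i ∉ longS P → (σ⁻¹ * P) i = P i := by
    intro i hi
    rw [Perm.mul_apply, Perm.inv_eq_iff_eq, hσ2 _ (by rw [hT]; exact hi)]
  refine ⟨σ, σ⁻¹ * P, ⟨hσ2, ?_, A, ?_⟩, ⟨hμ1, ?_⟩, by group⟩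
  · intro i hi
    rw [hσ1 i hi, hσ1 _ ((hT i).2 hi)]
    exact (hmem i).1 hi
  · intro i hi
    rw [hσ1 i hi]; exact hA i
  · intro i hi
    have hi2 : P i ∉ longS P := by rw [hT]; exact hi
    rw [hμ2 i hi, hμ2 _ hi2]
    refine ⟨?_, hne i⟩
    by_contra h
    exact hi ((hmem i).2 h)

theorem sum_even {n : ℕ} (f : Perm (Fin n) → ℝ) :
    ∑ P ∈ univ.filter (fun P : Perm (Fin n) => EvenP P), f P =
      ∑ T : Finset (Fin n), ∑ μ ∈ univ.filter (fun μ : Perm (Fin n) => MatchOn T μ),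
        ∑ σ ∈ univ.filter (fun σ : Perm (Fin n) => LongOn T σ), f (σ * μ) := by
  rw [← Finset.sum_fiberwise_of_maps_to (t := (univ : Finset (Finset (Fin n))))
    (g := fun P : Perm (Fin n) => longS P) (fun _ _ => mem_univ _)]
  apply Finset.sum_congr rfl
  intro T _
  rw [← Finset.sum_product']
  symm
  refine Finset.sum_bij (fun (x : Perm (Fin n) × Perm (Fin n)) _ => x.2 * x.1) ?_ ?_ ?_ ?_
  · rintro ⟨μ, σ⟩ h
    simp only [mem_product, mem_filter, mem_univ, true_and] at h ⊢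
    exact ⟨evenP_mul T σ μ h.2 h.1, longS_mul T σ μ h.2 h.1⟩
  · rintro ⟨μ, σ⟩ h ⟨μ', σ'⟩ h' heq
    simp only [mem_product, mem_filter, mem_univ, true_and] at h h'
    simp only at heq
    have key : ∀ i, (if i ∈ T then σ i else μ i) = (if i ∈ T then σ' i else μ' i) := by
      intro i
      rw [← mul_apply_mem T σ μ h.2 h.1, ← mul_apply_mem T σ' μ' h'.2 h'.1, heq]
    have e1 : μ = μ' := by
      apply Equiv.ext
      intro i
      by_cases hi : i ∈ T
      · rw [h.1.1 i hi, h'.1.1 i hi]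
      · have := key i
        rwa [if_neg hi, if_neg hi] at this
    have e2 : σ = σ' := by
      apply Equiv.ext
      intro i
      by_cases hi : i ∈ T
      · have := key i
        rwa [if_pos hi, if_pos hi] at this
      · rw [h.2.1 i hi, h'.2.1 i hi]
    rw [e1, e2]
  · intro P hP
    simp only [mem_filter, mem_univ, true_and] at hP
    obtain ⟨hE, hL⟩ := hP
    obtain ⟨σ, μ, h1, h2, h3⟩ := exists_split P hE
    rw [hL] at h1 h2
    refine ⟨(μ, σ), ?_, h3⟩
    simp only [mem_product, mem_filter, mem_univ, true_and]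
    exact ⟨h2, h1⟩
  · rintro ⟨μ, σ⟩ _
    rfl

/-- sign of a perfect matching of the complement of `T` -/
theorem sign_match_aux {n : ℕ} (T : Finset (Fin n)) (μ : Perm (Fin n)) (h : MatchOn T μ) :
    T.card ≤ n ∧ Even (n - T.card) ∧ (Perm.sign μ : ℤ) = (-1) ^ ((n - T.card) / 2) := by
  have hle : T.card ≤ n := by simpa using Finset.card_le_univ T
  have hsq : μ ^ 2 = 1 := by
    ext i
    rw [pow_two, Perm.mul_apply]
    by_cases hi : i ∈ T
    · rw [h.1 i hi, h.1 i hi]; rfl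
    · rw [(h.2 i hi).1]; rfl
  have hsupp : μ.support = Tᶜ := by
    ext i
    rw [Perm.mem_support, mem_compl]
    by_cases hi : i ∈ T
    · simp [hi, h.1 i hi]
    · simp [hi, (h.2 i hi).2]
  haveI : Fact (Nat.Prime 2) := ⟨Nat.prime_two⟩
  have hct : ∀ c ∈ μ.cycleType, c = 2 := Perm.pow_prime_eq_one_iff.1 hsq
  have hrep : μ.cycleType = Multiset.replicate (Multiset.card μ.cycleType) 2 :=
    Multiset.eq_replicate_card.2 hct
  have hsum : μ.cycleType.sum = Multiset.card μ.cycleType * 2 := by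
    conv_lhs => rw [hrep]
    simp
  have hcard : n - T.card = Multiset.card μ.cycleType * 2 := by
    rw [← hsum, Perm.sum_cycleType, hsupp, Finset.card_compl, Fintype.card_fin]
  refine ⟨hle, ?_, ?_⟩
  · rw [hcard]; exact ⟨Multiset.card μ.cycleType, by ring⟩
  · rw [Perm.sign_of_cycleType, hsum, hcard, Nat.mul_div_cancel _ (by norm_num)]
    push_cast
    rw [pow_add, mul_comm (Multiset.card μ.cycleType) 2, pow_mul]
    simp

theorem wt_mul {n : ℕ} (T : Finset (Fin n)) (σ μ : Perm (Fin n)) (hσ : LongOn T σ)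
    (hμ : MatchOn T μ) : wt (σ * μ) = (Perm.sign σ : ℤ) := by
  obtain ⟨_, _, h⟩ := sign_match_aux T μ hμ
  unfold wt
  rw [longS_mul T σ μ hσ hμ, Perm.sign_mul, Units.val_mul, h, mul_assoc, ← pow_add,
    ← two_mul, pow_mul]
  simp

end Pool.Agent.Helper91_SR
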