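import Pool.Agent.Helper91_SR.PartA3
import Pool.Agent.Helper91_SR.ProbB
import Pool.Agent.Helper91_SR.CountC
import Pool.Agent.Helper91_SR.SplitC
import Pool.Agent.Helper91_SR.IntD
set_option autoImplicit false
namespace Pool.Agent.Helper91_SR
open Equiv Finset Classical MeasureTheory

/-- the probability that a uniformly random profile is solvable -/
noncomputable def PP (n : ℕ) : ℝ :=
  ((univ.filter (fun p : Fin n → Perm (Fin n) => Solv p)).card : ℝ) /
    (Fintype.card (Fin n → Perm (Fin n)) : ℝ)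

variable {n : ℕ}

/-- the probability integral of a partition -/
noncomputable def II (P : Perm (Fin n)) : ℝ :=
  ∫ x in box n, (∏ i ∈ longS P, x i) * ∏ e ∈ nonadj P, (1 - x e.1 * x e.2)

theorem PP_eq : PP n = ∑ P ∈ univ.filter (fun P : Perm (Fin n) => EvenP P),
    ((wt P : ℤ) : ℝ) * II P := by
  have h1 : ((univ.filter (fun p : Fin n → Perm (Fin n) => Solv p)).card : ℝ) =
      ∑ p : Fin n → Perm (Fin n), ∑ P ∈ univ.filter (fun P : Perm (Fin n) => EvenP P),
        (if Stab p P then ((wt P : ℤ) : ℝ) else 0) := by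
    rw [Finset.card_filter]
    push_cast
    apply Finset.sum_congr rfl
    intro p _
    have h2 := sum_wt p
    have h3 : (∑ P ∈ univ.filter (fun P : Perm (Fin n) => EvenP P ∧ Stab p P), ((wt P : ℤ) : ℝ)) =
        if Solv p then 1 else 0 := by
      exact_mod_cast h2
    rw [← h3, ← Finset.filter_filter, Finset.sum_filter (fun P => Stab p P)]
  unfold PP
  rw [h1, Finset.sum_comm, Finset.sum_div]
  apply Finset.sum_congr rfl
  intro P hP
  rw [Finset.mem_filter] at hP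
  have h4 := prob_stab P (even_ne hP.2)
  unfold II
  rw [← h4]
  rw [← Finset.sum_filter, Finset.sum_const, nsmul_eq_mul]
  ring

/-- the symmetrised first order integral -/
noncomputable def AA (T : Finset (Fin n)) (m : ℕ) (μ : Perm (Fin n)) : ℝ :=
  ∫ x in box n, (∏ i ∈ T, x i) * ((∏ e ∈ nonadj μ, (1 - x e.1 * x e.2)) *
        (1 + (∑ i ∈ T, ∑ j ∈ T.erase i, x i * x j) / (2 * (m : ℝ) - 1)))

noncomputable def JJ (T : Finset (Fin n)) (μ σ : Perm (Fin n)) : ℝ :=
  ∫ x in box n, (∏ i ∈ T, x i) * ((∏ e ∈ nonadj μ, (1 - x e.1 * x e.2)) *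
        (1 + ∑ i ∈ T, x i * x (σ i)))

theorem sum_JJ {T : Finset (Fin n)} {m : ℕ} (hT : T.card = 2 * m) (μ : Perm (Fin n)) :
    ∑ σ ∈ univ.filter (fun σ : Perm (Fin n) => LongOn T σ), ((Perm.sign σ : ℤ) : ℝ) * JJ T μ σ =
      ((Nat.factorial (2 * m) : ℝ) * gam (-1) m) * AA T m μ := by
  have hg := sum_sign_long T m hT
  have hpt : ∀ x : Fin n → ℝ,
      ∑ σ ∈ univ.filter (fun σ : Perm (Fin n) => LongOn T σ), ((Perm.sign σ : ℤ) : ℝ) *
        (1 + ∑ i ∈ T, x i * x (σ i)) =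
      ((Nat.factorial (2 * m) : ℝ) * gam (-1) m) *
        (1 + (∑ i ∈ T, ∑ j ∈ T.erase i, x i * x j) / (2 * (m : ℝ) - 1)) := by
    intro x
    simp only [mul_add, mul_one, Finset.sum_add_distrib]
    rw [hg]
    congr 1
    rcases Nat.eq_zero_or_pos m with h | h
    · have : T = ∅ := by rw [← Finset.card_eq_zero, hT, h]
      subst this
      simp
    · have hm1 : (1 : ℝ) ≤ m := by exact_mod_cast h
      have hne : (2 * (m : ℝ) - 1) ≠ 0 := by linarith
      simp only [Finset.mul_sum]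
      rw [Finset.sum_comm, Finset.sum_div, Finset.mul_sum]
      apply Finset.sum_congr rfl
      intro a ha
      have h1 : ∀ σ ∈ univ.filter (fun σ : Perm (Fin n) => LongOn T σ),
          ((Perm.sign σ : ℤ) : ℝ) * (x a * x (σ a)) =
          ∑ b ∈ T.erase a, (if σ a = b then ((Perm.sign σ : ℤ) : ℝ) * (x a * x b) else 0) := by
        intro σ hσ
        rw [Finset.mem_filter] at hσ
        rw [Finset.sum_ite_eq, if_pos]
        rw [Finset.mem_erase]
        exact ⟨long_ne hσ.2 ha, long_mem hσ.2 ha⟩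
      rw [Finset.sum_congr rfl h1, Finset.sum_comm, Finset.sum_div, Finset.mul_sum]
      apply Finset.sum_congr rfl
      intro b hb
      rw [Finset.mem_erase] at hb
      have h2 := sum_sign_long_edge T m hT a b ha hb.2 hb.1.symm
      rw [← Finset.sum_filter, Finset.filter_filter, ← Finset.sum_mul]
      rw [← h2]
      field_simp
  unfold JJ AA
  have hc : ∀ σ : Perm (Fin n), Continuous fun x : Fin n → ℝ =>
      (∏ i ∈ T, x i) * ((∏ e ∈ nonadj μ, (1 - x e.1 * x e.2)) *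
        (1 + ∑ i ∈ T, x i * x (σ i))) := by
    intro σ; fun_prop
  simp only [← integral_const_mul]
  rw [← integral_finsetSum]
  · apply integral_congr_ae
    filter_upwards with x
    have h3 : ∀ σ : Perm (Fin n), ((Perm.sign σ : ℤ) : ℝ) * ((∏ i ∈ T, x i) *
        ((∏ e ∈ nonadj μ, (1 - x e.1 * x e.2)) * (1 + ∑ i ∈ T, x i * x (σ i)))) =
        ((∏ i ∈ T, x i) * (∏ e ∈ nonadj μ, (1 - x e.1 * x e.2))) *
          (((Perm.sign σ : ℤ) : ℝ) * (1 + ∑ i ∈ T, x i * x (σ i))) := by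
      intro σ; ring
    simp only [h3]
    rw [← Finset.mul_sum, hpt x]
    ring
  · intro σ _
    exact (box_integrable (hc σ)).const_mul _

/-- error of the second order -/
noncomputable def Ea (n m : ℕ) : ℝ := Real.exp 6 * (312 * (m : ℝ) ^ 2 / (n : ℝ) ^ 2)

/-- error of the Gaussian comparison -/
noncomputable def Eb (n m : ℕ) : ℝ :=
  Real.exp 6 * (Real.sqrt n / 2 * (8 * (m : ℝ) ^ 2 / (n : ℝ) ^ 2 + 2 / (n : ℝ)) +
      (Real.sqrt n + 1) / 4 * (16 * (m : ℝ) ^ 2 / (n : ℝ) ^ 2 + 88 / (n : ℝ)) + 1 / Real.sqrt n +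
      1 / 2 * (120 / (n : ℝ)) + (n + 64) * (5040 / (n : ℝ) ^ 2) +
      12 * (m : ℝ) / (n : ℝ))

/-- estimate for a fixed set `T` of long people -/
theorem fixed_T {k : ℕ} (hn : n = 2 * k) (hk : 0 < k) {T : Finset (Fin n)} {m : ℕ}
    (hT : T.card = 2 * m) (hm : m ≤ k) :
    |(∑ μ ∈ univ.filter (fun μ : Perm (Fin n) => MatchOn T μ),
        ∑ σ ∈ univ.filter (fun σ : Perm (Fin n) => LongOn T σ),
          ((wt (σ * μ) : ℤ) : ℝ) * II (σ * μ)) -
      (dd (k - m) : ℝ) * ((Nat.factorial (2 * m) : ℝ) * gam (-1) m) *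
        (Real.exp (1 / 2) / (dd (k + m) : ℝ))| ≤
    (dd (k - m) : ℝ) * (((Nat.factorial (2 * m) : ℝ) * gam 1 m) * (Ea n m / (dd (k + m) : ℝ)) +
      |(Nat.factorial (2 * m) : ℝ) * gam (-1) m| * (Eb n m / (dd (k + m) : ℝ))) := by
  have hcm := card_match T (k - m) (by omega)
  have hconst : (dd (k - m) : ℝ) * ((Nat.factorial (2 * m) : ℝ) * gam (-1) m) *
        (Real.exp (1 / 2) / (dd (k + m) : ℝ)) =
      ∑ μ ∈ univ.filter (fun μ : Perm (Fin n) => MatchOn T μ),
        ((Nat.factorial (2 * m) : ℝ) * gam (-1) m) * (Real.exp (1 / 2) / (dd (k + m) : ℝ)) := by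
    rw [Finset.sum_const, hcm, nsmul_eq_mul]
    ring
  have hconst2 : (dd (k - m) : ℝ) * (((Nat.factorial (2 * m) : ℝ) * gam 1 m) *
      (Ea n m / (dd (k + m) : ℝ)) +
      |(Nat.factorial (2 * m) : ℝ) * gam (-1) m| * (Eb n m / (dd (k + m) : ℝ))) =
      ∑ μ ∈ univ.filter (fun μ : Perm (Fin n) => MatchOn T μ),
        (((Nat.factorial (2 * m) : ℝ) * gam 1 m) * (Ea n m / (dd (k + m) : ℝ)) +
      |(Nat.factorial (2 * m) : ℝ) * gam (-1) m| * (Eb n m / (dd (k + m) : ℝ))) := by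
    rw [Finset.sum_const, hcm, nsmul_eq_mul]
  rw [hconst, hconst2, ← Finset.sum_sub_distrib]
  refine (Finset.abs_sum_le_sum_abs _ _).trans (Finset.sum_le_sum ?_)
  intro μ hμ
  rw [Finset.mem_filter] at hμ
  have hμ' := hμ.2
  have hs : ∑ σ ∈ univ.filter (fun σ : Perm (Fin n) => LongOn T σ),
      ((wt (σ * μ) : ℤ) : ℝ) * II (σ * μ) =
      ∑ σ ∈ univ.filter (fun σ : Perm (Fin n) => LongOn T σ),
        ((Perm.sign σ : ℤ) : ℝ) * (II (σ * μ) - JJ T μ σ) +
      ((Nat.factorial (2 * m) : ℝ) * gam (-1) m) * AA T m μ := by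
    rw [← sum_JJ hT μ, ← Finset.sum_add_distrib]
    apply Finset.sum_congr rfl
    intro σ hσ
    rw [Finset.mem_filter] at hσ
    rw [wt_mul T σ μ hσ.2 hμ']
    ring
  rw [hs]
  have hsplit : ∑ σ ∈ univ.filter (fun σ : Perm (Fin n) => LongOn T σ),
        ((Perm.sign σ : ℤ) : ℝ) * (II (σ * μ) - JJ T μ σ) +
      ((Nat.factorial (2 * m) : ℝ) * gam (-1) m) * AA T m μ -
      ((Nat.factorial (2 * m) : ℝ) * gam (-1) m) * (Real.exp (1 / 2) / (dd (k + m) : ℝ)) =
      ∑ σ ∈ univ.filter (fun σ : Perm (Fin n) => LongOn T σ),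
        ((Perm.sign σ : ℤ) : ℝ) * (II (σ * μ) - JJ T μ σ) +
      ((Nat.factorial (2 * m) : ℝ) * gam (-1) m) * (AA T m μ -
        Real.exp (1 / 2) / (dd (k + m) : ℝ)) := by ring
  rw [hsplit]
  refine (abs_add_le _ _).trans (add_le_add ?_ ?_)
  · refine (Finset.abs_sum_le_sum_abs _ _).trans ?_
    rw [← card_long T m hT, ← nsmul_eq_mul, ← Finset.sum_const]
    apply Finset.sum_le_sum
    intro σ hσ
    rw [Finset.mem_filter] at hσ
    have hsgn : |((Perm.sign σ : ℤ) : ℝ)| = 1 := by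
      rcases Int.units_eq_one_or (Perm.sign σ) with h | h <;> simp [h]
    rw [abs_mul, hsgn, one_mul]
    have h5 := D2a hn hk hT hσ.2 hμ'
    unfold II JJ Ea
    rw [longS_mul T σ μ hσ.2 hμ']
    refine h5.trans (le_of_eq ?_)
    ring
  · rw [abs_mul]
    apply mul_le_mul_of_nonneg_left _ (abs_nonneg _)
    have hn0 : (0 : ℝ) < n := by
      have : 0 < n := by omega
      exact_mod_cast this
    have h5 := D2b hn hk hT hμ' (Real.sqrt n) (Real.sqrt_pos.mpr hn0)
    unfold AA Eb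
    refine h5.trans (le_of_eq ?_)
    ring

theorem sum_even_range (k : ℕ) (f : ℕ → ℝ) (hf : ∀ j, ¬ Even j → f j = 0) :
    ∑ j ∈ Finset.range (2 * k + 1), f j = ∑ m ∈ Finset.range (k + 1), f (2 * m) := by
  induction k with
  | zero => simp
  | succ k ih =>
    rw [show 2 * (k + 1) + 1 = (2 * k + 1) + 1 + 1 by ring, Finset.sum_range_succ,
      Finset.sum_range_succ, ih, Finset.sum_range_succ _ (k + 1)]
    rw [hf (2 * k + 1) (by simp)]
    ring_nf

/-- sums over finsets by even cardinality -/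
theorem sum_finset_even (k : ℕ) (hn : n = 2 * k) (f : ℕ → ℝ) (hf : ∀ j, ¬ Even j → f j = 0) :
    ∑ T : Finset (Fin n), f T.card =
      ∑ m ∈ Finset.range (k + 1), ((2 * k).choose (2 * m) : ℝ) * f (2 * m) := by
  have h1 : ∑ T : Finset (Fin n), f T.card = ∑ T ∈ (univ : Finset (Fin n)).powerset, f T.card := by
    rw [Finset.powerset_univ]
  rw [h1, Finset.sum_powerset_apply_card, Finset.card_univ, Fintype.card_fin, hn]
  rw [sum_even_range k (fun j => (2 * k).choose j • f j)]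
  · apply Finset.sum_congr rfl
    intro m _
    rw [nsmul_eq_mul]
  · intro j hj
    rw [hf j hj, smul_zero]

end Pool.Agent.Helper91_SR
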