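import Pool.Agent.Helper91_SR.Defs

/-!
# Sequences for the asymptotics of the solvability probability

Used for MP_ef5893_pr (module F).
-/

set_option autoImplicit false

namespace Pool.Agent.Helper91_SR

open Equiv Finset Classical MeasureTheory

/-- the main weights -/
noncomputable def Rr (k m : ℕ) : ℝ :=
  ∏ j ∈ Finset.range m, ((2 * (k:ℝ) - 2 * j) / (2 * k + 2 * j + 1))

/-- partial sums of `gam` -/
noncomputable def Gs (ε : ℝ) (m : ℕ) : ℝ := ∑ j ∈ Finset.range (m + 1), gam ε j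

theorem Gs_succ (ε : ℝ) (m : ℕ) : Gs ε (m + 1) = Gs ε m + gam ε (m + 1) := by
  unfold Gs
  rw [Finset.sum_range_succ]

theorem Gs_zero (ε : ℝ) : Gs ε 0 = 1 := by simp [Gs, gam]

theorem Gs_one (ε : ℝ) : Gs ε 1 = 1 := by rw [Gs_succ, Gs_zero]; simp [gam]

theorem gam_add_two (ε : ℝ) (m : ℕ) : (2 * (m : ℝ) + 4) * gam ε (m + 2) = ε * Gs ε m := by
  induction m with
  | zero =>
    rw [Gs_zero]
    simp [gam]
    ring
  | succ m ih =>
    rw [Gs_succ, mul_add, ← ih]
    have h : gam ε (m + 1 + 2) =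
        ((2 * ((m + 1 : ℕ) : ℝ) + 2) * gam ε (m + 1 + 1) + ε * gam ε (m + 1)) /
          (2 * ((m + 1 : ℕ) : ℝ) + 4) := rfl
    rw [h]
    have h2 : (2 * ((m + 1 : ℕ) : ℝ) + 4) ≠ 0 := by positivity
    rw [mul_div_cancel₀ _ h2]
    push_cast
    ring

theorem Gs_add_two (ε : ℝ) (m : ℕ) :
    Gs ε (m + 2) = Gs ε (m + 1) + ε * Gs ε m / (2 * (m : ℝ) + 4) := by
  rw [Gs_succ]
  congr 1
  rw [← gam_add_two]
  have h2 : (2 * (m : ℝ) + 4) ≠ 0 := by positivity
  field_simp

/-! ### The signed sequence -/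

theorem Gm_inv (m : ℕ) : 0 < Gs (-1) m ∧ Gs (-1) (m + 1) ≤ Gs (-1) m ∧
    ((m : ℝ) + 1) * Gs (-1) m ≤ ((m : ℝ) + 2) * Gs (-1) (m + 1) := by
  have h0 := Gs_zero (-1)
  have h1 := Gs_one (-1)
  have h2 : Gs (-1) 2 = 3 / 4 := by
    rw [Gs_add_two, h0, h1]; norm_num
  have h3 : Gs (-1) 3 = 7 / 12 := by
    rw [Gs_add_two, h2, h1]; norm_num
  induction m with
  | zero => rw [h0, h1]; norm_num
  | succ m ih =>
    obtain ⟨ih1, ih2, ih3⟩ := ih
    have hm0 : (0 : ℝ) ≤ m := Nat.cast_nonneg m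
    have hpos : 0 < Gs (-1) (m + 1) := by
      have : 0 < ((m : ℝ) + 2) * Gs (-1) (m + 1) :=
        lt_of_lt_of_le (mul_pos (by positivity) ih1) ih3
      exact (pos_iff_pos_of_mul_pos this).1 (by positivity)
    refine ⟨hpos, ?_, ?_⟩
    · rw [Gs_add_two]
      have : 0 ≤ Gs (-1) m / (2 * (m : ℝ) + 4) := by positivity
      have e : (-1 : ℝ) * Gs (-1) m / (2 * (m : ℝ) + 4) = -(Gs (-1) m / (2 * (m : ℝ) + 4)) := by
        ring
      rw [e]; linarith
    · rcases Nat.eq_zero_or_pos m with hm | hm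
      · subst hm
        rw [show 0 + 1 + 1 = 2 by rfl, show 0 + 1 = 1 by rfl, h1, h2]
        norm_num
      · have hm1 : (1 : ℝ) ≤ m := by exact_mod_cast hm
        rw [Gs_add_two]
        push_cast
        have e : ((m : ℝ) + 1 + 2) * (Gs (-1) (m + 1) + -1 * Gs (-1) m / (2 * (m : ℝ) + 4)) -
            ((m : ℝ) + 1 + 1) * Gs (-1) (m + 1) =
            Gs (-1) (m + 1) - ((m : ℝ) + 3) / (2 * (m : ℝ) + 4) * Gs (-1) m := by
          field_simp
          ring
        have h5 : ((m : ℝ) + 3) / (2 * (m : ℝ) + 4) * Gs (-1) m ≤ Gs (-1) (m + 1) := by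
          have h6 : Gs (-1) m ≤ ((m : ℝ) + 2) / ((m : ℝ) + 1) * Gs (-1) (m + 1) := by
            rw [div_mul_eq_mul_div, le_div_iff₀ (by positivity)]
            linarith
          calc ((m : ℝ) + 3) / (2 * (m : ℝ) + 4) * Gs (-1) m
              ≤ ((m : ℝ) + 3) / (2 * (m : ℝ) + 4) *
                (((m : ℝ) + 2) / ((m : ℝ) + 1) * Gs (-1) (m + 1)) :=
                mul_le_mul_of_nonneg_left h6 (by positivity)
            _ = (((m : ℝ) + 3) / (2 * ((m : ℝ) + 1))) * Gs (-1) (m + 1) := by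
                field_simp
                ring
            _ ≤ 1 * Gs (-1) (m + 1) := by
                apply mul_le_mul_of_nonneg_right _ hpos.le
                rw [div_le_one (by positivity)]
                linarith
            _ = Gs (-1) (m + 1) := one_mul _
        linarith

theorem Gm_pos (m : ℕ) : 0 < Gs (-1) m := (Gm_inv m).1

theorem Gm_anti : Antitone (Gs (-1)) := antitone_nat_of_succ_le (fun m => (Gm_inv m).2.1)

theorem Gm_lower (m : ℕ) : Gs (-1) (m + 1) * (2 * (m : ℝ) + 1) / (2 * m + 2) ≤ Gs (-1) (m + 2) := by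
  have h := (Gm_inv m).2.2
  rw [Gs_add_two]
  have hm0 : (0 : ℝ) ≤ m := Nat.cast_nonneg m
  have h6 : Gs (-1) m ≤ ((m : ℝ) + 2) / ((m : ℝ) + 1) * Gs (-1) (m + 1) := by
    rw [div_mul_eq_mul_div, le_div_iff₀ (by positivity)]
    linarith
  have h7 : Gs (-1) m / (2 * (m : ℝ) + 4) ≤ Gs (-1) (m + 1) / (2 * m + 2) := by
    calc Gs (-1) m / (2 * (m : ℝ) + 4)
        ≤ (((m : ℝ) + 2) / ((m : ℝ) + 1) * Gs (-1) (m + 1)) / (2 * (m : ℝ) + 4) :=
          div_le_div_of_nonneg_right h6 (by positivity)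
      _ = Gs (-1) (m + 1) / (2 * m + 2) := by
          field_simp
          ring
  have e : Gs (-1) (m + 1) * (2 * (m : ℝ) + 1) / (2 * m + 2) =
      Gs (-1) (m + 1) - Gs (-1) (m + 1) / (2 * m + 2) := by
    field_simp
    ring
  have e2 : (-1 : ℝ) * Gs (-1) m / (2 * (m : ℝ) + 4) = -(Gs (-1) m / (2 * (m : ℝ) + 4)) := by
    ring
  rw [e, e2]
  linarith

theorem Gm_upper (m : ℕ) : Gs (-1) (m + 2) ≤ Gs (-1) (m + 1) * (2 * (m : ℝ) + 3) / (2 * m + 4) := by
  have h := (Gm_inv m).2.1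
  rw [Gs_add_two]
  have hm0 : (0 : ℝ) ≤ m := Nat.cast_nonneg m
  have h7 : Gs (-1) (m + 1) / (2 * (m : ℝ) + 4) ≤ Gs (-1) m / (2 * m + 4) :=
    div_le_div_of_nonneg_right h (by positivity)
  have e : Gs (-1) (m + 1) * (2 * (m : ℝ) + 3) / (2 * m + 4) =
      Gs (-1) (m + 1) - Gs (-1) (m + 1) / (2 * m + 4) := by
    field_simp
    ring
  have e2 : (-1 : ℝ) * Gs (-1) m / (2 * (m : ℝ) + 4) = -(Gs (-1) m / (2 * (m : ℝ) + 4)) := by
    ring
  rw [e, e2]
  linarith

theorem Gm_sq_upper (m : ℕ) : (Gs (-1) m) ^ 2 * (2 * (m : ℝ) + 1) ≤ 3 := by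
  have key : ∀ m : ℕ, (Gs (-1) (m + 1)) ^ 2 * (2 * ((m + 1 : ℕ) : ℝ) + 1) ≤ 3 := by
    intro m
    induction m with
    | zero => rw [show 0 + 1 = 1 by rfl, Gs_one]; norm_num
    | succ m ih =>
      have h := Gm_upper m
      have hp := Gm_pos (m + 1)
      have hp2 := Gm_pos (m + 2)
      have hm0 : (0 : ℝ) ≤ m := Nat.cast_nonneg m
      have h1 : (Gs (-1) (m + 1 + 1)) ^ 2 ≤
          (Gs (-1) (m + 1) * (2 * (m : ℝ) + 3) / (2 * m + 4)) ^ 2 :=
        pow_le_pow_left₀ hp2.le h 2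
      refine le_trans ?_ ih
      push_cast
      calc (Gs (-1) (m + 1 + 1)) ^ 2 * (2 * ((m : ℝ) + 1 + 1) + 1)
          ≤ (Gs (-1) (m + 1) * (2 * (m : ℝ) + 3) / (2 * m + 4)) ^ 2 *
            (2 * ((m : ℝ) + 1 + 1) + 1) := mul_le_mul_of_nonneg_right h1 (by positivity)
        _ = (Gs (-1) (m + 1)) ^ 2 * (2 * ((m : ℝ) + 1) + 1) *
            (((2 * (m : ℝ) + 3) * (2 * m + 5)) / (2 * m + 4) ^ 2) := by
            field_simp
            ring
        _ ≤ (Gs (-1) (m + 1)) ^ 2 * (2 * ((m : ℝ) + 1) + 1) * 1 := by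
            apply mul_le_mul_of_nonneg_left _ (by positivity)
            rw [div_le_one (by positivity)]
            nlinarith
        _ = (Gs (-1) (m + 1)) ^ 2 * (2 * ((m : ℝ) + 1) + 1) := mul_one _
  cases m with
  | zero => rw [Gs_zero]; norm_num
  | succ m => exact key m

theorem Gm_sq_lower (m : ℕ) : 1 / 4 ≤ (Gs (-1) m) ^ 2 * ((m : ℝ) + 1) := by
  have key : ∀ m : ℕ, 9 / 16 ≤ (Gs (-1) (m + 2)) ^ 2 * ((m : ℝ) + 1) := by
    intro m
    induction m with
    | zero =>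
      have h2 : Gs (-1) 2 = 3 / 4 := by
        rw [Gs_add_two, Gs_zero, Gs_one]; norm_num
      rw [show 0 + 2 = 2 by rfl, h2]; norm_num
    | succ m ih =>
      have h := Gm_lower (m + 1)
      push_cast at h
      have hp := Gm_pos (m + 2)
      have hm0 : (0 : ℝ) ≤ m := Nat.cast_nonneg m
      have h0 : 0 ≤ Gs (-1) (m + 2) * (2 * ((m : ℝ) + 1) + 1) / (2 * ((m : ℝ) + 1) + 2) := by
        positivity
      have h1 : (Gs (-1) (m + 2) * (2 * ((m : ℝ) + 1) + 1) / (2 * ((m : ℝ) + 1) + 2)) ^ 2 ≤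
          (Gs (-1) (m + 1 + 2)) ^ 2 := pow_le_pow_left₀ h0 h 2
      refine le_trans ih ?_
      push_cast
      calc (Gs (-1) (m + 2)) ^ 2 * ((m : ℝ) + 1)
          = (Gs (-1) (m + 2)) ^ 2 * ((m : ℝ) + 1) * 1 := (mul_one _).symm
        _ ≤ (Gs (-1) (m + 2)) ^ 2 * ((m : ℝ) + 1) *
            (((2 * ((m : ℝ) + 1) + 1) ^ 2 * (m + 2)) / ((2 * ((m : ℝ) + 1) + 2) ^ 2 * (m + 1))) := by
            apply mul_le_mul_of_nonneg_left _ (by positivity)
            rw [one_le_div (by positivity)]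
            nlinarith
        _ = (Gs (-1) (m + 2) * (2 * ((m : ℝ) + 1) + 1) / (2 * ((m : ℝ) + 1) + 2)) ^ 2 *
            ((m : ℝ) + 1 + 1) := by
            field_simp
            ring
        _ ≤ (Gs (-1) (m + 1 + 2)) ^ 2 * ((m : ℝ) + 1 + 1) :=
            mul_le_mul_of_nonneg_right h1 (by positivity)
  match m with
  | 0 => rw [Gs_zero]; norm_num
  | 1 => rw [Gs_one]; norm_num
  | m + 2 =>
    have h := key m
    push_cast
    have : (Gs (-1) (m + 2)) ^ 2 * ((m : ℝ) + 1) ≤ (Gs (-1) (m + 2)) ^ 2 * ((m : ℝ) + 2 + 1) := by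
      apply mul_le_mul_of_nonneg_left _ (by positivity)
      linarith
    linarith

theorem Gm_le (m : ℕ) : Gs (-1) m ≤ 2 / Real.sqrt (m + 1) := by
  have h := Gm_sq_upper m
  have hp := Gm_pos m
  have hm0 : (0 : ℝ) ≤ m := Nat.cast_nonneg m
  have hs : 0 < Real.sqrt (m + 1) := Real.sqrt_pos.2 (by positivity)
  rw [le_div_iff₀ hs]
  apply le_of_sq_le_sq _ (by norm_num)
  rw [mul_pow, Real.sq_sqrt (by positivity)]
  have : (Gs (-1) m) ^ 2 * ((m : ℝ) + 1) ≤ (Gs (-1) m) ^ 2 * (2 * (m : ℝ) + 1) :=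
    mul_le_mul_of_nonneg_left (by linarith) (by positivity)
  linarith

theorem le_Gm (m : ℕ) : (1 / 2) / Real.sqrt (m + 1) ≤ Gs (-1) m := by
  have h := Gm_sq_lower m
  have hp := Gm_pos m
  have hm0 : (0 : ℝ) ≤ m := Nat.cast_nonneg m
  have hs : 0 < Real.sqrt (m + 1) := Real.sqrt_pos.2 (by positivity)
  rw [div_le_iff₀ hs]
  apply le_of_sq_le_sq _ (by positivity)
  rw [mul_pow, Real.sq_sqrt (by positivity)]
  linarith

theorem gam_neg_nonpos (m : ℕ) : gam (-1) (m + 1) ≤ 0 := by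
  cases m with
  | zero => simp [gam]
  | succ m =>
    have h := gam_add_two (-1) m
    have hp := Gm_pos m
    have h2 : (0 : ℝ) < 2 * (m : ℝ) + 4 := by positivity
    by_contra h3
    rw [not_le] at h3
    have := mul_pos h2 h3
    linarith

theorem gam_abs_sum (M : ℕ) : ∑ m ∈ Finset.range M, |gam (-1) m| ≤ 2 := by
  have key : ∀ M : ℕ, ∑ m ∈ Finset.range (M + 1), |gam (-1) m| = 2 - Gs (-1) M := by
    intro M
    induction M with
    | zero => rw [Gs_zero]; simp [gam]; norm_num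
    | succ M ih =>
      rw [Finset.sum_range_succ, ih, Gs_succ, abs_of_nonpos (gam_neg_nonpos M)]
      ring
  cases M with
  | zero => simp
  | succ M => rw [key]; linarith [Gm_pos M]

/-! ### The unsigned sequence -/

theorem Gp_inv (m : ℕ) : 0 < Gs 1 m ∧ Gs 1 m ≤ Gs 1 (m + 1) := by
  induction m with
  | zero => rw [Gs_zero, show 0 + 1 = 1 by rfl, Gs_one]; norm_num
  | succ m ih =>
    have hp : 0 < Gs 1 (m + 1) := lt_of_lt_of_le ih.1 ih.2
    refine ⟨hp, ?_⟩
    rw [Gs_add_two]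
    have h1 := ih.1
    have : 0 ≤ 1 * Gs 1 m / (2 * (m : ℝ) + 4) := by positivity
    linarith

theorem Gp_sq (m : ℕ) : (Gs 1 m) ^ 2 ≤ 2 * (m : ℝ) + 1 := by
  have key : ∀ m : ℕ, (Gs 1 (m + 1)) ^ 2 ≤ 2 * ((m : ℝ) + 1) + 1 := by
    intro m
    induction m with
    | zero => rw [show 0 + 1 = 1 by rfl, Gs_one]; norm_num
    | succ m ih =>
      have h1 := Gp_inv m
      have hp := (Gp_inv (m + 1)).1
      have hp2 := (Gp_inv (m + 2)).1
      have hm0 : (0 : ℝ) ≤ m := Nat.cast_nonneg m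
      have h2 : Gs 1 (m + 2) ≤ Gs 1 (m + 1) * ((2 * (m : ℝ) + 5) / (2 * m + 4)) := by
        rw [Gs_add_two]
        have h3 : Gs 1 m / (2 * (m : ℝ) + 4) ≤ Gs 1 (m + 1) / (2 * (m : ℝ) + 4) :=
          div_le_div_of_nonneg_right h1.2 (by positivity)
        have e : Gs 1 (m + 1) * ((2 * (m : ℝ) + 5) / (2 * m + 4)) =
            Gs 1 (m + 1) + Gs 1 (m + 1) / (2 * (m : ℝ) + 4) := by
          field_simp
          ring
        rw [e, one_mul]; linarith
      have h3 : (Gs 1 (m + 1 + 1)) ^ 2 ≤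
          (Gs 1 (m + 1) * ((2 * (m : ℝ) + 5) / (2 * m + 4))) ^ 2 :=
        pow_le_pow_left₀ hp2.le h2 2
      push_cast
      calc (Gs 1 (m + 1 + 1)) ^ 2 ≤ (Gs 1 (m + 1) * ((2 * (m : ℝ) + 5) / (2 * m + 4))) ^ 2 := h3
        _ = (Gs 1 (m + 1)) ^ 2 * ((2 * (m : ℝ) + 5) / (2 * m + 4)) ^ 2 := by ring
        _ ≤ (2 * ((m : ℝ) + 1) + 1) * ((2 * (m : ℝ) + 5) / (2 * m + 4)) ^ 2 :=
            mul_le_mul_of_nonneg_right ih (by positivity)
        _ ≤ 2 * ((m : ℝ) + 1 + 1) + 1 := by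
            rw [div_pow, mul_div_assoc', div_le_iff₀ (by positivity)]
            nlinarith
  cases m with
  | zero => rw [Gs_zero]; norm_num
  | succ m => have := key m; push_cast; linarith

theorem gam_one_bound (m : ℕ) : 0 ≤ gam 1 m ∧ gam 1 m ≤ 1 / Real.sqrt (m + 1) := by
  match m with
  | 0 => simp [gam]
  | 1 =>
    refine ⟨by simp [gam], ?_⟩
    have : gam 1 1 = 0 := by simp [gam]
    rw [this]; positivity
  | m + 2 =>
    have h := gam_add_two 1 m
    rw [one_mul] at h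
    have hp := (Gp_inv m).1
    have hm0 : (0 : ℝ) ≤ m := Nat.cast_nonneg m
    have h2 : (0 : ℝ) < 2 * (m : ℝ) + 4 := by positivity
    have e : gam 1 (m + 2) = Gs 1 m / (2 * (m : ℝ) + 4) := by
      rw [eq_div_iff h2.ne']; linarith
    rw [e]
    refine ⟨by positivity, ?_⟩
    have hs : 0 < Real.sqrt (((m + 2 : ℕ) : ℝ) + 1) := Real.sqrt_pos.2 (by positivity)
    rw [div_le_div_iff₀ h2 hs, one_mul]
    apply le_of_sq_le_sq _ h2.le
    rw [mul_pow, Real.sq_sqrt (by positivity)]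
    have h3 := Gp_sq m
    push_cast
    calc (Gs 1 m) ^ 2 * ((m : ℝ) + 2 + 1) ≤ (2 * (m : ℝ) + 1) * ((m : ℝ) + 2 + 1) :=
          mul_le_mul_of_nonneg_right h3 (by positivity)
      _ ≤ (2 * (m : ℝ) + 4) ^ 2 := by nlinarith

/-! ### The products -/

theorem Rr_zero (k : ℕ) : Rr k 0 = 1 := by simp [Rr]

theorem Rr_succ (k m : ℕ) :
    Rr k (m + 1) = Rr k m * ((2 * (k:ℝ) - 2 * m) / (2 * k + 2 * m + 1)) := by
  unfold Rr
  rw [Finset.prod_range_succ]

theorem Rr_nonneg (k m : ℕ) (hm : m ≤ k + 1) : 0 ≤ Rr k m := by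
  unfold Rr
  apply Finset.prod_nonneg
  intro j hj
  rw [Finset.mem_range] at hj
  have : (j : ℝ) ≤ k := by exact_mod_cast (by omega : j ≤ k)
  apply div_nonneg
  · linarith
  · positivity

theorem Rr_diff (k m : ℕ) :
    Rr k m - Rr k (m + 1) = Rr k m * ((4 * (m : ℝ) + 1) / (2 * k + 2 * m + 1)) := by
  rw [Rr_succ]
  have : (2 * (k : ℝ) + 2 * m + 1) ≠ 0 := by positivity
  field_simp
  ring

theorem Rr_le_exp (k m : ℕ) (hm : m ≤ k) :
    Rr k m ≤ Real.exp (-((m : ℝ) ^ 2 / (4 * k + 1))) := by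
  have key : ∀ m : ℕ, m ≤ k → Rr k m ≤ Real.exp (-((2 * (m : ℝ) ^ 2 - m) / (4 * k + 1))) := by
    intro m
    induction m with
    | zero => intro _; simp [Rr]
    | succ m ih =>
      intro hm
      have ih' := ih (by omega)
      have hmk : (m : ℝ) + 1 ≤ k := by exact_mod_cast hm
      have hm0 : (0 : ℝ) ≤ m := Nat.cast_nonneg m
      rw [Rr_succ]
      have h1 : (2 * (k:ℝ) - 2 * m) / (2 * k + 2 * m + 1) ≤
          Real.exp (-((4 * (m : ℝ) + 1) / (4 * k + 1))) := by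
        have h2 : (2 * (k:ℝ) - 2 * m) / (2 * k + 2 * m + 1) =
            1 - (4 * (m : ℝ) + 1) / (2 * k + 2 * m + 1) := by
          field_simp
          ring
        have h3 : (4 * (m : ℝ) + 1) / (4 * k + 1) ≤ (4 * (m : ℝ) + 1) / (2 * k + 2 * m + 1) := by
          apply div_le_div_of_nonneg_left (by positivity) (by positivity)
          linarith
        have h4 := Real.add_one_le_exp (-((4 * (m : ℝ) + 1) / (4 * k + 1)))
        rw [h2]; linarith
      have h0 : 0 ≤ (2 * (k:ℝ) - 2 * m) / (2 * k + 2 * m + 1) := by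
        apply div_nonneg
        · linarith
        · positivity
      calc Rr k m * ((2 * (k:ℝ) - 2 * m) / (2 * k + 2 * m + 1))
          ≤ Real.exp (-((2 * (m : ℝ) ^ 2 - m) / (4 * k + 1))) *
            Real.exp (-((4 * (m : ℝ) + 1) / (4 * k + 1))) :=
            mul_le_mul ih' h1 h0 (Real.exp_pos _).le
        _ = Real.exp (-((2 * (((m + 1 : ℕ) : ℝ)) ^ 2 - ((m + 1 : ℕ) : ℝ)) / (4 * k + 1))) := by
            rw [← Real.exp_add]
            congr 1
            push_cast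
            field_simp
            ring
  refine le_trans (key m hm) ?_
  apply Real.exp_le_exp.2
  apply neg_le_neg
  apply div_le_div_of_nonneg_right _ (by positivity)
  rcases Nat.eq_zero_or_pos m with h | h
  · subst h; simp
  · have : (1 : ℝ) ≤ m := by exact_mod_cast h
    nlinarith

theorem Rr_bound (k m : ℕ) (hm : m ≤ k) :
    0 ≤ Rr k m ∧ Rr k m ≤ 1 ∧ (m:ℝ)^2 * Rr k m ≤ 4 * k + 1 := by
  have h1 := Rr_le_exp k m hm
  refine ⟨Rr_nonneg k m (by omega), ?_, ?_⟩
  · refine le_trans h1 ?_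
    rw [Real.exp_le_one_iff, neg_nonpos]
    positivity
  · set x : ℝ := (m : ℝ) ^ 2 / (4 * k + 1) with hx
    have hx0 : 0 ≤ x := by positivity
    have h2 : (m : ℝ) ^ 2 = (4 * k + 1) * x := by
      rw [hx]; field_simp
    have h3 : x * Real.exp (-x) ≤ 1 := by
      rw [Real.exp_neg, ← div_eq_mul_inv, div_le_one (Real.exp_pos _)]
      linarith [Real.add_one_le_exp x]
    calc (m:ℝ)^2 * Rr k m ≤ (m:ℝ)^2 * Real.exp (-x) :=
          mul_le_mul_of_nonneg_left h1 (by positivity)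
      _ = (4 * k + 1) * (x * Real.exp (-x)) := by rw [h2]; ring
      _ ≤ (4 * k + 1) * 1 := mul_le_mul_of_nonneg_left h3 (by positivity)
      _ = 4 * k + 1 := mul_one _

theorem dd_pos (k : ℕ) : 0 < dd k := by
  induction k with
  | zero => simp [dd]
  | succ k ih => simp only [dd]; positivity

theorem Rr_eq (k m : ℕ) (hm : m ≤ k) :
    ((2*k).choose (2*m) : ℝ) * (Nat.factorial (2*m)) * dd (k-m) / dd (k+m) = Rr k m := by
  induction m with
  | zero =>
    have h : (dd k : ℝ) ≠ 0 := by exact_mod_cast (dd_pos k).ne'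
    simp [Rr, h]
  | succ m ih =>
    have ih' := ih (by omega)
    rw [Rr_succ, ← ih']
    obtain ⟨j, rfl⟩ : ∃ j, k = m + 1 + j := ⟨k - (m + 1), by omega⟩
    have e1 : m + 1 + j - (m + 1) = j := by omega
    have e2 : m + 1 + j - m = j + 1 := by omega
    have e3 : m + 1 + j + (m + 1) = (m + 1 + j + m) + 1 := by omega
    rw [e1, e2, e3]
    have d1 : (dd (j + 1) : ℝ) = (2 * (j : ℝ) + 1) * dd j := by simp only [dd]; push_cast; ring
    have d2 : (dd ((m + 1 + j + m) + 1) : ℝ) =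
        (2 * ((m + 1 + j + m : ℕ) : ℝ) + 1) * dd (m + 1 + j + m) := by
      simp only [dd]; push_cast; ring
    have n1 : (dd j : ℝ) ≠ 0 := by exact_mod_cast (dd_pos j).ne'
    have n2 : (dd (m + 1 + j + m) : ℝ) ≠ 0 := by exact_mod_cast (dd_pos _).ne'
    have c1 : ((2 * (m + 1 + j)).choose (2 * (m + 1)) : ℝ) * (Nat.factorial (2 * (m + 1))) =
        ((2 * (m + 1 + j)).choose (2 * m) : ℝ) * (Nat.factorial (2 * m)) *
          ((2 * (j : ℝ) + 2) * (2 * j + 1)) := by
      have a1 : ((2 * (m + 1 + j)).choose (2 * (m + 1))) * (Nat.factorial (2 * (m + 1))) *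
          (Nat.factorial (2 * j)) = Nat.factorial (2 * (m + 1 + j)) := by
        have := Nat.choose_mul_factorial_mul_factorial
          (show 2 * (m + 1) ≤ 2 * (m + 1 + j) by omega)
        rw [show 2 * (m + 1 + j) - 2 * (m + 1) = 2 * j by omega] at this
        exact this
      have a2 : ((2 * (m + 1 + j)).choose (2 * m)) * (Nat.factorial (2 * m)) *
          (Nat.factorial (2 * j + 2)) = Nat.factorial (2 * (m + 1 + j)) := by
        have := Nat.choose_mul_factorial_mul_factorial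
          (show 2 * m ≤ 2 * (m + 1 + j) by omega)
        rw [show 2 * (m + 1 + j) - 2 * m = 2 * j + 2 by omega] at this
        exact this
      have a3 : (Nat.factorial (2 * j + 2) : ℝ) =
          (2 * (j : ℝ) + 2) * ((2 * j + 1) * (Nat.factorial (2 * j) : ℝ)) := by
        rw [Nat.factorial_succ, Nat.factorial_succ]; push_cast; ring
      have a4 : (Nat.factorial (2 * j) : ℝ) ≠ 0 := by
        exact_mod_cast Nat.factorial_ne_zero _
      have a1' : ((2 * (m + 1 + j)).choose (2 * (m + 1)) : ℝ) * (Nat.factorial (2 * (m + 1))) *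
          (Nat.factorial (2 * j)) = (Nat.factorial (2 * (m + 1 + j)) : ℝ) := by exact_mod_cast a1
      have a2' : ((2 * (m + 1 + j)).choose (2 * m) : ℝ) * (Nat.factorial (2 * m)) *
          (Nat.factorial (2 * j + 2)) = (Nat.factorial (2 * (m + 1 + j)) : ℝ) := by
        exact_mod_cast a2
      apply mul_right_cancel₀ a4
      rw [a1', ← a2', a3]
      ring
    rw [c1, d1, d2]
    have n3 : (2 * ((m + 1 + j + m : ℕ) : ℝ) + 1) ≠ 0 := by positivity
    have n4 : (2 * ((m + 1 + j : ℕ) : ℝ) + 2 * m + 1) ≠ 0 := by positivity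
    have e5 : (2 * ((m + 1 + j : ℕ) : ℝ) + 2 * m + 1) = (2 * ((m + 1 + j + m : ℕ) : ℝ) + 1) := by
      push_cast; ring
    have e6 : (2 * ((m + 1 + j : ℕ) : ℝ) - 2 * m) = 2 * (j : ℝ) + 2 := by push_cast; ring
    rw [e5, e6]
    field_simp

theorem Rr_top (k : ℕ) : Rr k (k + 1) = 0 := by
  rw [Rr_succ]; simp

/-- Abel summation -/
theorem abel (k : ℕ) : ∀ M : ℕ, ∑ m ∈ Finset.range (M + 1), gam (-1) m * Rr k m =
    ∑ m ∈ Finset.range (M + 1), Gs (-1) m * (Rr k m - Rr k (m + 1)) +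
      Gs (-1) M * Rr k (M + 1) := by
  intro M
  induction M with
  | zero => simp [Gs_zero, gam]
  | succ M ih =>
    rw [Finset.sum_range_succ, ih, Finset.sum_range_succ _ (M + 1), Gs_succ]
    ring

theorem main_eq (k : ℕ) : ∑ m ∈ Finset.range (k + 1), gam (-1) m * Rr k m =
    ∑ m ∈ Finset.range (k + 1), Gs (-1) m * (Rr k m - Rr k (m + 1)) := by
  rw [abel, Rr_top]; simp

theorem Rr_diff_nonneg (k m : ℕ) (hm : m ≤ k) : 0 ≤ Rr k m - Rr k (m + 1) := by
  rw [Rr_diff]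
  exact mul_nonneg (Rr_nonneg k m (by omega)) (by positivity)

theorem sum_inv_sqrt (k : ℕ) :
    ∑ m ∈ Finset.range (k+1), 1 / Real.sqrt (m + 1) ≤ 2 * Real.sqrt (k + 1) := by
  induction k with
  | zero => simp
  | succ k ih =>
    rw [Finset.sum_range_succ]
    push_cast
    set a := Real.sqrt ((k : ℝ) + 1) with ha
    set b := Real.sqrt ((k : ℝ) + 1 + 1) with hb
    have ha0 : 0 ≤ a := Real.sqrt_nonneg _
    have hb0 : 0 < b := Real.sqrt_pos.2 (by positivity)
    have ha2 : a ^ 2 = (k : ℝ) + 1 := Real.sq_sqrt (by positivity)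
    have hb2 : b ^ 2 = (k : ℝ) + 1 + 1 := Real.sq_sqrt (by positivity)
    have h : 1 / b ≤ 2 * b - 2 * a := by
      rw [div_le_iff₀ hb0]
      nlinarith [sq_nonneg (a - b)]
    linarith

theorem main_upper (k : ℕ) (hk : 1 ≤ k) :
    ∑ m ∈ Finset.range (k + 1), gam (-1) m * Rr k m ≤
      25 / Real.sqrt (Real.sqrt (2 * k)) := by
  rw [main_eq]
  set t : ℝ := Real.sqrt (2 * k) with ht
  have hk1 : (1 : ℝ) ≤ k := by exact_mod_cast hk
  have ht2 : t ^ 2 = 2 * k := Real.sq_sqrt (by positivity)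
  have ht0 : 0 ≤ t := Real.sqrt_nonneg _
  have ht1 : 1 ≤ t := by nlinarith
  set u : ℝ := Real.sqrt t with hu
  have hu2 : u ^ 2 = t := Real.sq_sqrt ht0
  have hu0 : 0 < u := Real.sqrt_pos.2 (by linarith)
  set s : ℕ := ⌊t⌋₊ with hs
  have hs1 : (s : ℝ) ≤ t := Nat.floor_le ht0
  have hs2 : t < s + 1 := Nat.lt_floor_add_one t
  -- pointwise bound: each term is at most its small part plus its large part
  have hterm : ∀ m ∈ Finset.range (k + 1), Gs (-1) m * (Rr k m - Rr k (m + 1)) ≤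
      (if m ≤ s then 8 * Real.sqrt (2 * t) / (2 * k) else 0) +
        (2 / u) * (Rr k m - Rr k (m + 1)) := by
    intro m hm
    rw [Finset.mem_range] at hm
    have hmk : m ≤ k := by omega
    have hd := Rr_diff_nonneg k m hmk
    have hG := Gm_le m
    have hm0 : (0 : ℝ) ≤ m := Nat.cast_nonneg m
    split_ifs with h
    · have hmt : (m : ℝ) + 1 ≤ 2 * t := by
        have : (m : ℝ) ≤ s := by exact_mod_cast h
        linarith
      have hs0 : 0 < Real.sqrt ((m : ℝ) + 1) := Real.sqrt_pos.2 (by positivity)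
      have h1 : Rr k m - Rr k (m + 1) ≤ (4 * (m : ℝ) + 1) / (2 * k) := by
        rw [Rr_diff]
        obtain ⟨r0, r1, _⟩ := Rr_bound k m hmk
        calc Rr k m * ((4 * (m : ℝ) + 1) / (2 * k + 2 * m + 1))
            ≤ 1 * ((4 * (m : ℝ) + 1) / (2 * k + 2 * m + 1)) :=
              mul_le_mul_of_nonneg_right r1 (by positivity)
          _ ≤ (4 * (m : ℝ) + 1) / (2 * k) := by
              rw [one_mul]
              apply div_le_div_of_nonneg_left (by positivity) (by positivity)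
              linarith
      have h2 : Gs (-1) m * (Rr k m - Rr k (m + 1)) ≤ 8 * Real.sqrt (2 * t) / (2 * k) := by
        calc Gs (-1) m * (Rr k m - Rr k (m + 1))
            ≤ (2 / Real.sqrt (m + 1)) * ((4 * (m : ℝ) + 1) / (2 * k)) :=
              mul_le_mul hG h1 hd (by positivity)
          _ ≤ (2 / Real.sqrt (m + 1)) * ((4 * ((m : ℝ) + 1)) / (2 * k)) := by
              apply mul_le_mul_of_nonneg_left _ (by positivity)
              apply div_le_div_of_nonneg_right _ (by positivity)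
              linarith
          _ = 8 * Real.sqrt (m + 1) / (2 * k) := by
              have e : (m : ℝ) + 1 = Real.sqrt (m + 1) * Real.sqrt (m + 1) :=
                (Real.mul_self_sqrt (by positivity)).symm
              have e3 : 4 * ((m : ℝ) + 1) = 4 * (Real.sqrt (m + 1) * Real.sqrt (m + 1)) := by
                rw [← e]
              rw [e3]
              field_simp
              ring
          _ ≤ 8 * Real.sqrt (2 * t) / (2 * k) := by
              apply div_le_div_of_nonneg_right _ (by positivity)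
              apply mul_le_mul_of_nonneg_left _ (by norm_num)
              exact Real.sqrt_le_sqrt hmt
      have h3 : 0 ≤ (2 / u) * (Rr k m - Rr k (m + 1)) := mul_nonneg (by positivity) hd
      linarith
    · rw [zero_add]
      apply mul_le_mul_of_nonneg_right _ hd
      refine le_trans hG ?_
      apply div_le_div_of_nonneg_left (by norm_num) hu0
      apply Real.sqrt_le_sqrt
      have : (s : ℝ) + 1 ≤ m := by exact_mod_cast (by omega : s + 1 ≤ m)
      linarith
  have hsum := Finset.sum_le_sum hterm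
  rw [Finset.sum_add_distrib, ← Finset.mul_sum, Finset.sum_range_sub'] at hsum
  have hA : ∑ m ∈ Finset.range (k + 1),
      (if m ≤ s then 8 * Real.sqrt (2 * t) / (2 * k) else 0) ≤
      (2 * t) * (8 * Real.sqrt (2 * t) / (2 * k)) := by
    rw [← Finset.sum_filter, Finset.sum_const, nsmul_eq_mul]
    apply mul_le_mul_of_nonneg_right _ (by positivity)
    have h1 : ((Finset.range (k + 1)).filter (fun m => m ≤ s)).card ≤ s + 1 := by
      calc ((Finset.range (k + 1)).filter (fun m => m ≤ s)).card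
          ≤ (Finset.range (s + 1)).card := by
            apply Finset.card_le_card
            intro m hm
            rw [Finset.mem_filter] at hm
            rw [Finset.mem_range]; omega
        _ = s + 1 := Finset.card_range _
    have h2 : (((Finset.range (k + 1)).filter (fun m => m ≤ s)).card : ℝ) ≤ s + 1 := by
      exact_mod_cast h1
    linarith
  have hB : (2 * t) * (8 * Real.sqrt (2 * t) / (2 * k)) ≤ 23 / u := by
    have e1 : Real.sqrt (2 * t) = Real.sqrt 2 * u := by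
      rw [hu, Real.sqrt_mul (by norm_num)]
    have e2 : (2 * (k : ℝ)) = t ^ 2 := ht2.symm
    have e4 : Real.sqrt 2 ≤ 23 / 16 := by
      rw [Real.sqrt_le_left (by norm_num)]; norm_num
    rw [e1, e2]
    have e3 : (2 * t) * (8 * (Real.sqrt 2 * u) / t ^ 2) = 16 * Real.sqrt 2 / u := by
      rw [← hu2]
      field_simp
      ring
    rw [e3]
    apply div_le_div_of_nonneg_right _ hu0.le
    linarith
  have hC : (2 / u) * (Rr k 0 - Rr k (k + 1)) = 2 / u := by
    rw [Rr_zero, Rr_top]; ring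
  rw [hC] at hsum
  have e : (25 : ℝ) / u = 23 / u + 2 / u := by ring
  rw [e]
  linarith

theorem main_lower (k : ℕ) (hk : 100 ≤ k) :
    (1 / 8) / Real.sqrt (Real.sqrt (2 * k)) ≤
    ∑ m ∈ Finset.range (k + 1), gam (-1) m * Rr k m := by
  rw [main_eq]
  set t : ℝ := Real.sqrt (2 * k) with ht
  have hk1 : (100 : ℝ) ≤ k := by exact_mod_cast hk
  have ht2 : t ^ 2 = 2 * k := Real.sq_sqrt (by positivity)
  have ht0 : 0 ≤ t := Real.sqrt_nonneg _
  have ht1 : 14 ≤ t := by
    by_contra h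
    rw [not_le] at h
    nlinarith
  set u : ℝ := Real.sqrt t with hu
  have hu2 : u ^ 2 = t := Real.sq_sqrt ht0
  have hu0 : 0 < u := Real.sqrt_pos.2 (by linarith)
  -- s = floor (3 t) so that (s+1)^2 >= 9 t^2 = 18 k >= 2 (4k+1)
  set s : ℕ := ⌊3 * t⌋₊ with hs
  have hs1 : (s : ℝ) ≤ 3 * t := Nat.floor_le (by positivity)
  have hs2 : 3 * t < s + 1 := Nat.lt_floor_add_one _
  have hsk : s + 1 ≤ k := by
    have : (s : ℝ) + 1 ≤ k := by nlinarith
    exact_mod_cast this
  have hR : Rr k (s + 1) ≤ 1 / 2 := by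
    obtain ⟨_, _, h3⟩ := Rr_bound k (s + 1) hsk
    have h4 : 2 * (4 * (k : ℝ) + 1) ≤ (((s + 1 : ℕ) : ℝ)) ^ 2 := by
      push_cast
      have : (3 * t) ^ 2 ≤ ((s : ℝ) + 1) ^ 2 := pow_le_pow_left₀ (by positivity) hs2.le 2
      nlinarith
    by_contra h
    rw [not_le] at h
    have : (((s + 1 : ℕ) : ℝ)) ^ 2 * (1 / 2) < (((s + 1 : ℕ) : ℝ)) ^ 2 * Rr k (s + 1) :=
      mul_lt_mul_of_pos_left h (by positivity)
    linarith
  have hsub : Finset.range (s + 1) ⊆ Finset.range (k + 1) :=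
    Finset.range_subset_range.2 (by omega)
  have h1 : ∑ m ∈ Finset.range (s + 1), Gs (-1) m * (Rr k m - Rr k (m + 1)) ≤
      ∑ m ∈ Finset.range (k + 1), Gs (-1) m * (Rr k m - Rr k (m + 1)) := by
    apply Finset.sum_le_sum_of_subset_of_nonneg hsub
    intro m hm _
    rw [Finset.mem_range] at hm
    exact mul_nonneg (Gm_pos m).le (Rr_diff_nonneg k m (by omega))
  have h2 : ∑ m ∈ Finset.range (s + 1), Gs (-1) s * (Rr k m - Rr k (m + 1)) ≤
      ∑ m ∈ Finset.range (s + 1), Gs (-1) m * (Rr k m - Rr k (m + 1)) := by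
    apply Finset.sum_le_sum
    intro m hm
    rw [Finset.mem_range] at hm
    exact mul_le_mul_of_nonneg_right (Gm_anti (by omega)) (Rr_diff_nonneg k m (by omega))
  rw [← Finset.mul_sum, Finset.sum_range_sub', Rr_zero] at h2
  have h3 : Gs (-1) s * (1 / 2) ≤ Gs (-1) s * (1 - Rr k (s + 1)) :=
    mul_le_mul_of_nonneg_left (by linarith) (Gm_pos s).le
  have h4 := le_Gm s
  have h5 : (1 / 4) / u ≤ (1 / 2) / Real.sqrt ((s : ℝ) + 1) := by
    have h6 : Real.sqrt ((s : ℝ) + 1) ≤ 2 * u := by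
      rw [hu, show (2 : ℝ) = Real.sqrt 4 by
        rw [show (4 : ℝ) = 2 ^ 2 by norm_num, Real.sqrt_sq (by norm_num)],
        ← Real.sqrt_mul (by norm_num)]
      apply Real.sqrt_le_sqrt
      linarith
    have h7 : 0 < Real.sqrt ((s : ℝ) + 1) := Real.sqrt_pos.2 (by positivity)
    rw [div_le_div_iff₀ hu0 h7]
    linarith
  have e : (1 / 8) / u = ((1 / 4) / u) * (1 / 2) := by ring
  rw [e]
  have h8 : ((1 / 4) / u) * (1 / 2) ≤ Gs (-1) s * (1 / 2) :=
    mul_le_mul_of_nonneg_right (le_trans h5 h4) (by norm_num)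
  linarith

theorem rpow_quarter (k : ℕ) :
    ((2*k : ℕ) : ℝ) ^ (-(1/4 : ℝ)) = 1 / Real.sqrt (Real.sqrt (2 * k)) := by
  rw [Real.rpow_neg (Nat.cast_nonneg _), one_div]
  congr 1
  rw [Real.sqrt_eq_rpow, Real.sqrt_eq_rpow, ← Real.rpow_mul (by positivity)]
  push_cast
  norm_num

theorem main_sum : ∃ c C : ℝ, 0 < c ∧ 0 < C ∧ ∃ N : ℕ, ∀ k : ℕ, N ≤ k →
    c * ((2*k : ℕ) : ℝ) ^ (-(1/4 : ℝ)) ≤ ∑ m ∈ Finset.range (k+1), gam (-1) m * Rr k m ∧
    ∑ m ∈ Finset.range (k+1), gam (-1) m * Rr k m ≤ C * ((2*k : ℕ) : ℝ) ^ (-(1/4 : ℝ)) := by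
  refine ⟨1 / 8, 25, by norm_num, by norm_num, 100, fun k hk => ?_⟩
  rw [rpow_quarter, mul_one_div, mul_one_div]
  exact ⟨main_lower k hk, main_upper k (by omega)⟩

end Pool.Agent.Helper91_SR
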