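import Pool.Agent.Helper91_SR.Assemble
import Pool.Agent.Helper91_SR.SeqF
set_option autoImplicit false
namespace Pool.Agent.Helper91_SR
open Equiv Finset Classical MeasureTheory

/-- the contribution of the set `T` of long people -/
noncomputable def inner {n : ℕ} (T : Finset (Fin n)) : ℝ :=
  ∑ μ ∈ univ.filter (fun μ : Perm (Fin n) => MatchOn T μ),
    ∑ σ ∈ univ.filter (fun σ : Perm (Fin n) => LongOn T σ),
      ((wt (σ * μ) : ℤ) : ℝ) * II (σ * μ)

noncomputable def hh (n k j : ℕ) : ℝ :=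
  if Even j then (dd (k - j / 2) : ℝ) * ((Nat.factorial j : ℝ) * gam (-1) (j / 2)) *
        (Real.exp (1 / 2) / (dd (k + j / 2) : ℝ)) else 0

noncomputable def bb (n k j : ℕ) : ℝ :=
  if Even j then (dd (k - j / 2) : ℝ) * (((Nat.factorial j : ℝ) * gam 1 (j / 2)) *
      (Ea n (j / 2) / (dd (k + j / 2) : ℝ)) +
      |(Nat.factorial j : ℝ) * gam (-1) (j / 2)| * (Eb n (j / 2) / (dd (k + j / 2) : ℝ))) else 0

theorem inner_bound {n k : ℕ} (hn : n = 2 * k) (hk : 0 < k) (T : Finset (Fin n)) :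
    |inner T - hh n k T.card| ≤ bb n k T.card := by
  by_cases hev : Even T.card
  · obtain ⟨m, hm⟩ := hev
    have hT : T.card = 2 * m := by omega
    have hle : T.card ≤ n := by
      have := Finset.card_le_univ T
      simpa using this
    have hmk : m ≤ k := by omega
    have h := fixed_T hn hk hT hmk
    unfold inner hh bb
    rw [hT]
    have e1 : 2 * m / 2 = m := by omega
    rw [if_pos (even_two_mul m), if_pos (even_two_mul m), e1]
    exact h
  · unfold hh bb
    rw [if_neg hev, if_neg hev]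
    have : inner T = 0 := by
      unfold inner
      apply Finset.sum_eq_zero
      intro μ _
      apply Finset.sum_eq_zero
      intro σ hσ
      rw [Finset.mem_filter] at hσ
      exact absurd (long_odd T σ hσ.2) hev
    rw [this]
    simp

theorem sum_hh {n k : ℕ} (hn : n = 2 * k) : ∑ T : Finset (Fin n), hh n k T.card =
    Real.exp (1 / 2) * ∑ m ∈ Finset.range (k + 1), gam (-1) m * Rr k m := by
  rw [sum_finset_even k hn (hh n k) (fun j hj => by unfold hh; rw [if_neg hj]), Finset.mul_sum]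
  apply Finset.sum_congr rfl
  intro m hm
  rw [Finset.mem_range] at hm
  have hmk : m ≤ k := by omega
  unfold hh
  have e1 : 2 * m / 2 = m := by omega
  rw [if_pos (even_two_mul m), e1, ← Rr_eq k m hmk]
  ring

theorem sum_bb {n k : ℕ} (hn : n = 2 * k) : ∑ T : Finset (Fin n), bb n k T.card =
    ∑ m ∈ Finset.range (k + 1), Rr k m * (gam 1 m * Ea n m + |gam (-1) m| * Eb n m) := by
  rw [sum_finset_even k hn (bb n k) (fun j hj => by unfold bb; rw [if_neg hj])]
  apply Finset.sum_congr rfl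
  intro m hm
  rw [Finset.mem_range] at hm
  have hmk : m ≤ k := by omega
  unfold bb
  have e1 : 2 * m / 2 = m := by omega
  have h2 : |(Nat.factorial (2 * m) : ℝ) * gam (-1) m| =
      (Nat.factorial (2 * m) : ℝ) * |gam (-1) m| := by
    rw [abs_mul, abs_of_nonneg (by positivity : (0 : ℝ) ≤ (Nat.factorial (2 * m) : ℝ))]
  rw [if_pos (even_two_mul m), e1, ← Rr_eq k m hmk, h2]
  ring

theorem Ea_bound {n k m : ℕ} (hn : n = 2 * k) (hk : 0 < k) (hm : m ≤ k) :
    Rr k m * Ea n m ≤ Real.exp 6 * (936 / (n : ℝ)) := by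
  obtain ⟨h0, h1, h2⟩ := Rr_bound k m hm
  have hn1 : (1 : ℝ) ≤ n := by
    have : 1 ≤ n := by omega
    exact_mod_cast this
  have hk2 : (4 * (k : ℝ) + 1) ≤ 3 * n := by
    rw [hn]; push_cast
    have : (1 : ℝ) ≤ k := by exact_mod_cast hk
    linarith
  unfold Ea
  have h3 : Rr k m * (Real.exp 6 * (312 * (m : ℝ) ^ 2 / (n : ℝ) ^ 2)) =
      Real.exp 6 * (312 * ((m : ℝ) ^ 2 * Rr k m) / (n : ℝ) ^ 2) := by ring
  rw [h3]
  apply mul_le_mul_of_nonneg_left _ (Real.exp_pos _).le
  rw [div_le_div_iff₀ (by positivity) (by positivity)]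
  nlinarith

theorem Eb_bound {n k m : ℕ} (hn : n = 2 * k) (hk : 0 < k) (hm : m ≤ k) :
    Rr k m * Eb n m ≤ Real.exp 6 * (166486 / Real.sqrt n) := by
  obtain ⟨h0, h1, h2⟩ := Rr_bound k m hm
  have hn2 : (2 : ℝ) ≤ n := by
    have : 2 ≤ n := by omega
    exact_mod_cast this
  have hk2 : (4 * (k : ℝ) + 1) ≤ 3 * n := by
    rw [hn]; push_cast
    have : (1 : ℝ) ≤ k := by exact_mod_cast hk
    linarith
  have h2' : (m : ℝ) ^ 2 * Rr k m ≤ 3 * n := h2.trans hk2
  unfold Eb
  set s := Real.sqrt n with hs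
  have hs2 : s ^ 2 = n := Real.sq_sqrt (by linarith)
  have hs1 : 1 ≤ s := by
    rw [hs, Real.one_le_sqrt]
    linarith
  have hs0 : 0 < s := by linarith
  have hn0 : (0 : ℝ) < n := by linarith
  have hm0 : (0 : ℝ) ≤ m := by positivity
  set R := Rr k m with hR
  set q := (m : ℝ) ^ 2 * R with hq
  have hq0 : 0 ≤ q := by positivity
  have e1 : R * (Real.exp 6 * (s / 2 * (8 * (m : ℝ) ^ 2 / (n : ℝ) ^ 2 + 2 / (n : ℝ)) +
      (s + 1) / 4 * (16 * (m : ℝ) ^ 2 / (n : ℝ) ^ 2 + 88 / (n : ℝ)) + 1 / s +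
      1 / 2 * (120 / (n : ℝ)) + (n + 64) * (5040 / (n : ℝ) ^ 2) +
      12 * (m : ℝ) / (n : ℝ))) =
      Real.exp 6 * (s / 2 * (8 * q / (n : ℝ) ^ 2 + 2 * R / (n : ℝ)) +
      (s + 1) / 4 * (16 * q / (n : ℝ) ^ 2 + 88 * R / (n : ℝ)) + R / s +
      1 / 2 * (120 * R / (n : ℝ)) + (n + 64) * (5040 * R / (n : ℝ) ^ 2) +
      12 * ((m : ℝ) * R) / (n : ℝ)) := by
    rw [hq]; ring
  rw [e1]
  apply mul_le_mul_of_nonneg_left _ (Real.exp_pos _).le
  -- termwise bounds
  have hqn : 8 * q / (n : ℝ) ^ 2 ≤ 24 / n := by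
    rw [div_le_div_iff₀ (by positivity) hn0]
    nlinarith
  have hqn2 : 16 * q / (n : ℝ) ^ 2 ≤ 48 / n := by
    rw [div_le_div_iff₀ (by positivity) hn0]
    nlinarith
  have hRn : 2 * R / (n : ℝ) ≤ 2 / n := by
    apply div_le_div_of_nonneg_right _ hn0.le; linarith
  have hRn2 : 88 * R / (n : ℝ) ≤ 88 / n := by
    apply div_le_div_of_nonneg_right _ hn0.le; linarith
  have hRn3 : 120 * R / (n : ℝ) ≤ 120 / n := by
    apply div_le_div_of_nonneg_right _ hn0.le; linarith
  have hsn : s / (n : ℝ) = 1 / s := by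
    rw [← hs2]; field_simp
  have hns : 1 / (n : ℝ) ≤ 1 / s := by
    rw [← hsn]
    apply div_le_div_of_nonneg_right hs1 hn0.le
  have t1 : s / 2 * (8 * q / (n : ℝ) ^ 2 + 2 * R / (n : ℝ)) ≤ 13 * (1 / s) := by
    calc s / 2 * (8 * q / (n : ℝ) ^ 2 + 2 * R / (n : ℝ)) ≤ s / 2 * (24 / n + 2 / n) := by
          apply mul_le_mul_of_nonneg_left _ (by positivity)
          linarith
      _ = 13 * (s / n) := by ring
      _ = 13 * (1 / s) := by rw [hsn]
  have t2 : (s + 1) / 4 * (16 * q / (n : ℝ) ^ 2 + 88 * R / (n : ℝ)) ≤ 68 * (1 / s) := by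
    calc (s + 1) / 4 * (16 * q / (n : ℝ) ^ 2 + 88 * R / (n : ℝ))
        ≤ (s + 1) / 4 * (48 / n + 88 / n) := by
          apply mul_le_mul_of_nonneg_left _ (by positivity)
          linarith
      _ = 34 * ((s + 1) / n) := by ring
      _ ≤ 34 * ((s + s) / n) := by
          apply mul_le_mul_of_nonneg_left _ (by norm_num)
          apply div_le_div_of_nonneg_right _ hn0.le
          linarith
      _ = 68 * (s / n) := by ring
      _ = 68 * (1 / s) := by rw [hsn]
  have t3 : R / s ≤ 1 / s := div_le_div_of_nonneg_right h1 hs0.le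
  have t4 : 1 / 2 * (120 * R / (n : ℝ)) ≤ 60 * (1 / s) := by
    have : (120 : ℝ) / n = 120 * (1 / n) := by ring
    rw [this] at hRn3
    linarith
  have t5 : ((n : ℝ) + 64) * (5040 * R / (n : ℝ) ^ 2) ≤ 166320 * (1 / s) := by
    calc ((n : ℝ) + 64) * (5040 * R / (n : ℝ) ^ 2) ≤ (33 * (n : ℝ)) * (5040 * 1 / (n : ℝ) ^ 2) := by
          apply mul_le_mul
          · linarith
          · apply div_le_div_of_nonneg_right _ (by positivity)
            linarith
          · positivity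
          · positivity
      _ = 166320 * (1 / (n : ℝ)) := by field_simp; norm_num
      _ ≤ 166320 * (1 / s) := by linarith
  have t6 : 12 * ((m : ℝ) * R) / (n : ℝ) ≤ 24 * (1 / s) := by
    have h5 : (m : ℝ) * R ≤ 2 * s := by
      have h6 : 2 * ((m : ℝ) * s) ≤ (m : ℝ) ^ 2 + s ^ 2 := by nlinarith [sq_nonneg ((m : ℝ) - s)]
      have h7 : 2 * ((m : ℝ) * s) * R ≤ ((m : ℝ) ^ 2 + s ^ 2) * R :=
        mul_le_mul_of_nonneg_right h6 h0
      have h8 : ((m : ℝ) ^ 2 + s ^ 2) * R ≤ 3 * s ^ 2 + s ^ 2 := by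
        rw [add_mul]
        have : s ^ 2 * R ≤ s ^ 2 * 1 := mul_le_mul_of_nonneg_left h1 (by positivity)
        rw [hs2] at this ⊢
        linarith
      have h9 : ((m : ℝ) * R) * s ≤ (2 * s) * s := by nlinarith
      exact le_of_mul_le_mul_right h9 hs0
    calc 12 * ((m : ℝ) * R) / (n : ℝ) ≤ 12 * (2 * s) / n := by
          apply div_le_div_of_nonneg_right _ hn0.le
          linarith
      _ = 24 * (s / n) := by ring
      _ = 24 * (1 / s) := by rw [hsn]
  have : (166486 : ℝ) / s = 166486 * (1 / s) := by ring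
  rw [this]
  linarith

theorem PP_main {n k : ℕ} (hn : n = 2 * k) (hk : 0 < k) :
    |PP n - Real.exp (1 / 2) * ∑ m ∈ Finset.range (k + 1), gam (-1) m * Rr k m| ≤
      Real.exp 6 * 334844 / Real.sqrt n := by
  have h1 : PP n = ∑ T : Finset (Fin n), inner T := by
    rw [PP_eq, sum_even]
    rfl
  rw [h1, ← sum_hh hn, ← Finset.sum_sub_distrib]
  refine (Finset.abs_sum_le_sum_abs _ _).trans ?_
  refine (Finset.sum_le_sum fun T _ => inner_bound hn hk T).trans ?_
  rw [sum_bb hn]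
  have hn2 : (2 : ℝ) ≤ n := by
    have : 2 ≤ n := by omega
    exact_mod_cast this
  set s := Real.sqrt n with hs
  have hs2 : s ^ 2 = n := Real.sq_sqrt (by linarith)
  have hs1 : 1 ≤ s := by
    rw [hs, Real.one_le_sqrt]
    linarith
  have hs0 : 0 < s := by linarith
  have hn0 : (0 : ℝ) < n := by linarith
  have hstep : ∀ m ∈ Finset.range (k + 1),
      Rr k m * (gam 1 m * Ea n m + |gam (-1) m| * Eb n m) ≤
      (1 / Real.sqrt (m + 1)) * (Real.exp 6 * (936 / (n : ℝ))) +
        |gam (-1) m| * (Real.exp 6 * (166486 / s)) := by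
    intro m hm
    rw [Finset.mem_range] at hm
    have hmk : m ≤ k := by omega
    obtain ⟨g0, g1⟩ := gam_one_bound m
    have a1 := Ea_bound hn hk hmk
    have a2 := Eb_bound hn hk hmk
    have hE0 : 0 ≤ Rr k m * Ea n m := by
      have := (Rr_bound k m hmk).1
      unfold Ea
      positivity
    calc Rr k m * (gam 1 m * Ea n m + |gam (-1) m| * Eb n m)
        = gam 1 m * (Rr k m * Ea n m) + |gam (-1) m| * (Rr k m * Eb n m) := by ring
      _ ≤ _ := by
          apply add_le_add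
          · exact mul_le_mul g1 a1 hE0 (by positivity)
          · exact mul_le_mul_of_nonneg_left a2 (abs_nonneg _)
  refine (Finset.sum_le_sum hstep).trans ?_
  rw [Finset.sum_add_distrib, ← Finset.sum_mul, ← Finset.sum_mul]
  have b1 := sum_inv_sqrt k
  have b2 := gam_abs_sum (k + 1)
  have hexp := Real.exp_pos 6
  have hsk : Real.sqrt (k + 1) ≤ s := by
    rw [hs]
    apply Real.sqrt_le_sqrt
    rw [hn]; push_cast
    have : (1 : ℝ) ≤ k := by exact_mod_cast hk
    linarith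
  have hsn : s / (n : ℝ) = 1 / s := by
    rw [← hs2]; field_simp
  calc (∑ m ∈ Finset.range (k + 1), 1 / Real.sqrt (m + 1)) * (Real.exp 6 * (936 / (n : ℝ))) +
      (∑ m ∈ Finset.range (k + 1), |gam (-1) m|) * (Real.exp 6 * (166486 / s))
      ≤ (2 * s) * (Real.exp 6 * (936 / (n : ℝ))) + 2 * (Real.exp 6 * (166486 / s)) := by
        apply add_le_add
        · apply mul_le_mul_of_nonneg_right _ (by positivity)
          linarith
        · apply mul_le_mul_of_nonneg_right b2 (by positivity)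
    _ = Real.exp 6 * (1872 * (s / n)) + Real.exp 6 * (332972 / s) := by ring
    _ = Real.exp 6 * 334844 / s := by rw [hsn]; ring

theorem PP_theta : ∃ c C : ℝ, 0 < c ∧ 0 < C ∧ ∃ N : ℕ, ∀ n : ℕ, N ≤ n → Even n →
      c * (n : ℝ) ^ (-(1 / 4 : ℝ)) ≤ PP n ∧ PP n ≤ C * (n : ℝ) ^ (-(1 / 4 : ℝ)) := by
  obtain ⟨c, C, hc, hC, N, hN⟩ := main_sum
  set K := Real.exp 6 * 334844 with hK
  have hK0 : 0 < K := by positivity
  obtain ⟨N2, hN2⟩ := exists_nat_ge ((2 * K / c) ^ 4)
  refine ⟨c / 2, Real.exp (1 / 2) * C + K, by positivity, by positivity,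
    max (2 * N + 2) (N2 + 2), ?_⟩
  intro n hn hev
  obtain ⟨k, hk⟩ := hev
  have hn' : n = 2 * k := by omega
  have hn1 : 2 * N + 2 ≤ n := le_trans (le_max_left _ _) hn
  have hn3 : N2 + 2 ≤ n := le_trans (le_max_right _ _) hn
  have hk0 : 0 < k := by omega
  have hkN : N ≤ k := by omega
  obtain ⟨l1, l2⟩ := hN k hkN
  have hmain := PP_main hn' hk0
  rw [← hn'] at l1 l2
  rw [← hK] at hmain
  set S := ∑ m ∈ Finset.range (k + 1), gam (-1) m * Rr k m with hS
  set t := (n : ℝ) ^ (-(1 / 4 : ℝ)) with ht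
  have hnpos : (0 : ℝ) < n := by
    have : 0 < n := by omega
    exact_mod_cast this
  have ht0 : 0 < t := Real.rpow_pos_of_pos hnpos _
  have hn1' : (1 : ℝ) ≤ n := by
    have : 1 ≤ n := by omega
    exact_mod_cast this
  have ht1 : t ≤ 1 := by
    rw [ht]
    apply Real.rpow_le_one_of_one_le_of_nonpos hn1' (by norm_num)
  have hsq : 1 / Real.sqrt n = t * t := by
    rw [ht, ← Real.rpow_add hnpos, Real.sqrt_eq_rpow, one_div, ← Real.rpow_neg hnpos.le]
    norm_num
  have hdiv : K / Real.sqrt n = K * (t * t) := by rw [← hsq]; ring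
  rw [hdiv] at hmain
  have he1 : (1 : ℝ) ≤ Real.exp (1 / 2) := Real.one_le_exp (by norm_num)
  obtain ⟨m1, m2⟩ := abs_le.mp hmain
  -- `K t ≤ c / 2`
  have hKt : K * t ≤ c / 2 := by
    have h4 : (2 * K / c) ^ 4 ≤ n := by
      refine hN2.trans ?_
      have : N2 ≤ n := by omega
      exact_mod_cast this
    have h5 : t ^ 4 = 1 / n := by
      rw [ht, ← Real.rpow_natCast, ← Real.rpow_mul hnpos.le]
      norm_num
      rw [Real.rpow_neg_one]
    have h6 : (2 * K / c * t) ^ 4 ≤ 1 := by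
      rw [mul_pow, h5]
      rw [mul_one_div, div_le_one hnpos]
      exact h4
    have h7 : 2 * K / c * t ≤ 1 := by
      by_contra hcon
      rw [not_le] at hcon
      have := one_lt_pow₀ hcon (by norm_num : (4 : ℕ) ≠ 0)
      linarith
    have h8 : 2 * K * t ≤ c := by
      have h9 : 2 * K / c * t = 2 * K * t / c := by ring
      rw [h9, div_le_one hc] at h7
      exact h7
    linarith
  constructor
  · have h1 : Real.exp (1 / 2) * S ≥ c * t := by
      have hS0 : 0 ≤ S := le_trans (by positivity) l1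
      nlinarith
    have h2 : K * (t * t) ≤ c / 2 * t := by
      have := mul_le_mul_of_nonneg_right hKt ht0.le
      linarith
    linarith
  · have h1 : Real.exp (1 / 2) * S ≤ Real.exp (1 / 2) * (C * t) :=
      mul_le_mul_of_nonneg_left l2 (by positivity)
    have h2 : K * (t * t) ≤ K * t := by
      have : t * t ≤ t * 1 := mul_le_mul_of_nonneg_left ht1 ht0.le
      nlinarith
    nlinarith

end Pool.Agent.Helper91_SR
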