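import Pool.Agent.Helper91_SR.MomentD
set_option autoImplicit false
namespace Pool.Agent.Helper91_SR
open Equiv Finset Classical MeasureTheory

noncomputable def wT {n : ℕ} (T : Finset (Fin n)) (x : Fin n → ℝ) : ℝ := (∏ i ∈ T, x i) * gw x

/-- the exponent of the base weight -/
noncomputable def tau {n : ℕ} (T : Finset (Fin n)) (i : Fin n) : ℕ := if i ∈ T then 1 else 0

variable (n k m : ℕ) (hn : n = 2*k) (hk : 0 < k) (T : Finset (Fin n)) (hT : T.card = 2*m)
include hn hk hT

theorem mom_T (e : Fin n → ℕ) (j : ℕ) (he : ∑ i, e i = 2 * j) :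
    IntegrableOn (fun x => wT T x * ∏ i, x i ^ e i) (orth n) ∧
    ∫ x in orth n, wT T x * ∏ i, x i ^ e i =
      (∏ i, (Nat.factorial (tau T i + e i) : ℝ)) / (dd (k + m + j) : ℝ) := by
  have hsum : ∑ i, tau T i = 2 * m := by
    unfold tau
    rw [Finset.sum_ite_mem, Finset.univ_inter, Finset.sum_const, hT]
    simp
  have h := moment (fun i => tau T i + e i) (k + m + j)
    (by rw [Finset.sum_add_distrib, hsum, he, hn]; ring) (by omega)
  have heq : (fun x : Fin n → ℝ => (∏ i, x i ^ (tau T i + e i)) * gw x) =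
      fun x => wT T x * ∏ i, x i ^ e i := by
    funext x
    unfold wT
    have h1 : ∏ i, x i ^ (tau T i + e i) = (∏ i ∈ T, x i) * ∏ i, x i ^ e i := by
      simp only [pow_add, Finset.prod_mul_distrib]
      congr 1
      unfold tau
      rw [← Finset.prod_subset (Finset.subset_univ T)]
      · apply Finset.prod_congr rfl
        intro i hi
        rw [if_pos hi, pow_one]
      · intro i _ hi
        rw [if_neg hi, pow_zero]
    rw [h1]
    ring
  rw [heq] at h
  exact h

theorem mom_single (i : Fin n) (j : ℕ) :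
    IntegrableOn (fun x => wT T x * x i ^ (2 * j)) (orth n) ∧
    ∫ x in orth n, wT T x * x i ^ (2 * j) =
      (Nat.factorial (tau T i + 2 * j) : ℝ) / (dd (k + m + j) : ℝ) := by
  have h := mom_T n k m hn hk T hT (Pi.single i (2 * j)) j (by simp)
  have h1 : ∀ x : Fin n → ℝ, ∏ l, x l ^ (Pi.single i (2 * j) : Fin n → ℕ) l = x i ^ (2 * j) := by
    intro x
    rw [Finset.prod_eq_single i]
    · simp
    · intro l _ hl
      rw [Pi.single_eq_of_ne hl, pow_zero]
    · intro h; exact absurd (Finset.mem_univ i) h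
  have h2 : ∏ l, (Nat.factorial (tau T l + (Pi.single i (2 * j) : Fin n → ℕ) l) : ℝ) =
      (Nat.factorial (tau T i + 2 * j) : ℝ) := by
    rw [Finset.prod_eq_single i]
    · simp
    · intro l _ hl
      rw [Pi.single_eq_of_ne hl]
      unfold tau
      split_ifs <;> simp
    · intro h; exact absurd (Finset.mem_univ i) h
  simp only [h1, h2] at h
  exact h

theorem mom_pair (i l : Fin n) :
    IntegrableOn (fun x => wT T x * (x i ^ 2 * x l ^ 2)) (orth n) ∧
    ∫ x in orth n, wT T x * (x i ^ 2 * x l ^ 2) =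
      (if i = l then (Nat.factorial (tau T i + 4) : ℝ) else
        (Nat.factorial (tau T i + 2) : ℝ) * (Nat.factorial (tau T l + 2) : ℝ)) /
        (dd (k + m + 2) : ℝ) := by
  by_cases hil : i = l
  · subst hil
    have h := mom_single n k m hn hk T hT i 2
    have h1 : ∀ x : Fin n → ℝ, x i ^ 2 * x i ^ 2 = x i ^ (2 * 2) := by
      intro x; ring
    simp only [h1, if_true]
    exact h
  · have h := mom_T n k m hn hk T hT (Pi.single i 2 + Pi.single l 2) 2
      (by simp [Finset.sum_add_distrib])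
    have h1 : ∀ x : Fin n → ℝ,
        ∏ s, x s ^ (Pi.single i 2 + Pi.single l 2 : Fin n → ℕ) s = x i ^ 2 * x l ^ 2 := by
      intro x
      simp only [Pi.add_apply, pow_add, Finset.prod_mul_distrib]
      congr 1
      · rw [Finset.prod_eq_single i]
        · simp
        · intro s _ hs
          rw [Pi.single_eq_of_ne hs, pow_zero]
        · intro h; exact absurd (Finset.mem_univ i) h
      · rw [Finset.prod_eq_single l]
        · simp
        · intro s _ hs
          rw [Pi.single_eq_of_ne hs, pow_zero]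
        · intro h; exact absurd (Finset.mem_univ l) h
    have h2 : ∏ s, (Nat.factorial (tau T s + (Pi.single i 2 + Pi.single l 2 : Fin n → ℕ) s) : ℝ) =
        (Nat.factorial (tau T i + 2) : ℝ) * (Nat.factorial (tau T l + 2) : ℝ) := by
      rw [← Finset.mul_prod_erase Finset.univ _ (Finset.mem_univ i)]
      have hl : l ∈ Finset.univ.erase i := by simp [Ne.symm hil]
      rw [← Finset.mul_prod_erase (Finset.univ.erase i) _ hl]
      have h3 : ∏ s ∈ (Finset.univ.erase i).erase l,
          (Nat.factorial (tau T s + (Pi.single i 2 + Pi.single l 2 : Fin n → ℕ) s) : ℝ) = 1 := by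
        apply Finset.prod_eq_one
        intro s hs
        rw [Finset.mem_erase, Finset.mem_erase] at hs
        rw [Pi.add_apply, Pi.single_eq_of_ne hs.2.1, Pi.single_eq_of_ne hs.1]
        unfold tau
        split_ifs <;> simp
      rw [h3]
      simp [hil, Ne.symm hil]
    simp only [h1, h2] at h
    rw [if_neg hil]
    exact h

omit hn hk hT in
theorem ddr_pos (k : ℕ) : (0 : ℝ) < dd k := by
  have : 0 < dd k := by
    induction k with
    | zero => simp [dd]
    | succ k ih => rw [dd]; positivity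
  exact_mod_cast this

omit hk hT in
theorem dd_one : (n : ℝ) * dd (k + m) ≤ dd (k + m + 1) := by
  have h : (dd (k + m + 1) : ℝ) = (2 * ((k : ℝ) + m) + 1) * dd (k + m) := by
    rw [dd]; push_cast; ring
  rw [h, hn]
  apply mul_le_mul_of_nonneg_right _ (ddr_pos _).le
  push_cast
  have : (0 : ℝ) ≤ m := by positivity
  linarith

omit hk hT in
theorem dd_two : (n : ℝ) ^ 2 * dd (k + m) ≤ dd (k + m + 2) := by
  have h1 := dd_one n k m hn
  have h2 := dd_one n k (m + 1) hn
  have e1 : k + (m + 1) = k + m + 1 := by ring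
  rw [e1] at h2
  have hn0 : (0 : ℝ) ≤ n := by positivity
  calc (n : ℝ) ^ 2 * dd (k + m) = n * (n * dd (k + m)) := by ring
    _ ≤ n * dd (k + m + 1) := mul_le_mul_of_nonneg_left h1 hn0
    _ ≤ dd (k + m + 2) := h2

omit hk hT in
theorem dd_three : (n : ℝ) ^ 3 * dd (k + m) ≤ dd (k + m + 3) := by
  have h1 := dd_two n k m hn
  have h2 := dd_one n k (m + 2) hn
  have e1 : k + (m + 2) = k + m + 2 := by ring
  rw [e1] at h2
  have hn0 : (0 : ℝ) ≤ n := by positivity
  calc (n : ℝ) ^ 3 * (dd (k + m) : ℝ) = (n : ℝ) * ((n : ℝ) ^ 2 * (dd (k + m) : ℝ)) := by ring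
    _ ≤ (n : ℝ) * (dd (k + m + 2) : ℝ) := mul_le_mul_of_nonneg_left h1 hn0
    _ ≤ (dd (k + m + 3) : ℝ) := h2

theorem M0 : IntegrableOn (fun x => wT T x) (orth n) ∧ ∫ x in orth n, wT T x = 1 / (dd (k+m) : ℝ) := by
  have h := mom_T n k m hn hk T hT (fun _ => 0) 0 (by simp)
  have h2 : ∏ i, (Nat.factorial (tau T i + 0) : ℝ) = 1 := by
    apply Finset.prod_eq_one
    intro i _
    unfold tau
    split_ifs <;> simp
  simp only [pow_zero, Finset.prod_const_one, mul_one, h2] at h
  exact h

omit hn hk hT in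
theorem tau_le (i : Fin n) : tau T i ≤ 1 := by
  unfold tau; split_ifs <;> simp

theorem M3 : IntegrableOn (fun x => wT T x * ∑ i, x i ^ 4) (orth n) ∧ ∫ x in orth n, wT T x * ∑ i, x i ^ 4 ≤ (120/(n:ℝ)) / (dd (k+m) : ℝ) := by
  have hi : ∀ i : Fin n, IntegrableOn (fun x => wT T x * x i ^ 4) (orth n) ∧
      ∫ x in orth n, wT T x * x i ^ 4 ≤ 120 / (dd (k + m + 2) : ℝ) := by
    intro i
    have h := mom_single n k m hn hk T hT i 2
    refine ⟨h.1, ?_⟩
    have h2 := h.2
    rw [show 2 * 2 = 4 by norm_num] at h2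
    rw [h2]
    apply div_le_div_of_nonneg_right _ (ddr_pos _).le
    have h3 : Nat.factorial (tau T i + 4) ≤ Nat.factorial 5 :=
      Nat.factorial_le (by have := tau_le n T i; omega)
    have h4 : Nat.factorial 5 = 120 := by decide
    rw [h4] at h3
    exact_mod_cast h3
  have hn0 : (0 : ℝ) < n := by
    have : 0 < n := by omega
    exact_mod_cast this
  simp only [Finset.mul_sum]
  constructor
  · exact integrable_finsetSum _ fun i _ => (hi i).1
  · rw [integral_finsetSum _ fun i _ => (hi i).1]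
    calc ∑ i, ∫ x in orth n, wT T x * x i ^ 4 ≤ ∑ _i : Fin n, 120 / (dd (k + m + 2) : ℝ) :=
          Finset.sum_le_sum fun i _ => (hi i).2
      _ = n * (120 / (dd (k + m + 2) : ℝ)) := by simp
      _ ≤ n * (120 / (n ^ 2 * dd (k + m))) := by
          apply mul_le_mul_of_nonneg_left _ hn0.le
          apply div_le_div_of_nonneg_left (by norm_num) _ (dd_two n k m hn)
          have := ddr_pos (k + m)
          positivity
      _ = _ := by
          have := ddr_pos (k + m)
          field_simp

theorem M4 : IntegrableOn (fun x => wT T x * ∑ i, x i ^ 6) (orth n) ∧ ∫ x in orth n, wT T x * ∑ i, x i ^ 6 ≤ (5040/(n:ℝ)^2) / (dd (k+m) : ℝ) := by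
  have hi : ∀ i : Fin n, IntegrableOn (fun x => wT T x * x i ^ 6) (orth n) ∧
      ∫ x in orth n, wT T x * x i ^ 6 ≤ 5040 / (dd (k + m + 3) : ℝ) := by
    intro i
    have h := mom_single n k m hn hk T hT i 3
    refine ⟨h.1, ?_⟩
    have h2 := h.2
    rw [show 2 * 3 = 6 by norm_num] at h2
    rw [h2]
    apply div_le_div_of_nonneg_right _ (ddr_pos _).le
    have h3 : Nat.factorial (tau T i + 6) ≤ Nat.factorial 7 :=
      Nat.factorial_le (by have := tau_le n T i; omega)
    have h4 : Nat.factorial 7 = 5040 := by decide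
    rw [h4] at h3
    exact_mod_cast h3
  have hn0 : (0 : ℝ) < n := by
    have : 0 < n := by omega
    exact_mod_cast this
  simp only [Finset.mul_sum]
  constructor
  · exact integrable_finsetSum _ fun i _ => (hi i).1
  · rw [integral_finsetSum _ fun i _ => (hi i).1]
    calc ∑ i, ∫ x in orth n, wT T x * x i ^ 6 ≤ ∑ _i : Fin n, 5040 / (dd (k + m + 3) : ℝ) :=
          Finset.sum_le_sum fun i _ => (hi i).2
      _ = n * (5040 / (dd (k + m + 3) : ℝ)) := by simp
      _ ≤ n * (5040 / (n ^ 3 * dd (k + m))) := by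
          apply mul_le_mul_of_nonneg_left _ hn0.le
          apply div_le_div_of_nonneg_left (by norm_num) _ (dd_three n k m hn)
          have := ddr_pos (k + m)
          positivity
      _ = _ := by
          have := ddr_pos (k + m)
          field_simp

theorem M5 : IntegrableOn (fun x => wT T x * ∑ i ∈ T, x i ^ 2) (orth n) ∧ ∫ x in orth n, wT T x * ∑ i ∈ T, x i ^ 2 ≤ (12*(m:ℝ)/(n:ℝ)) / (dd (k+m) : ℝ) := by
  have hi : ∀ i ∈ T, IntegrableOn (fun x => wT T x * x i ^ 2) (orth n) ∧
      ∫ x in orth n, wT T x * x i ^ 2 = 6 / (dd (k + m + 1) : ℝ) := by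
    intro i hi
    have h := mom_single n k m hn hk T hT i 1
    have h3 : Nat.factorial (tau T i + 2 * 1) = 6 := by
      unfold tau
      rw [if_pos hi]
      decide
    rw [h3, show 2 * 1 = 2 by norm_num] at h
    exact_mod_cast h
  have hn0 : (0 : ℝ) < n := by
    have : 0 < n := by omega
    exact_mod_cast this
  simp only [Finset.mul_sum]
  constructor
  · exact integrable_finsetSum _ fun i hiT => (hi i hiT).1
  · rw [integral_finsetSum _ fun i hiT => (hi i hiT).1]
    rw [Finset.sum_congr rfl fun i hiT => (hi i hiT).2, Finset.sum_const, hT, nsmul_eq_mul]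
    push_cast
    calc 2 * (m : ℝ) * (6 / (dd (k + m + 1) : ℝ)) ≤ 2 * (m : ℝ) * (6 / (n * dd (k + m))) := by
          apply mul_le_mul_of_nonneg_left _ (by positivity)
          apply div_le_div_of_nonneg_left (by norm_num) _ (dd_one n k m hn)
          have := ddr_pos (k + m)
          positivity
      _ = _ := by
          have := ddr_pos (k + m)
          field_simp
          ring

theorem M6 : IntegrableOn (fun x => wT T x * (∑ i ∈ T, x i ^ 2) ^ 2) (orth n) ∧ ∫ x in orth n, wT T x * (∑ i ∈ T, x i ^ 2) ^ 2 ≤ (312*(m:ℝ)^2/(n:ℝ)^2) / (dd (k+m) : ℝ) := by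
  have hi : ∀ i ∈ T, ∀ l ∈ T, IntegrableOn (fun x => wT T x * (x i ^ 2 * x l ^ 2)) (orth n) ∧
      ∫ x in orth n, wT T x * (x i ^ 2 * x l ^ 2) =
        (36 + if i = l then 84 else 0) / (dd (k + m + 2) : ℝ) := by
    intro i hi l hl
    have h := mom_pair n k m hn hk T hT i l
    have h3 : tau T i = 1 := by unfold tau; rw [if_pos hi]
    have h4 : tau T l = 1 := by unfold tau; rw [if_pos hl]
    rw [h3, h4] at h
    refine ⟨h.1, ?_⟩
    rw [h.2]
    congr 1
    split_ifs
    · have : Nat.factorial (1 + 4) = 120 := by decide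
      rw [this]; norm_num
    · have : Nat.factorial (1 + 2) = 6 := by decide
      rw [this]; norm_num
  have hexp : ∀ x : Fin n → ℝ, wT T x * (∑ i ∈ T, x i ^ 2) ^ 2 =
      ∑ i ∈ T, ∑ l ∈ T, wT T x * (x i ^ 2 * x l ^ 2) := by
    intro x
    rw [sq, Finset.sum_mul_sum, Finset.mul_sum]
    apply Finset.sum_congr rfl
    intro i _
    rw [Finset.mul_sum]
  have hn0 : (0 : ℝ) < n := by
    have : 0 < n := by omega
    exact_mod_cast this
  simp only [hexp]
  have hint : ∀ i ∈ T, IntegrableOn (fun x => ∑ l ∈ T, wT T x * (x i ^ 2 * x l ^ 2)) (orth n) :=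
    fun i hiT => integrable_finsetSum _ fun l hlT => (hi i hiT l hlT).1
  constructor
  · exact integrable_finsetSum _ hint
  · rw [integral_finsetSum _ hint]
    have h5 : ∀ i ∈ T, ∫ x in orth n, ∑ l ∈ T, wT T x * (x i ^ 2 * x l ^ 2) =
        (2 * (m : ℝ) * 36 + 84) / (dd (k + m + 2) : ℝ) := by
      intro i hiT
      rw [integral_finsetSum _ fun l hlT => (hi i hiT l hlT).1]
      rw [Finset.sum_congr rfl fun l hlT => (hi i hiT l hlT).2, ← Finset.sum_div]
      congr 1
      rw [Finset.sum_add_distrib, Finset.sum_const, hT, Finset.sum_ite_eq, if_pos hiT,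
        nsmul_eq_mul]
      push_cast
      ring
    rw [Finset.sum_congr rfl h5, Finset.sum_const, hT, nsmul_eq_mul]
    push_cast
    have hd := ddr_pos (k + m)
    rcases Nat.eq_zero_or_pos m with h | h
    · rw [h]; simp
    · have hm1 : (1 : ℝ) ≤ m := by exact_mod_cast h
      calc 2 * (m : ℝ) * ((2 * (m : ℝ) * 36 + 84) / (dd (k + m + 2) : ℝ))
          = (2 * (m : ℝ) * (2 * (m : ℝ) * 36 + 84)) / (dd (k + m + 2) : ℝ) := by ring
        _ ≤ (312 * (m : ℝ) ^ 2) / (dd (k + m + 2) : ℝ) := by
            apply div_le_div_of_nonneg_right _ (ddr_pos _).le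
            nlinarith
        _ ≤ (312 * (m : ℝ) ^ 2) / (n ^ 2 * dd (k + m)) := by
            apply div_le_div_of_nonneg_left (by positivity) _ (dd_two n k m hn)
            positivity
        _ = _ := by
            field_simp

end Pool.Agent.Helper91_SR
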