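import Mathlib
import Pool.Agent.Helper91_SR.Defs

/-!
# Moments of the Gaussian weight of the coordinate sum on the positive orthant (module D1)
-/

set_option autoImplicit false

namespace Pool.Agent.Helper91_SR

open Equiv Finset Classical MeasureTheory
open scoped ENNReal Nat

/-- Lebesgue measure on the positive half line -/
noncomputable def nuP : Measure ℝ := volume.restrict (Set.Ioi (0 : ℝ))

instance : SigmaFinite nuP := by unfold nuP; infer_instance

/-- integration over the half line started at the argument -/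
noncomputable def Iop (h : ℝ → ℝ≥0∞) (s : ℝ) : ℝ≥0∞ := ∫⁻ x, h (s + x) ∂nuP

lemma measurable_Iop {h : ℝ → ℝ≥0∞} (hm : Measurable h) : Measurable (Iop h) := by
  unfold Iop
  have : Measurable (Function.uncurry fun s x : ℝ => h (s + x)) :=
    hm.comp (measurable_fst.add measurable_snd)
  exact this.lintegral_prod_right'

lemma measurable_Iop_iter {h : ℝ → ℝ≥0∞} (hm : Measurable h) (k : ℕ) :
    Measurable (Iop^[k] h) := by
  induction k generalizing h with
  | zero => simpa using hm
  | succ k ih => rw [Function.iterate_succ_apply]; exact ih (measurable_Iop hm)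

/-- translation: integrating over `x > y` -/
lemma lintegral_Ioi_translate (g : ℝ → ℝ≥0∞) (y : ℝ) :
    ∫⁻ x in Set.Ioi y, g x = ∫⁻ z in Set.Ioi (0 : ℝ), g (y + z) := by
  have h1 : MeasurePreserving (fun z : ℝ => y + z) volume volume :=
    measurePreserving_add_left volume y
  have h2 := h1.setLIntegral_comp_preimage_emb
    (MeasurableEquiv.addLeft y).measurableEmbedding g (Set.Ioi y)
  rw [← h2]
  congr 2
  ext z
  simp

lemma lintegral_pow_mul {h : ℝ → ℝ≥0∞} (hm : Measurable h) (k : ℕ) (s : ℝ) :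
    ∫⁻ x, ENNReal.ofReal (x ^ k) * h (s + x) ∂nuP = (k ! : ℝ≥0∞) * (Iop^[k + 1] h) s := by
  induction k generalizing h s with
  | zero => simp [Iop]
  | succ k ih =>
    have key : ∀ x : ℝ, 0 < x → ENNReal.ofReal (x ^ (k + 1)) =
        ((k + 1 : ℕ) : ℝ≥0∞) * ∫⁻ y in Set.Ioo (0 : ℝ) x, ENNReal.ofReal (y ^ k) := by
      intro x hx
      have h1 : ∫ y in (0 : ℝ)..x, y ^ k = x ^ (k + 1) / (k + 1) := by
        rw [integral_pow]; simp
      have h2 : ∫⁻ y in Set.Ioo (0 : ℝ) x, ENNReal.ofReal (y ^ k) =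
          ENNReal.ofReal (x ^ (k + 1) / (k + 1)) := by
        rw [← h1, intervalIntegral.integral_of_le hx.le, integral_Ioc_eq_integral_Ioo]
        rw [ofReal_integral_eq_lintegral_ofReal]
        · have : IntegrableOn (fun y : ℝ => y ^ k) (Set.Icc 0 x) :=
            (continuous_pow k).continuousOn.integrableOn_Icc
          exact this.mono_set Set.Ioo_subset_Icc_self
        · filter_upwards [ae_restrict_mem measurableSet_Ioo] with y hy
          exact pow_nonneg hy.1.le k
      rw [h2, ← ENNReal.ofReal_natCast, ← ENNReal.ofReal_mul (by positivity)]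
      congr 1
      push_cast
      field_simp
    -- rewrite the left-hand side as a double integral
    have hL : ∫⁻ x, ENNReal.ofReal (x ^ (k + 1)) * h (s + x) ∂nuP =
        ∫⁻ x, ∫⁻ y, (Set.Iio x).indicator (fun _ => (1 : ℝ≥0∞)) y *
          (((k + 1 : ℕ) : ℝ≥0∞) * ENNReal.ofReal (y ^ k) * h (s + x)) ∂nuP ∂nuP := by
      unfold nuP
      refine setLIntegral_congr_fun measurableSet_Ioi ?_
      intro x hx
      have hx' : (0 : ℝ) < x := hx
      simp only
      rw [key x hx']
      have e1 : ∀ y : ℝ, (Set.Iio x).indicator (fun _ => (1 : ℝ≥0∞)) y *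
          (((k + 1 : ℕ) : ℝ≥0∞) * ENNReal.ofReal (y ^ k) * h (s + x)) =
          (Set.Iio x).indicator (fun y => ((k + 1 : ℕ) : ℝ≥0∞) * ENNReal.ofReal (y ^ k) *
            h (s + x)) y := by
        intro y
        by_cases hy : y ∈ Set.Iio x
        · simp [Set.indicator_of_mem hy]
        · simp [Set.indicator_of_notMem hy]
      simp_rw [e1]
      rw [lintegral_indicator measurableSet_Iio, Measure.restrict_restrict measurableSet_Iio]
      have e2 : Set.Iio x ∩ Set.Ioi (0 : ℝ) = Set.Ioo 0 x := by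
        ext y; simp [and_comm]
      rw [e2]
      rw [lintegral_mul_const, lintegral_const_mul]
      · exact ENNReal.measurable_ofReal.comp (measurable_id.pow_const k)
      · exact (ENNReal.measurable_ofReal.comp (measurable_id.pow_const k)).const_mul _
    rw [hL]
    rw [lintegral_lintegral_swap]
    · -- inner integral
      have hI : ∀ y : ℝ, 0 < y → ∫⁻ x, (Set.Iio x).indicator (fun _ => (1 : ℝ≥0∞)) y *
          (((k + 1 : ℕ) : ℝ≥0∞) * ENNReal.ofReal (y ^ k) * h (s + x)) ∂nuP =
          ((k + 1 : ℕ) : ℝ≥0∞) * (ENNReal.ofReal (y ^ k) * Iop h (s + y)) := by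
        intro y hy
        have e1 : ∀ x : ℝ, (Set.Iio x).indicator (fun _ => (1 : ℝ≥0∞)) y *
            (((k + 1 : ℕ) : ℝ≥0∞) * ENNReal.ofReal (y ^ k) * h (s + x)) =
            (Set.Ioi y).indicator (fun x => ((k + 1 : ℕ) : ℝ≥0∞) * ENNReal.ofReal (y ^ k) *
              h (s + x)) x := by
          intro x
          by_cases hy : y < x
          · rw [Set.indicator_of_mem (show y ∈ Set.Iio x from hy),
              Set.indicator_of_mem (show x ∈ Set.Ioi y from hy)]; simp
          · rw [Set.indicator_of_notMem (show y ∉ Set.Iio x from hy),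
              Set.indicator_of_notMem (show x ∉ Set.Ioi y from hy)]; simp
        simp_rw [e1]
        unfold nuP
        rw [lintegral_indicator measurableSet_Ioi, Measure.restrict_restrict measurableSet_Ioi]
        have e2 : Set.Ioi y ∩ Set.Ioi (0 : ℝ) = Set.Ioi y := by
          ext z; simp only [Set.mem_inter_iff, Set.mem_Ioi]
          exact ⟨fun h => h.1, fun h => ⟨h, hy.trans h⟩⟩
        have hms : Measurable fun x : ℝ => h (s + x) :=
          hm.comp (measurable_const.add measurable_id)
        rw [e2, lintegral_const_mul _ hms, lintegral_Ioi_translate]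
        unfold Iop nuP
        rw [mul_assoc]
        congr 3
        ext z
        ring_nf
      have hJ : ∫⁻ y, ∫⁻ x, (Set.Iio x).indicator (fun _ => (1 : ℝ≥0∞)) y *
          (((k + 1 : ℕ) : ℝ≥0∞) * ENNReal.ofReal (y ^ k) * h (s + x)) ∂nuP ∂nuP =
          ∫⁻ y, ((k + 1 : ℕ) : ℝ≥0∞) * (ENNReal.ofReal (y ^ k) * Iop h (s + y)) ∂nuP := by
        conv_lhs => unfold nuP
        conv_rhs => unfold nuP
        refine setLIntegral_congr_fun measurableSet_Ioi ?_
        intro y hy
        exact hI y hy
      rw [hJ, lintegral_const_mul, ih (measurable_Iop hm), Nat.factorial_succ,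
        ← Function.iterate_succ_apply]
      · push_cast; ring
      · exact ((ENNReal.measurable_ofReal.comp (measurable_id.pow_const k)).mul
          ((measurable_Iop hm).comp (measurable_const.add measurable_id)))
    · -- joint measurability
      apply Measurable.aemeasurable
      have m1 : Measurable fun p : ℝ × ℝ => (Set.Iio p.1).indicator (fun _ => (1 : ℝ≥0∞)) p.2 := by
        have : (fun p : ℝ × ℝ => (Set.Iio p.1).indicator (fun _ => (1 : ℝ≥0∞)) p.2) =
            {p : ℝ × ℝ | p.2 < p.1}.indicator (fun _ => 1) := by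
          ext p
          by_cases hp : p.2 < p.1
          · rw [Set.indicator_of_mem (show p.2 ∈ Set.Iio p.1 from hp),
              Set.indicator_of_mem (show p ∈ {p : ℝ × ℝ | p.2 < p.1} from hp)]
          · rw [Set.indicator_of_notMem (show p.2 ∉ Set.Iio p.1 from hp),
              Set.indicator_of_notMem (show p ∉ {p : ℝ × ℝ | p.2 < p.1} from hp)]
        rw [this]
        exact measurable_const.indicator (measurableSet_lt measurable_snd measurable_fst)
      have m2 : Measurable fun p : ℝ × ℝ =>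
          (((k + 1 : ℕ) : ℝ≥0∞) * ENNReal.ofReal (p.2 ^ k) * h (s + p.1)) :=
        ((ENNReal.measurable_ofReal.comp (measurable_snd.pow_const k)).const_mul _).mul
          (hm.comp (measurable_const.add measurable_fst))
      exact m1.mul m2

/-- Dirichlet's formula -/
lemma lintegral_pi {h : ℝ → ℝ≥0∞} (hm : Measurable h) (n : ℕ) (a : Fin n → ℕ) (s : ℝ) :
    ∫⁻ x, (∏ i, ENNReal.ofReal (x i ^ a i)) * h (s + ∑ i, x i)
      ∂(Measure.pi fun _ : Fin n => nuP) =
      (∏ i, ((a i)! : ℝ≥0∞)) * (Iop^[n + ∑ i, a i] h) s := by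
  induction n generalizing h s with
  | zero => simp
  | succ n ih =>
    have mp := (measurePreserving_piFinSuccAbove (fun _ : Fin (n + 1) => nuP) 0).symm
    rw [← mp.lintegral_comp_emb (MeasurableEquiv.measurableEmbedding _)]
    simp only [MeasurableEquiv.piFinSuccAbove_symm_apply, Fin.insertNthEquiv,
      Fin.prod_univ_succ, Fin.sum_univ_succ, Fin.insertNth_zero, Equiv.coe_fn_mk, Fin.cons_succ,
      Fin.zero_succAbove, cast_eq, Fin.cons_zero]
    have mprod : Measurable fun x : Fin n → ℝ => ∏ i : Fin n, ENNReal.ofReal (x i ^ a i.succ) :=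
      Finset.measurable_prod _ fun i _ =>
        ENNReal.measurable_ofReal.comp ((measurable_pi_apply i).pow_const _)
    have msum : Measurable fun x : Fin n → ℝ => ∑ i, x i :=
      Finset.measurable_sum _ fun i _ => measurable_pi_apply i
    rw [lintegral_prod]
    · have e1 : ∀ x : ℝ, ∫⁻ y : Fin n → ℝ, ENNReal.ofReal (x ^ a 0) *
          (∏ i : Fin n, ENNReal.ofReal (y i ^ a i.succ)) * h (s + (x + ∑ i, y i))
          ∂(Measure.pi fun _ : Fin n => nuP) =
          (∏ i : Fin n, ((a i.succ)! : ℝ≥0∞)) * (ENNReal.ofReal (x ^ a 0) *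
            (Iop^[n + ∑ i : Fin n, a i.succ] h) (s + x)) := by
        intro x
        have e2 := ih hm (fun i => a i.succ) (s + x)
        calc _ = ∫⁻ y : Fin n → ℝ, ENNReal.ofReal (x ^ a 0) *
              ((∏ i : Fin n, ENNReal.ofReal (y i ^ a i.succ)) * h (s + x + ∑ i, y i))
              ∂(Measure.pi fun _ : Fin n => nuP) := by
              congr 1; ext y; rw [mul_assoc, add_assoc]
          _ = _ := by
              rw [lintegral_const_mul, e2]
              · ring
              · exact mprod.mul (hm.comp (measurable_const.add msum))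
      simp only [e1]
      rw [lintegral_const_mul, lintegral_pow_mul (measurable_Iop_iter hm _)]
      · rw [← Function.iterate_add_apply]
        have : a 0 + 1 + (n + ∑ i : Fin n, a i.succ) = n + 1 + (a 0 + ∑ i : Fin n, a i.succ) := by
          ring
        rw [this]
        ring
      · exact (ENNReal.measurable_ofReal.comp (measurable_id.pow_const _)).mul
          ((measurable_Iop_iter hm _).comp (measurable_const.add measurable_id))
    · apply Measurable.aemeasurable
      refine Measurable.mul (Measurable.mul ?_ ?_) ?_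
      · exact ENNReal.measurable_ofReal.comp (measurable_fst.pow_const _)
      · exact mprod.comp measurable_snd
      · exact hm.comp (measurable_const.add (measurable_fst.add (msum.comp measurable_snd)))

lemma dd_eq (k : ℕ) : dd (k + 1) * (2 ^ k * k !) = (2 * k + 1)! := by
  induction k with
  | zero => simp [dd]
  | succ k ih =>
    have : (2 * (k + 1) + 1)! = (2 * k + 3) * ((2 * k + 2) * (2 * k + 1)!) := by
      rw [show 2 * (k + 1) + 1 = (2 * k + 1) + 1 + 1 by ring, Nat.factorial_succ,
        Nat.factorial_succ]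
    rw [this, ← ih, dd, Nat.factorial_succ, pow_succ]
    ring

lemma gauss_moment (k : ℕ) :
    ∫⁻ x, ENNReal.ofReal (x ^ (2 * k + 1)) * ENNReal.ofReal (Real.exp (-(0 + x) ^ 2 / 2)) ∂nuP =
      ((2 ^ k * k ! : ℕ) : ℝ≥0∞) := by
  have hq : (-1 : ℝ) < 2 * k + 1 := by
    have : (0 : ℝ) ≤ k := Nat.cast_nonneg k
    linarith
  have h1 := integral_rpow_mul_exp_neg_mul_rpow (p := 2) (q := 2 * k + 1) (b := 1 / 2)
    (by norm_num) hq (by norm_num)
  have h2 := integrableOn_rpow_mul_exp_neg_mul_rpow (p := 2) (s := 2 * k + 1) (b := 1 / 2)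
    hq (by norm_num) (by norm_num)
  have e0 : ∀ x : ℝ, x ∈ Set.Ioi (0 : ℝ) → x ^ (2 * (k : ℝ) + 1) * Real.exp (-(1 / 2) * x ^ (2 : ℝ)) =
      x ^ (2 * k + 1) * Real.exp (-(0 + x) ^ 2 / 2) := by
    intro x hx
    have hx' : (0 : ℝ) < x := hx
    congr 1
    · rw [← Real.rpow_natCast]; push_cast; rfl
    · congr 1
      rw [show (2 : ℝ) = ((2 : ℕ) : ℝ) by norm_num, Real.rpow_natCast]
      push_cast; ring
  have h3 : IntegrableOn (fun x : ℝ => x ^ (2 * k + 1) * Real.exp (-(0 + x) ^ 2 / 2))
      (Set.Ioi 0) := by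
    refine (integrableOn_congr_fun ?_ measurableSet_Ioi).mp h2
    intro x hx
    exact e0 x hx
  have h4 : ∫ x in Set.Ioi (0 : ℝ), x ^ (2 * k + 1) * Real.exp (-(0 + x) ^ 2 / 2) =
      (2 ^ k * k ! : ℕ) := by
    rw [← setIntegral_congr_fun measurableSet_Ioi e0, h1]
    have : ((2 * (k : ℝ) + 1 + 1) / 2) = k + 1 := by ring
    have h5 : (-(2 * (k : ℝ) + 1 + 1) / 2) = -((k + 1 : ℕ) : ℝ) := by push_cast; ring
    rw [this, h5, Real.Gamma_nat_eq_factorial, Real.rpow_neg (by norm_num), Real.rpow_natCast]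
    push_cast
    rw [one_div, inv_pow, inv_inv, pow_succ]
    ring
  have h6 : ∫⁻ x, ENNReal.ofReal (x ^ (2 * k + 1)) *
      ENNReal.ofReal (Real.exp (-(0 + x) ^ 2 / 2)) ∂nuP =
      ∫⁻ x, ENNReal.ofReal (x ^ (2 * k + 1) * Real.exp (-(0 + x) ^ 2 / 2)) ∂nuP := by
    unfold nuP
    refine setLIntegral_congr_fun measurableSet_Ioi ?_
    intro x hx
    have hx' : (0 : ℝ) < x := hx
    simp only
    rw [ENNReal.ofReal_mul (by positivity)]
  rw [h6]
  unfold nuP
  rw [← ofReal_integral_eq_lintegral_ofReal h3, h4, ENNReal.ofReal_natCast]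
  filter_upwards [ae_restrict_mem measurableSet_Ioi] with x hx
  have hx' : (0 : ℝ) < x := hx
  simp only [Pi.zero_apply]
  positivity

theorem moment {n : ℕ} (a : Fin n → ℕ) (L : ℕ) (hL : n + ∑ i, a i = 2 * L) (hn : 0 < n) :
    IntegrableOn (fun x : Fin n → ℝ => (∏ i, x i ^ a i) * gw x) (orth n) ∧
    ∫ x in orth n, (∏ i, x i ^ a i) * gw x =
      (∏ i, (Nat.factorial (a i) : ℝ)) / (dd L : ℝ) := by
  obtain ⟨k, rfl⟩ : ∃ k, L = k + 1 := ⟨L - 1, by omega⟩
  set h : ℝ → ℝ≥0∞ := fun x => ENNReal.ofReal (Real.exp (-x ^ 2 / 2)) with hh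
  have hm : Measurable h := by
    apply ENNReal.measurable_ofReal.comp
    fun_prop
  -- value of the iterated integral
  have hK : (Iop^[2 * (k + 1)] h) 0 = ENNReal.ofReal (1 / (dd (k + 1) : ℝ)) := by
    have h1 := lintegral_pow_mul hm (2 * k + 1) 0
    have h2 := gauss_moment k
    rw [show (2 * k + 1 + 1) = 2 * (k + 1) by ring] at h1
    have h3 : ((2 * k + 1)! : ℝ≥0∞) * (Iop^[2 * (k + 1)] h) 0 = ((2 ^ k * k ! : ℕ) : ℝ≥0∞) := by
      rw [← h1, ← h2]
    have hf0 : ((2 * k + 1)! : ℝ≥0∞) ≠ 0 := by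
      exact_mod_cast (Nat.factorial_pos _).ne'
    have hft : ((2 * k + 1)! : ℝ≥0∞) ≠ ⊤ := ENNReal.natCast_ne_top _
    have hd : (0 : ℝ) < dd (k + 1) := by
      have := dd_eq k
      have h5 : 0 < (2 * k + 1)! := Nat.factorial_pos _
      have : 0 < dd (k + 1) := by
        rcases Nat.eq_zero_or_pos (dd (k + 1)) with h | h
        · rw [h] at this; omega
        · exact h
      exact_mod_cast this
    have h4 : ((2 * k + 1)! : ℝ≥0∞) * ENNReal.ofReal (1 / (dd (k + 1) : ℝ)) =
        ((2 ^ k * k ! : ℕ) : ℝ≥0∞) := by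
      rw [← ENNReal.ofReal_natCast, ← ENNReal.ofReal_natCast, ← ENNReal.ofReal_mul (by positivity)]
      congr 1
      rw [← dd_eq k]
      push_cast
      field_simp
    exact (ENNReal.mul_right_inj hf0 hft).mp (h3.trans h4.symm)
  have hmain := lintegral_pi hm n a 0
  rw [hL, hK] at hmain
  have hrest : (volume.restrict (orth n) : Measure (Fin n → ℝ)) =
      Measure.pi fun _ : Fin n => nuP := by
    unfold orth nuP
    rw [volume_pi, Measure.restrict_pi_pi]
  have hmeas : MeasurableSet (orth n) := MeasurableSet.univ_pi fun _ => measurableSet_Ioi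
  have hcongr : ∫⁻ x in orth n, ENNReal.ofReal ((∏ i, x i ^ a i) * gw x) =
      ENNReal.ofReal ((∏ i, (Nat.factorial (a i) : ℝ)) / (dd (k + 1) : ℝ)) := by
    have e1 : ∫⁻ x in orth n, ENNReal.ofReal ((∏ i, x i ^ a i) * gw x) =
        ∫⁻ x in orth n, (∏ i, ENNReal.ofReal (x i ^ a i)) * h (0 + ∑ i, x i) := by
      refine setLIntegral_congr_fun hmeas ?_
      intro x hx
      have hx' : ∀ i, 0 < x i := fun i => hx i (Set.mem_univ i)
      simp only [hh, gw, zero_add]
      rw [ENNReal.ofReal_mul (Finset.prod_nonneg fun i _ => pow_nonneg (hx' i).le _),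
        ENNReal.ofReal_prod_of_nonneg fun i _ => pow_nonneg (hx' i).le _]
    rw [e1, hrest, hmain, div_eq_mul_one_div (∏ i, (Nat.factorial (a i) : ℝ)),
      ENNReal.ofReal_mul (Finset.prod_nonneg fun i _ => Nat.cast_nonneg _),
      ENNReal.ofReal_prod_of_nonneg fun i _ => Nat.cast_nonneg _]
    simp only [ENNReal.ofReal_natCast]
  have hcont : Continuous fun x : Fin n → ℝ => (∏ i, x i ^ a i) * gw x := by
    unfold gw
    fun_prop
  have hnn : 0 ≤ᵐ[volume.restrict (orth n)] fun x : Fin n → ℝ => (∏ i, x i ^ a i) * gw x := by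
    filter_upwards [ae_restrict_mem hmeas] with x hx
    have hx' : ∀ i, 0 < x i := fun i => hx i (Set.mem_univ i)
    exact mul_nonneg (Finset.prod_nonneg fun i _ => pow_nonneg (hx' i).le _) (Real.exp_pos _).le
  refine ⟨?_, ?_⟩
  · refine ⟨hcont.aestronglyMeasurable, ?_⟩
    rw [hasFiniteIntegral_iff_ofReal hnn, hcongr]
    exact ENNReal.ofReal_lt_top
  · rw [integral_eq_lintegral_of_nonneg_ae hnn hcont.aestronglyMeasurable, hcongr,
      ENNReal.toReal_ofReal (by positivity)]

end Pool.Agent.Helper91_SR
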