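import Pool.Agent.Helper91_SR.Defs
set_option autoImplicit false
namespace Pool.Agent.Helper91_SR
open Equiv Finset Classical

variable {n : ℕ}

/-- stable perfect matching, as a permutation -/
def SM (p : Fin n → Perm (Fin n)) (v : Perm (Fin n)) : Prop :=
  (∀ x, v (v x) = x ∧ v x ≠ x) ∧
    ∀ u w : Fin n, u ≠ w → ¬ (p u w < p u (v u) ∧ p w u < p w (v w))

theorem solv_iff (p : Fin n → Perm (Fin n)) : Solv p ↔ ∃ v, SM p v := by
  constructor
  · rintro ⟨m, hm, hs⟩
    refine ⟨⟨m, m, fun x => (hm x).1, fun x => (hm x).1⟩, fun x => hm x, hs⟩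
  · rintro ⟨v, hv, hs⟩
    exact ⟨v, hv, hs⟩

/-- people who strictly prefer `v` to `M` -/
noncomputable def Bs (p : Fin n → Perm (Fin n)) (v M : Perm (Fin n)) : Finset (Fin n) :=
  univ.filter fun b => p b (v b) < p b (M b)

theorem mem_Bs {p : Fin n → Perm (Fin n)} {v M : Perm (Fin n)} {b : Fin n} :
    b ∈ Bs p v M ↔ p b (v b) < p b (M b) := by
  simp [Bs]

theorem Bs_map {p : Fin n → Perm (Fin n)} {v M : Perm (Fin n)} (hv : SM p v) (hM : SM p M)
    {b : Fin n} (hb : b ∈ Bs p v M) : v b ∈ Bs p M v := by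
  rw [mem_Bs] at hb ⊢
  have h := hM.2 b (v b) (fun e => (hv.1 b).2 e.symm)
  have h1 : ¬ p (v b) b < p (v b) (M (v b)) := fun h' => h ⟨hb, h'⟩
  have h2 : p (v b) (M (v b)) ≤ p (v b) b := not_lt.mp h1
  rw [(hv.1 b).1]
  refine lt_of_le_of_ne h2 ?_
  intro e
  have e1 : M (v b) = b := (p (v b)).injective e
  have e2 : v b = M b := by
    rw [← e1, (hM.1 _).1]
    rw [e1]
  rw [← e2] at hb
  exact lt_irrefl _ hb

theorem Bs_image {p : Fin n → Perm (Fin n)} {v M : Perm (Fin n)} (hv : SM p v) (hM : SM p M) :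
    (Bs p v M).image v = Bs p M v := by
  apply Finset.eq_of_subset_of_card_le
  · intro a ha
    rw [Finset.mem_image] at ha
    obtain ⟨b, hb, rfl⟩ := ha
    exact Bs_map hv hM hb
  · rw [Finset.card_image_of_injective _ v.injective]
    rw [← Finset.card_image_of_injective (Bs p M v) M.injective]
    apply Finset.card_le_card
    intro a ha
    rw [Finset.mem_image] at ha
    obtain ⟨b, hb, rfl⟩ := ha
    exact Bs_map hM hv hb

theorem Bs_back {p : Fin n → Perm (Fin n)} {v M : Perm (Fin n)} (hv : SM p v) (hM : SM p M)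
    {a : Fin n} (ha : a ∈ Bs p M v) : v a ∈ Bs p v M := by
  rw [← Bs_image hv hM, Finset.mem_image] at ha
  obtain ⟨b, hb, rfl⟩ := ha
  rwa [(hv.1 b).1]

theorem Bs_disj {p : Fin n → Perm (Fin n)} {v M : Perm (Fin n)} {b : Fin n}
    (hb : b ∈ Bs p v M) : b ∉ Bs p M v := by
  rw [mem_Bs] at hb ⊢
  exact not_lt.mpr hb.le

/-- `j` is a candidate replacement partner for `b` after `v b` -/
def cand (p : Fin n → Perm (Fin n)) (v : Perm (Fin n)) (b j : Fin n) : Prop :=
  p b (v b) < p b j ∧ p j b < p j (v j)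

/-- first candidate -/
noncomputable def sx (p : Fin n → Perm (Fin n)) (v : Perm (Fin n)) (b : Fin n) : Fin n :=
  @Classical.epsilon (Fin n) ⟨b⟩ (fun s => cand p v b s ∧ ∀ j, cand p v b j → p b s ≤ p b j)

theorem sx_eq {p : Fin n → Perm (Fin n)} {v : Perm (Fin n)} {b s : Fin n}
    (hs : cand p v b s) (hm : ∀ j, cand p v b j → p b s ≤ p b j) : sx p v b = s := by
  have h := @Classical.epsilon_spec (Fin n)
    (fun s => cand p v b s ∧ ∀ j, cand p v b j → p b s ≤ p b j) ⟨s, hs, hm⟩
  have h1 : p b (sx p v b) ≤ p b s := h.2 s hs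
  have h2 : p b s ≤ p b (sx p v b) := hm _ h.1
  exact (p b).injective (le_antisymm h1 h2)

theorem cand_M {p : Fin n → Perm (Fin n)} {v M : Perm (Fin n)} (hv : SM p v) (hM : SM p M)
    {b : Fin n} (hb : b ∈ Bs p v M) : cand p v b (M b) := by
  refine ⟨mem_Bs.mp hb, ?_⟩
  have h := Bs_back hM hv hb
  rw [mem_Bs, (hM.1 b).1] at h
  exact h

theorem sx_spec {p : Fin n → Perm (Fin n)} {v M : Perm (Fin n)} (hv : SM p v) (hM : SM p M)
    {b : Fin n} (hb : b ∈ Bs p v M) :
    cand p v b (sx p v b) ∧ ∀ j, cand p v b j → p b (sx p v b) ≤ p b j := by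
  obtain ⟨s, hs, hmin⟩ := Finset.exists_min_image (univ.filter (cand p v b)) (fun j => p b j)
    ⟨M b, by simpa using cand_M hv hM hb⟩
  have hs' : cand p v b s := by simpa using hs
  have hmin' : ∀ j, cand p v b j → p b s ≤ p b j := fun j hj => hmin j (by simpa using hj)
  rw [sx_eq hs' hmin']
  exact ⟨hs', hmin'⟩

theorem sx_le_M {p : Fin n → Perm (Fin n)} {v M : Perm (Fin n)} (hv : SM p v) (hM : SM p M)
    {b : Fin n} (hb : b ∈ Bs p v M) : p b (sx p v b) ≤ p b (M b) :=
  (sx_spec hv hM hb).2 _ (cand_M hv hM hb)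

theorem cand_ne {p : Fin n → Perm (Fin n)} {v : Perm (Fin n)} {b j : Fin n}
    (h : cand p v b j) : b ≠ j := by
  rintro rfl
  exact lt_asymm h.1 h.2

theorem sx_mem {p : Fin n → Perm (Fin n)} {v M : Perm (Fin n)} (hv : SM p v) (hM : SM p M)
    {b : Fin n} (hb : b ∈ Bs p v M) : sx p v b ∈ Bs p M v := by
  obtain ⟨hc, hmin⟩ := sx_spec hv hM hb
  have hle := sx_le_M hv hM hb
  rcases eq_or_lt_of_le hle with h | h
  · have : sx p v b = M b := (p b).injective h
    rw [this]
    exact Bs_back hM hv hb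
  · rw [mem_Bs]
    have h1 := hM.2 b (sx p v b) (cand_ne hc)
    have h2 : p (sx p v b) (M (sx p v b)) ≤ p (sx p v b) b := by
      by_contra hcon
      exact h1 ⟨h, not_le.mp hcon⟩
    exact lt_of_le_of_lt h2 hc.2

/-- the functional digraph on `Bs` -/
noncomputable def nx (p : Fin n → Perm (Fin n)) (v : Perm (Fin n)) (b : Fin n) : Fin n :=
  v (sx p v b)

theorem nx_mem {p : Fin n → Perm (Fin n)} {v M : Perm (Fin n)} (hv : SM p v) (hM : SM p M)
    {b : Fin n} (hb : b ∈ Bs p v M) : nx p v b ∈ Bs p v M :=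
  Bs_back hv hM (sx_mem hv hM hb)

theorem nx_ne {p : Fin n → Perm (Fin n)} {v M : Perm (Fin n)} (hv : SM p v) (hM : SM p M)
    {b : Fin n} (hb : b ∈ Bs p v M) : nx p v b ≠ b := by
  intro h
  have h1 : sx p v b = v b := by
    have := congrArg v h
    rwa [nx, (hv.1 _).1] at this
  have h2 := (sx_spec hv hM hb).1.1
  rw [h1] at h2
  exact lt_irrefl _ h2

/-- admissible rearrangements at `v` -/
def adm (p : Fin n → Perm (Fin n)) (v M τ : Perm (Fin n)) : Prop :=
  ∀ i, τ i = i ∨ (i ∈ Bs p v M ∧ τ i = nx p v i)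

theorem adm_sum {p : Fin n → Perm (Fin n)} {v M : Perm (Fin n)} (hv : SM p v) (hM : SM p M) :
    ∑ τ ∈ univ.filter (fun τ : Perm (Fin n) => adm p v M τ),
      (Perm.sign τ : ℤ) * (-1) ^ (univ.filter fun i => τ i ≠ i).card =
      if v = M then 1 else 0 := by
  set A : Matrix (Fin n) (Fin n) ℤ := fun j i =>
    (if j = i then 1 else 0) - (if i ∈ Bs p v M ∧ j = nx p v i then 1 else 0) with hA
  have hprod : ∀ τ : Perm (Fin n), ∏ i, A (τ i) i =
      if adm p v M τ then (-1) ^ (univ.filter fun i => τ i ≠ i).card else 0 := by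
    intro τ
    split_ifs with h
    · rw [← Finset.prod_const, Finset.prod_filter]
      apply Finset.prod_congr rfl
      intro i _
      rcases h i with h1 | ⟨h1, h2⟩
      · by_cases h3 : i ∈ Bs p v M ∧ τ i = nx p v i
        · exact absurd (h3.2.symm.trans h1) (nx_ne hv hM h3.1)
        · simp only [hA, h1] at h3 ⊢
          rw [if_neg h3]
          simp
      · have h3 : τ i ≠ i := by rw [h2]; exact nx_ne hv hM h1
        simp only [hA]
        rw [if_neg h3, if_pos ⟨h1, h2⟩, if_pos h3]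
        norm_num
    · unfold adm at h
      push Not at h
      obtain ⟨i, hi1, hi2⟩ := h
      apply Finset.prod_eq_zero (Finset.mem_univ i)
      simp only [hA]
      rw [if_neg hi1, if_neg (fun h => hi2 h.1 h.2)]
      norm_num
  have hdet : A.det = ∑ τ ∈ univ.filter (fun τ : Perm (Fin n) => adm p v M τ),
      (Perm.sign τ : ℤ) * (-1) ^ (univ.filter fun i => τ i ≠ i).card := by
    rw [Matrix.det_apply', Finset.sum_filter]
    apply Finset.sum_congr rfl
    intro τ _
    rw [hprod τ]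
    split_ifs <;> simp
  rw [← hdet]
  split_ifs with hvM
  · have hB : Bs p v M = ∅ := by
      rw [hvM]
      ext b
      rw [mem_Bs]
      simp
    have hA1 : A = 1 := by
      ext j i
      simp only [hA, hB]
      rw [Matrix.one_apply]
      simp
    rw [hA1, Matrix.det_one]
  · rw [← Matrix.exists_vecMul_eq_zero_iff]
    have hne : (Bs p v M).Nonempty := by
      by_contra hcon
      rw [Finset.not_nonempty_iff_eq_empty] at hcon
      have hcon2 : Bs p M v = ∅ := by
        rw [← Bs_image hv hM, hcon]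
        simp
      apply hvM
      ext1 i
      apply (p i).injective
      apply le_antisymm
      · have : i ∉ Bs p M v := by rw [hcon2]; simp
        rw [mem_Bs] at this
        exact not_lt.mp this
      · have : i ∉ Bs p v M := by rw [hcon]; simp
        rw [mem_Bs] at this
        exact not_lt.mp this
    obtain ⟨b0, hb0⟩ := hne
    refine ⟨fun i => if i ∈ Bs p v M then 1 else 0, ?_, ?_⟩
    · intro h
      have := congrFun h b0
      simp [hb0] at this
    · funext i
      simp only [Matrix.vecMul, dotProduct, hA, Pi.zero_apply, mul_sub, Finset.sum_sub_distrib]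
      by_cases hi : i ∈ Bs p v M
      · have h1 := nx_mem hv hM hi
        simp [hi, h1]
      · simp [hi]

end Pool.Agent.Helper91_SR
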