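import Pool.Agent.Helper91_SR.PartA
set_option autoImplicit false
namespace Pool.Agent.Helper91_SR
open Equiv Finset Classical

variable {n : ℕ}

theorem apply_inv_selfP (P : Perm (Fin n)) (i : Fin n) : P (P⁻¹ i) = i := by
  show P (P.symm i) = i
  exact P.apply_symm_apply i

theorem inv_apply_selfP (P : Perm (Fin n)) (i : Fin n) : P⁻¹ (P i) = i := by
  show P.symm (P i) = i
  exact P.symm_apply_apply i

section fwd
variable {p : Fin n → Perm (Fin n)} {v M τ : Perm (Fin n)}

theorem adm_fix (h : adm p v M τ) {i : Fin n} (hi : i ∉ Bs p v M) : τ i = i := by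
  rcases h i with h1 | ⟨h1, _⟩
  · exact h1
  · exact absurd h1 hi

theorem adm_fix_inv (h : adm p v M τ) {i : Fin n} (hi : i ∉ Bs p v M) : τ⁻¹ i = i := by
  rw [Perm.inv_eq_iff_eq]
  exact (adm_fix h hi).symm

theorem adm_mem (h : adm p v M τ) (hv : SM p v) (hM : SM p M) {i : Fin n}
    (hi : i ∈ Bs p v M) : τ i ∈ Bs p v M := by
  rcases h i with h1 | ⟨h1, h2⟩
  · rwa [h1]
  · rw [h2]; exact nx_mem hv hM h1

theorem adm_mem_inv (h : adm p v M τ) {i : Fin n}
    (hi : i ∈ Bs p v M) : τ⁻¹ i ∈ Bs p v M := by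
  by_contra hcon
  have h1 := adm_fix h hcon
  rw [apply_inv_selfP] at h1
  rw [← h1] at hcon
  exact hcon hi

theorem inv_v (hv : SM p v) : v⁻¹ = v := by
  ext1 i
  rw [Perm.inv_eq_iff_eq, (hv.1 i).1]

theorem P_inv (hv : SM p v) (i : Fin n) : (τ⁻¹ * v)⁻¹ i = v (τ i) := by
  rw [mul_inv_rev, inv_inv, inv_v hv, Perm.mul_apply]

/-- predecessor of a moved point -/
theorem P_inv_moved (hv : SM p v) (h : adm p v M τ) {i : Fin n} (hi : τ i ≠ i) :
    (τ⁻¹ * v)⁻¹ i = sx p v i := by
  rcases h i with h1 | ⟨h1, h2⟩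
  · exact absurd h1 hi
  · rw [P_inv hv, h2, nx, (hv.1 _).1]

theorem P_inv_fixed (hv : SM p v) {i : Fin n} (hi : τ i = i) :
    (τ⁻¹ * v)⁻¹ i = v i := by
  rw [P_inv hv, hi]

theorem P_B (hv : SM p v) (hM : SM p M) (h : adm p v M τ) {i : Fin n} (hi : i ∈ Bs p v M) :
    (τ⁻¹ * v) i = v i := by
  rw [Perm.mul_apply]
  exact adm_fix_inv h (fun h' => Bs_disj h' (Bs_map hv hM hi))

theorem fwd_stab (hv : SM p v) (hM : SM p M) (h : adm p v M τ) : Stab p (τ⁻¹ * v) := by
  constructor
  · intro i hi
    by_cases hτ : τ i = i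
    · rw [P_inv_fixed hv hτ]
      by_cases hB : i ∈ Bs p v M
      · exfalso
        apply hi
        rw [P_B hv hM h hB, Perm.mul_apply, (hv.1 i).1, Perm.inv_eq_iff_eq, hτ]
      · set b := τ⁻¹ (v i) with hb
        have hτb : τ b = v i := by rw [hb, apply_inv_selfP]
        have hPi : (τ⁻¹ * v) i = b := rfl
        rw [hPi] at hi ⊢
        rcases h b with h1 | ⟨h1, h2⟩
        · exfalso
          apply hi
          have : b = v i := by rw [← hτb, h1]
          rw [this, Perm.mul_apply, (hv.1 i).1, Perm.inv_eq_iff_eq, hτ]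
        · have hs : sx p v b = i := by
            rw [hτb, nx] at h2
            exact (v.injective h2).symm
          have hc := (sx_spec hv hM h1).1.2
          rw [hs] at hc
          exact hc
    · rw [P_inv_moved hv h hτ]
      have hB : i ∈ Bs p v M := by
        rcases h i with h1 | ⟨h1, _⟩
        · exact absurd h1 hτ
        · exact h1
      rw [P_B hv hM h hB]
      exact (sx_spec hv hM hB).1.1
  · -- predecessor comparisons
    have key : ∀ i j, i ≠ j → τ i ≠ i → p i j < p i ((τ⁻¹ * v)⁻¹ i) →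
        p j i < p j ((τ⁻¹ * v)⁻¹ j) → False := by
      intro i j hij hτi h1 h2
      have hBi : i ∈ Bs p v M := by
        rcases h i with h3 | ⟨h3, _⟩
        · exact absurd h3 hτi
        · exact h3
      rw [P_inv_moved hv h hτi] at h1
      by_cases hτj : τ j = j
      · rw [P_inv_fixed hv hτj] at h2
        -- `j` prefers `i` to `v j`
        have h3 : ¬ p i j < p i (v i) := fun h' => hv.2 i j hij ⟨h', h2⟩
        have h4 : p i (v i) ≤ p i j := not_lt.mp h3
        rcases eq_or_lt_of_le h4 with h5 | h5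
        · have : v i = j := (p i).injective h5
          rw [← this, (hv.1 i).1] at h2
          exact lt_irrefl _ h2
        · have := (sx_spec hv hM hBi).2 j ⟨h5, h2⟩
          exact absurd h1 (not_lt.mpr this)
      · have hBj : j ∈ Bs p v M := by
          rcases h j with h3 | ⟨h3, _⟩
          · exact absurd h3 hτj
          · exact h3
        rw [P_inv_moved hv h hτj] at h2
        have h3 := sx_le_M hv hM hBi
        have h4 := sx_le_M hv hM hBj
        exact hM.2 i j hij ⟨lt_of_lt_of_le h1 h3, lt_of_lt_of_le h2 h4⟩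
    rintro i j hij ⟨h1, h2⟩
    by_cases hτi : τ i = i
    · by_cases hτj : τ j = j
      · rw [P_inv_fixed hv hτi] at h1
        rw [P_inv_fixed hv hτj] at h2
        exact hv.2 i j hij ⟨h1, h2⟩
      · exact key j i hij.symm hτj h2 h1
    · exact key i j hij hτi h1 h2

theorem fwd_even (hv : SM p v) (hM : SM p M) (h : adm p v M τ) : EvenP (τ⁻¹ * v) := by
  refine ⟨univ.filter fun i => i ∈ Bs p v M ∨ (i ∉ Bs p M v ∧ i < v i), fun i => ?_⟩
  simp only [Finset.mem_filter, Finset.mem_univ, true_and]
  by_cases hB : i ∈ Bs p v M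
  · rw [P_B hv hM h hB]
    have h1 := Bs_map hv hM hB
    have h2 : v i ∉ Bs p v M := fun h' => Bs_disj h' h1
    constructor
    · rintro (h3 | h3)
      · exact absurd h3 h2
      · exact absurd h1 h3.1
    · intro h3
      exact absurd (Or.inl hB) h3
  · by_cases hU : i ∈ Bs p M v
    · have h1 : (τ⁻¹ * v) i ∈ Bs p v M := by
        rw [Perm.mul_apply]
        exact adm_mem_inv h (Bs_back hv hM hU)
      constructor
      · intro _
        rintro (h3 | h3)
        · exact hB h3
        · exact h3.1 hU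
      · intro _
        exact Or.inl h1
    · -- both equal
      have hvU : v i ∉ Bs p M v := by
        intro h'
        have := Bs_back hv hM h'
        rw [(hv.1 i).1] at this
        exact hB this
      have hvB : v i ∉ Bs p v M := by
        intro h'
        have := Bs_map hv hM h'
        rw [(hv.1 i).1] at this
        exact hU this
      have hP : (τ⁻¹ * v) i = v i := by
        rw [Perm.mul_apply]
        exact adm_fix_inv h hvB
      rw [hP, (hv.1 i).1]
      have hne := (hv.1 i).2
      constructor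
      · rintro (h3 | h3)
        · exact absurd h3 hvB
        · rintro (h4 | h4)
          · exact hB h4
          · exact lt_asymm h3.2 h4.2
      · intro h3
        right
        refine ⟨hvU, ?_⟩
        have h4 : ¬ i < v i := fun h' => h3 (Or.inr ⟨hU, h'⟩)
        exact lt_of_le_of_ne (not_lt.mp h4) hne

/-- recover `v` from `P` -/
theorem recover (hv : SM p v) (hM : SM p M) (h : adm p v M τ) (i : Fin n) :
    v i = if p i (M i) < p i ((τ⁻¹ * v)⁻¹ i) then (τ⁻¹ * v)⁻¹ i else (τ⁻¹ * v) i := by
  by_cases hB : i ∈ Bs p v M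
  · have h1 : ¬ p i (M i) < p i ((τ⁻¹ * v)⁻¹ i) := by
      rw [not_lt]
      by_cases hτ : τ i = i
      · rw [P_inv_fixed hv hτ]
        exact (mem_Bs.mp hB).le
      · rw [P_inv_moved hv h hτ]
        exact sx_le_M hv hM hB
    rw [if_neg h1, P_B hv hM h hB]
  · have hτ := adm_fix h hB
    rw [P_inv_fixed hv hτ]
    by_cases hU : i ∈ Bs p M v
    · rw [if_pos (mem_Bs.mp hU)]
    · have : ¬ p i (M i) < p i (v i) := by rwa [mem_Bs] at hU
      rw [if_neg this, Perm.mul_apply]
      have hvB : v i ∉ Bs p v M := by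
        intro h'
        have := Bs_map hv hM h'
        rw [(hv.1 i).1] at this
        exact hU this
      exact (adm_fix_inv h hvB).symm

end fwd

/-- no fixed points in an even permutation -/
theorem even_ne {P : Perm (Fin n)} (hE : EvenP P) (i : Fin n) : P i ≠ i := by
  obtain ⟨A, hA⟩ := hE
  intro h
  have := hA i
  rw [h] at this
  tauto

theorem stab_weak {p : Fin n → Perm (Fin n)} {P : Perm (Fin n)} (hS : Stab p P) (i : Fin n) :
    p i (P i) ≤ p i (P⁻¹ i) := by
  by_cases h : P (P i) = i
  · have : P⁻¹ i = P i := by rw [Perm.inv_eq_iff_eq, h]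
    rw [this]
  · exact (hS.1 i h).le

/-- an even stable partition gives a stable matching -/
theorem even_solv {p : Fin n → Perm (Fin n)} {P : Perm (Fin n)} (hE : EvenP P)
    (hS : Stab p P) : Solv p := by
  obtain ⟨A, hA⟩ := hE
  refine ⟨fun i => if i ∈ A then P i else P⁻¹ i, ?_, ?_⟩
  · intro i
    by_cases hi : i ∈ A
    · have h1 : P i ∉ A := by
        intro h
        exact (hA i).mp h hi
      simp only [if_pos hi, if_neg h1, inv_apply_selfP, true_and]
      intro h
      rw [h] at h1
      exact h1 hi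
    · have h1 : P⁻¹ i ∈ A := by
        by_contra h
        have := (hA (P⁻¹ i)).mpr h
        rw [apply_inv_selfP] at this
        exact hi this
      simp only [if_neg hi, if_pos h1, apply_inv_selfP, true_and]
      intro h
      rw [h] at h1
      exact hi h1
  · rintro u w huw ⟨h1, h2⟩
    have key : ∀ i, p i ((fun i => if i ∈ A then P i else P⁻¹ i) i) ≤ p i (P⁻¹ i) := by
      intro i
      by_cases hi : i ∈ A
      · simp only [if_pos hi]; exact stab_weak hS i
      · simp only [if_neg hi]; exact le_rfl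
    exact hS.2 u w huw ⟨lt_of_lt_of_le h1 (key u), lt_of_lt_of_le h2 (key w)⟩

section bwd
variable {p : Fin n → Perm (Fin n)} {P M : Perm (Fin n)}

/-- structure of an even stable partition relative to a stable matching -/
theorem bwd_struct (hE : EvenP P) (hS : Stab p P) (hM : SM p M) :
    (∀ i, p i (M i) < p i (P⁻¹ i) → ¬ p (P⁻¹ i) (M (P⁻¹ i)) < p (P⁻¹ i) (P⁻¹ (P⁻¹ i)) ∧
      ¬ (M (P⁻¹ i) = P (P⁻¹ i) ∧ M (P⁻¹ i) = P⁻¹ (P⁻¹ i))) ∧
    (∀ j, ¬ p j (M j) < p j (P⁻¹ j) → ¬ (M j = P j ∧ M j = P⁻¹ j) →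
      p (P j) (M (P j)) < p (P j) (P⁻¹ (P j)) ∧ p j (P j) < p j (M j)) := by
  set U : Finset (Fin n) := univ.filter fun i => p i (M i) < p i (P⁻¹ i) with hU
  set D : Finset (Fin n) := univ.filter fun j => ¬ p j (M j) < p j (P⁻¹ j) ∧
    ¬ (M j = P j ∧ M j = P⁻¹ j) with hD
  set D' : Finset (Fin n) := univ.filter fun j => p j (P j) < p j (M j) with hD'
  have mU : ∀ i, i ∈ U ↔ p i (M i) < p i (P⁻¹ i) := by intro i; simp [hU]
  have mD : ∀ i, i ∈ D ↔ (¬ p i (M i) < p i (P⁻¹ i) ∧ ¬ (M i = P i ∧ M i = P⁻¹ i)) := by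
    intro i; simp [hD]
  have mD' : ∀ i, i ∈ D' ↔ p i (P i) < p i (M i) := by intro i; simp [hD']
  -- (a)
  have ha : ∀ i ∈ U, M i ∈ D := by
    intro i hi
    rw [mU] at hi
    rw [mD]
    have hne : i ≠ M i := fun e => (hM.1 i).2 e.symm
    have h1 := hS.2 i (M i) hne
    refine ⟨fun h2 => h1 ⟨hi, ?_⟩, ?_⟩
    · rw [(hM.1 i).1] at h2; exact h2
    · rintro ⟨h2, h3⟩
      rw [(hM.1 i).1] at h2 h3
      have h4 : P⁻¹ i = M i := by rw [Perm.inv_eq_iff_eq]; exact h2
      rw [h4] at hi
      exact lt_irrefl _ hi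
  -- (b)
  have hb : D ⊆ D' := by
    intro j hj
    rw [mD] at hj
    rw [mD']
    have h1 : p j (P⁻¹ j) ≤ p j (M j) := not_lt.mp hj.1
    by_cases h2 : P (P j) = j
    · have h3 : P⁻¹ j = P j := by rw [Perm.inv_eq_iff_eq, h2]
      rw [h3] at h1
      refine lt_of_le_of_ne h1 (fun h4 => ?_)
      have h5 : P j = M j := (p j).injective h4
      exact hj.2 ⟨h5.symm, by rw [h3, h5]⟩
    · exact lt_of_lt_of_le (hS.1 j h2) h1
  -- (c)
  have hc : ∀ j ∈ D', P j ∈ U := by
    intro j hj
    rw [mD'] at hj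
    rw [mU, inv_apply_selfP]
    have hne : j ≠ P j := fun e => even_ne hE j e.symm
    have h1 := hM.2 j (P j) hne
    have h2 : p (P j) (M (P j)) ≤ p (P j) j := by
      by_contra hcon
      exact h1 ⟨hj, not_le.mp hcon⟩
    refine lt_of_le_of_ne h2 (fun h3 => ?_)
    have h4 : M (P j) = j := (p (P j)).injective h3
    have h5 : P j = M j := by
      conv_rhs => rw [← h4]
      rw [(hM.1 _).1]
    rw [h5] at hj
    exact lt_irrefl _ hj
  -- cardinalities
  have c1 : U.card ≤ D.card := by
    rw [← Finset.card_image_of_injective U M.injective]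
    apply Finset.card_le_card
    intro a haa
    rw [Finset.mem_image] at haa
    obtain ⟨b, hb1, rfl⟩ := haa
    exact ha b hb1
  have c2 : D'.card ≤ U.card := by
    rw [← Finset.card_image_of_injective D' P.injective]
    apply Finset.card_le_card
    intro a haa
    rw [Finset.mem_image] at haa
    obtain ⟨b, hb1, rfl⟩ := haa
    exact hc b hb1
  have c3 := Finset.card_le_card hb
  have hDD : D = D' := Finset.eq_of_subset_of_card_le hb (by omega)
  have himg : D.image P = U := by
    apply Finset.eq_of_subset_of_card_le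
    · intro a haa
      rw [Finset.mem_image] at haa
      obtain ⟨b, hb1, rfl⟩ := haa
      exact hc b (hb hb1)
    · rw [Finset.card_image_of_injective _ P.injective]
      exact c1
  constructor
  · intro i hi
    have hi' : i ∈ D.image P := by rw [himg, mU]; exact hi
    rw [Finset.mem_image] at hi'
    obtain ⟨b, hb1, hb2⟩ := hi'
    have h1 : P⁻¹ i = b := by rw [← hb2, inv_apply_selfP]
    rw [h1]
    rw [mD] at hb1
    exact hb1
  · intro j h1 h2
    have hj : j ∈ D := by rw [mD]; exact ⟨h1, h2⟩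
    have h3 : j ∈ D' := hb hj
    have h4 := hc j h3
    rw [mU] at h4
    rw [mD'] at h3
    exact ⟨h4, h3⟩

/-- the far matching of `P` -/
noncomputable def far (p : Fin n → Perm (Fin n)) (M P : Perm (Fin n)) (i : Fin n) : Fin n :=
  if p i (M i) < p i (P⁻¹ i) then P⁻¹ i else P i

theorem far_E (hM : SM p M) {i : Fin n} (h1 : M i = P i) (h2 : M i = P⁻¹ i) :
    far p M P i = M i ∧ far p M P (M i) = i := by
  have h3 : P (M i) = i := by rw [h2, apply_inv_selfP]
  have h4 : P⁻¹ (M i) = i := by rw [h1, inv_apply_selfP]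
  constructor
  · unfold far
    rw [← h2, if_neg (lt_irrefl _), h1]
  · unfold far
    rw [h4, (hM.1 i).1, if_neg (lt_irrefl _), h3]

theorem far_invol (hE : EvenP P) (hS : Stab p P) (hM : SM p M) (i : Fin n) :
    far p M P (far p M P i) = i := by
  obtain ⟨s1, s2⟩ := bwd_struct hE hS hM
  by_cases hi : p i (M i) < p i (P⁻¹ i)
  · have h1 : far p M P i = P⁻¹ i := by unfold far; rw [if_pos hi]
    rw [h1]
    unfold far
    rw [if_neg (s1 i hi).1, apply_inv_selfP]
  · by_cases hi2 : M i = P i ∧ M i = P⁻¹ i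
    · obtain ⟨h1, h2⟩ := far_E hM hi2.1 hi2.2
      rw [h1, h2]
    · have h1 : far p M P i = P i := by unfold far; rw [if_neg hi]
      rw [h1]
      unfold far
      rw [if_pos (s2 i hi hi2).1, inv_apply_selfP]

theorem far_le (hS : Stab p P) (i : Fin n) : p i (far p M P i) ≤ p i (P⁻¹ i) := by
  unfold far
  split_ifs
  · exact le_rfl
  · exact stab_weak hS i

/-- the far matching as a permutation -/
noncomputable def farP (p : Fin n → Perm (Fin n)) (M P : Perm (Fin n))
    (h : ∀ i, far p M P (far p M P i) = i) : Perm (Fin n) :=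
  ⟨far p M P, far p M P, h, h⟩

theorem farP_SM (hE : EvenP P) (hS : Stab p P) (hM : SM p M) :
    SM p (farP p M P (far_invol hE hS hM)) := by
  constructor
  · intro i
    refine ⟨far_invol hE hS hM i, ?_⟩
    show far p M P i ≠ i
    unfold far
    split_ifs
    · intro h
      rw [Perm.inv_eq_iff_eq] at h
      exact even_ne hE i h.symm
    · exact even_ne hE i
  · rintro u w huw ⟨h1, h2⟩
    exact hS.2 u w huw ⟨lt_of_lt_of_le h1 (far_le hS u), lt_of_lt_of_le h2 (far_le hS w)⟩

theorem farP_adm (hE : EvenP P) (hS : Stab p P) (hM : SM p M) :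
    adm p (farP p M P (far_invol hE hS hM)) M (farP p M P (far_invol hE hS hM) * P⁻¹) := by
  obtain ⟨s1, s2⟩ := bwd_struct hE hS hM
  set v := farP p M P (far_invol hE hS hM) with hv
  have vdef : ∀ i, v i = far p M P i := fun i => rfl
  intro k
  rw [Perm.mul_apply, vdef]
  by_cases hj : p (P⁻¹ k) (M (P⁻¹ k)) < p (P⁻¹ k) (P⁻¹ (P⁻¹ k))
  · -- `j0 = P⁻¹ k` is up
    set j0 := P⁻¹ k with hj0
    have hPj0 : P j0 = k := by rw [hj0, apply_inv_selfP]
    have hfar : far p M P j0 = P⁻¹ j0 := by unfold far; rw [if_pos hj]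
    rw [hfar]
    by_cases hk2 : P⁻¹ j0 = k
    · left; exact hk2
    · right
      -- `k` is down and not in `E`
      have hPP : P (P k) ≠ k := by
        intro h
        apply hk2
        have : P k = j0 := by rw [hj0]; exact (Perm.inv_eq_iff_eq.mpr h.symm).symm
        rw [← this, inv_apply_selfP]
      have hkd : ¬ p k (M k) < p k (P⁻¹ k) := by
        intro h
        exact (s1 k h).1 hj
      have hkE : ¬ (M k = P k ∧ M k = P⁻¹ k) := by
        rintro ⟨h1, h2⟩
        apply hPP
        rw [← h1, h2, apply_inv_selfP]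
      have hk := s2 k hkd hkE
      have hvk : v k = P k := by rw [vdef]; unfold far; rw [if_neg hkd]
      have hkB : k ∈ Bs p v M := by rw [mem_Bs, hvk]; exact hk.2
      refine ⟨hkB, ?_⟩
      have hvj0 : v j0 = P⁻¹ j0 := by rw [vdef, hfar]
      have hcand : cand p v k j0 := by
        constructor
        · rw [hvk]; exact hS.1 k hPP
        · rw [hvj0]
          have h5 : P (P j0) ≠ j0 := by
            rw [hPj0]
            intro h
            apply hPP
            rw [h, hPj0]
          have := hS.1 j0 h5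
          rwa [hPj0] at this
      have hsx : sx p v k = j0 := by
        apply sx_eq hcand
        intro j hjc
        by_contra hcon
        rw [not_le] at hcon
        have hne := cand_ne hjc
        have h6 : ¬ p j k < p j (P⁻¹ j) := fun h' => hS.2 k j hne ⟨hcon, h'⟩
        have h7 : p j (v j) ≤ p j (P⁻¹ j) := far_le hS j
        exact h6 (lt_of_lt_of_le hjc.2 h7)
      rw [nx, hsx, hvj0]
  · left
    unfold far
    rw [if_neg hj, apply_inv_selfP]

end bwd

end Pool.Agent.Helper91_SR
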