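import Pool.Agent.Helper91_SR.PartA2
import Pool.Agent.Helper91_SR.CountC2
set_option autoImplicit false
namespace Pool.Agent.Helper91_SR
open Equiv Finset Classical

variable {n : ℕ}

theorem SM_match {p : Fin n → Perm (Fin n)} {v : Perm (Fin n)} (hv : SM p v) :
    MatchOn ∅ v := by
  refine ⟨fun i hi => by simp at hi, fun i _ => hv.1 i⟩

theorem wt_fwd {p : Fin n → Perm (Fin n)} {v M τ : Perm (Fin n)} (hv : SM p v) (hM : SM p M)
    (h : adm p v M τ) :
    wt (τ⁻¹ * v) = (Perm.sign τ : ℤ) * (-1) ^ (univ.filter fun i => τ i ≠ i).card := by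
  have hmoved : ∀ i, τ i ≠ i → i ∈ Bs p v M := by
    intro i hi
    rcases h i with h1 | ⟨h1, _⟩
    · exact absurd h1 hi
    · exact h1
  have hlong : longS (τ⁻¹ * v) = (univ.filter fun i => τ i ≠ i) ∪
      (univ.filter fun i => τ (v i) ≠ v i) := by
    ext i
    simp only [longS, Finset.mem_filter, Finset.mem_univ, true_and, Finset.mem_union]
    have e1 : (τ⁻¹ * v) ((τ⁻¹ * v) i) = i ↔ (τ⁻¹ * v) i = (τ⁻¹ * v)⁻¹ i := by
      rw [Perm.eq_inv_iff_eq]
    rw [ne_eq, e1, P_inv hv, Perm.mul_apply]
    constructor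
    · intro h1
      by_contra hcon
      push Not at hcon
      apply h1
      rw [hcon.1, Perm.inv_eq_iff_eq, hcon.2]
    · rintro (h1 | h1)
      · have hB := hmoved i h1
        have h2 : τ⁻¹ (v i) = v i := P_B hv hM h hB
        rw [h2]
        intro h3
        exact h1 (v.injective h3.symm)
      · have hB := hmoved _ h1
        have hU := Bs_map hv hM hB
        rw [(hv.1 i).1] at hU
        have h2 : τ i = i := by
          by_contra h3
          exact Bs_disj (hmoved i h3) hU
        rw [h2]
        intro h3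
        rw [Perm.inv_eq_iff_eq] at h3
        exact h1 h3.symm
  have hdisj : Disjoint (univ.filter fun i => τ i ≠ i) (univ.filter fun i => τ (v i) ≠ v i) := by
    rw [Finset.disjoint_left]
    intro i h1 h2
    simp only [Finset.mem_filter, Finset.mem_univ, true_and] at h1 h2
    have hB := hmoved _ h2
    have hU := Bs_map hv hM hB
    rw [(hv.1 i).1] at hU
    exact Bs_disj (hmoved i h1) hU
  have hcard2 : (univ.filter fun i => τ (v i) ≠ v i).card =
      (univ.filter fun i => τ i ≠ i).card := by
    apply Finset.card_bij' (fun i _ => v i) (fun i _ => v i)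
    · intro i hi
      simpa using hi
    · intro i hi
      simp only [Finset.mem_filter, Finset.mem_univ, true_and] at hi ⊢
      rwa [(hv.1 i).1]
    · intro i _
      exact (hv.1 i).1
    · intro i _
      exact (hv.1 i).1
  set k := (univ.filter fun i => τ i ≠ i).card with hk
  have hcard : (longS (τ⁻¹ * v)).card = 2 * k := by
    rw [hlong, Finset.card_union_of_disjoint hdisj, hcard2]
    ring
  have hle : 2 * k ≤ n := by
    rw [← hcard]
    have := Finset.card_le_univ (longS (τ⁻¹ * v))
    simpa using this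
  obtain ⟨-, h2, h3⟩ := sign_match ∅ v (SM_match hv)
  rw [Finset.card_empty, Nat.sub_zero] at h2 h3
  obtain ⟨l, hl⟩ := h2
  unfold wt
  rw [hcard, Perm.sign_mul, Perm.sign_inv]
  push_cast
  rw [h3]
  have e1 : n / 2 = l := by omega
  have e2 : (n - 2 * k) / 2 = l - k := by omega
  rw [e1, e2]
  have e3 : ((-1 : ℤ)) ^ l * (-1) ^ (l - k) = (-1) ^ k := by
    obtain ⟨d, hd⟩ : ∃ d, l = k + d := ⟨l - k, by omega⟩
    rw [hd]
    have : k + d - k = d := by omega
    rw [this, pow_add, mul_assoc, ← pow_add, ← two_mul, pow_mul]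
    norm_num
  rw [mul_assoc, e3]

theorem sum_wt {n : ℕ} (p : Fin n → Perm (Fin n)) :
    ∑ P ∈ univ.filter (fun P : Perm (Fin n) => EvenP P ∧ Stab p P), wt P =
      if Solv p then 1 else 0 := by
  split_ifs with hsol
  · obtain ⟨M, hM⟩ := (solv_iff p).mp hsol
    have h1 : ∑ v ∈ univ.filter (fun v : Perm (Fin n) => SM p v),
        ∑ τ ∈ univ.filter (fun τ : Perm (Fin n) => adm p v M τ),
          (Perm.sign τ : ℤ) * (-1) ^ (univ.filter fun i => τ i ≠ i).card = 1 := by
      have h2 : ∀ v ∈ univ.filter (fun v : Perm (Fin n) => SM p v),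
          ∑ τ ∈ univ.filter (fun τ : Perm (Fin n) => adm p v M τ),
          (Perm.sign τ : ℤ) * (-1) ^ (univ.filter fun i => τ i ≠ i).card =
          if v = M then 1 else 0 := by
        intro v hv
        simp only [Finset.mem_filter, Finset.mem_univ, true_and] at hv
        exact adm_sum hv hM
      rw [Finset.sum_congr rfl h2]
      rw [Finset.sum_ite_eq']
      rw [if_pos]
      simpa using hM
    rw [← h1, Finset.sum_sigma']
    symm
    apply Finset.sum_bij (fun (x : Σ _ : Perm (Fin n), Perm (Fin n)) _ => x.2⁻¹ * x.1)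
    · rintro ⟨v, τ⟩ hx
      simp only [Finset.mem_sigma, Finset.mem_filter, Finset.mem_univ, true_and] at hx ⊢
      exact ⟨fwd_even hx.1 hM hx.2, fwd_stab hx.1 hM hx.2⟩
    · rintro ⟨v, τ⟩ hx ⟨v', τ'⟩ hx' heq
      simp only [Finset.mem_sigma, Finset.mem_filter, Finset.mem_univ, true_and] at hx hx'
      simp only at heq
      have hvv : v = v' := by
        ext1 i
        rw [recover hx.1 hM hx.2 i, recover hx'.1 hM hx'.2 i, heq]
      subst hvv
      have : τ = τ' := by
        have h3 := mul_right_cancel heq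
        exact inv_injective h3
      rw [this]
    · intro P hP
      simp only [Finset.mem_filter, Finset.mem_univ, true_and] at hP
      refine ⟨⟨farP p M P (far_invol hP.1 hP.2 hM), farP p M P (far_invol hP.1 hP.2 hM) * P⁻¹⟩,
        ?_, ?_⟩
      · simp only [Finset.mem_sigma, Finset.mem_filter, Finset.mem_univ, true_and]
        exact ⟨farP_SM hP.1 hP.2 hM, farP_adm hP.1 hP.2 hM⟩
      · simp only
        rw [mul_inv_rev, inv_inv, mul_assoc, inv_mul_cancel, mul_one]
    · rintro ⟨v, τ⟩ hx
      simp only [Finset.mem_sigma, Finset.mem_filter, Finset.mem_univ, true_and] at hx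
      exact (wt_fwd hx.1 hM hx.2).symm
  · apply Finset.sum_eq_zero
    intro P hP
    simp only [Finset.mem_filter, Finset.mem_univ, true_and] at hP
    exact absurd (even_solv hP.1 hP.2) hsol

end Pool.Agent.Helper91_SR
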