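import Pool.Agent.Helper91_SR.Defs
set_option autoImplicit false
namespace Pool.Agent.Helper91_SR
open Equiv Finset Classical

variable {n : ℕ}

theorem log_ub {t : ℝ} (h0 : 0 ≤ t) (h1 : t < 1) : Real.log (1 - t) ≤ -(t + t ^ 2 / 2) := by
  have h := Real.hasSum_pow_div_log_of_abs_lt_one (x := t) (by rw [abs_of_nonneg h0]; exact h1)
  have h2 := sum_le_hasSum (Finset.range 2) (fun i _ => by positivity) h
  rw [Finset.sum_range_succ, Finset.sum_range_succ, Finset.sum_range_zero] at h2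
  norm_num at h2
  linarith

theorem one_sub_le {t : ℝ} (h0 : 0 ≤ t) (h1 : t ≤ 1) : 1 - t ≤ Real.exp (-(t + t ^ 2 / 2)) := by
  rcases eq_or_lt_of_le h1 with h | h
  · rw [h]
    norm_num
    positivity
  · rw [← Real.log_le_iff_le_exp (by linarith)]
    exact log_ub h0 h

theorem log_lb {t : ℝ} (h0 : 0 ≤ t) (h1 : t ≤ 1 / 2) :
    -(t + t ^ 2 / 2 + 2 * t ^ 3) ≤ Real.log (1 - t) := by
  have h := Real.abs_log_sub_add_sum_range_le (x := t) (by rw [abs_of_nonneg h0]; linarith) 2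
  rw [Finset.sum_range_succ, Finset.sum_range_succ, Finset.sum_range_zero, abs_of_nonneg h0] at h
  norm_num at h
  have h2 : t ^ 3 / (1 - t) ≤ 2 * t ^ 3 := by
    rw [div_le_iff₀ (by linarith)]
    have : 0 ≤ t ^ 3 := by positivity
    nlinarith
  have h3 := (abs_le.mp h).1
  linarith

theorem exp_sub_le {a b c : ℝ} (ha : a ≤ c) (hb : b ≤ c) :
    |Real.exp a - Real.exp b| ≤ Real.exp c * |a - b| := by
  have key : ∀ a b : ℝ, a ≤ b → b ≤ c → |Real.exp a - Real.exp b| ≤ Real.exp c * |a - b| := by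
    intro a b hab hbc
    have h1 : Real.exp a ≤ Real.exp b := Real.exp_le_exp.mpr hab
    rw [abs_sub_comm, abs_of_nonneg (by linarith), abs_sub_comm, abs_of_nonneg (by linarith)]
    have h2 : Real.exp a = Real.exp b * Real.exp (a - b) := by
      rw [← Real.exp_add]; congr 1; ring
    have h3 := Real.add_one_le_exp (a - b)
    have h4 : Real.exp b ≤ Real.exp c := Real.exp_le_exp.mpr hbc
    have h5 := Real.exp_pos b
    calc Real.exp b - Real.exp a = Real.exp b * (1 - Real.exp (a - b)) := by rw [h2]; ring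
      _ ≤ Real.exp b * (b - a) := by
          apply mul_le_mul_of_nonneg_left _ h5.le
          linarith
      _ ≤ Real.exp c * (b - a) := by
          apply mul_le_mul_of_nonneg_right h4
          linarith
  rcases le_total a b with h | h
  · exact key a b h hb
  · rw [abs_sub_comm, abs_sub_comm a b]
    exact key b a h ha

/-- sums over unordered pairs as half of sums over ordered pairs -/
theorem sum_pairs (R : Fin n → Fin n → Prop) (h : Fin n → Fin n → ℝ)
    (hs : ∀ i j, h i j = h j i) (hR : ∀ i j, R i j → R j i) :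
    2 * ∑ e ∈ univ.filter (fun e : Fin n × Fin n => e.1 < e.2 ∧ R e.1 e.2), h e.1 e.2 =
      ∑ i, ∑ j, if i ≠ j ∧ R i j then h i j else 0 := by
  have h1 : ∑ i, ∑ j, (if i ≠ j ∧ R i j then h i j else 0) =
      ∑ e : Fin n × Fin n, (if e.1 ≠ e.2 ∧ R e.1 e.2 then h e.1 e.2 else 0) := by
    rw [Fintype.sum_prod_type]
  rw [h1, ← Finset.sum_filter]
  have h2 : univ.filter (fun e : Fin n × Fin n => e.1 ≠ e.2 ∧ R e.1 e.2) =
      univ.filter (fun e : Fin n × Fin n => e.1 < e.2 ∧ R e.1 e.2) ∪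
      univ.filter (fun e : Fin n × Fin n => e.2 < e.1 ∧ R e.1 e.2) := by
    ext e
    simp only [Finset.mem_filter, Finset.mem_univ, true_and, Finset.mem_union]
    constructor
    · rintro ⟨h3, h4⟩
      rcases lt_or_gt_of_ne h3 with h5 | h5
      · exact Or.inl ⟨h5, h4⟩
      · exact Or.inr ⟨h5, h4⟩
    · rintro (⟨h3, h4⟩ | ⟨h3, h4⟩)
      · exact ⟨h3.ne, h4⟩
      · exact ⟨h3.ne', h4⟩
  have hd : Disjoint (univ.filter (fun e : Fin n × Fin n => e.1 < e.2 ∧ R e.1 e.2))
      (univ.filter (fun e : Fin n × Fin n => e.2 < e.1 ∧ R e.1 e.2)) := by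
    rw [Finset.disjoint_left]
    intro e h3 h4
    simp only [Finset.mem_filter, Finset.mem_univ, true_and] at h3 h4
    exact lt_asymm h3.1 h4.1
  rw [h2, Finset.sum_union hd, two_mul]
  congr 1
  refine Finset.sum_bij' (fun e _ => (e.2, e.1)) (fun e _ => (e.2, e.1)) ?_ ?_ ?_ ?_ ?_
  · intro e he
    simp only [Finset.mem_filter, Finset.mem_univ, true_and] at he ⊢
    exact ⟨he.1, hR _ _ he.2⟩
  · intro e he
    simp only [Finset.mem_filter, Finset.mem_univ, true_and] at he ⊢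
    exact ⟨he.1, hR _ _ he.2⟩
  · intro e _; rfl
  · intro e _; rfl
  · intro e _
    exact hs _ _

theorem sum_sq_eq (x : Fin n → ℝ) : ∑ i, ∑ j, x i * x j = (∑ i, x i) ^ 2 := by
  rw [sq, Finset.sum_mul_sum]

/-- the permuted product is at most the sum of squares -/
theorem sum_perm_le (P : Perm (Fin n)) (x : Fin n → ℝ) :
    ∑ i, x i * x (P i) ≤ ∑ i, x i ^ 2 := by
  have h1 : ∑ i, x (P i) ^ 2 = ∑ i, x i ^ 2 := Equiv.sum_comp P (fun i => x i ^ 2)
  have h2 : ∀ i, x i * x (P i) ≤ (x i ^ 2 + x (P i) ^ 2) / 2 := by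
    intro i
    nlinarith [sq_nonneg (x i - x (P i))]
  calc ∑ i, x i * x (P i) ≤ ∑ i, (x i ^ 2 + x (P i) ^ 2) / 2 := Finset.sum_le_sum fun i _ => h2 i
    _ = ∑ i, x i ^ 2 := by
        rw [← Finset.sum_div, Finset.sum_add_distrib, h1]
        ring

theorem mem_nonadj (P : Perm (Fin n)) (e : Fin n × Fin n) :
    e ∈ nonadj P ↔ (e.1 < e.2 ∧ (P e.1 ≠ e.2 ∧ P e.2 ≠ e.1)) := by
  simp [nonadj]

theorem sum_nonadj (P : Perm (Fin n)) (h : Fin n → Fin n → ℝ)
    (hs : ∀ i j, h i j = h j i) :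
    2 * ∑ e ∈ nonadj P, h e.1 e.2 =
      ∑ i, ∑ j, if i ≠ j ∧ (P i ≠ j ∧ P j ≠ i) then h i j else 0 := by
  have h2 := sum_pairs (fun i j => P i ≠ j ∧ P j ≠ i) h hs (fun i j h => ⟨h.2, h.1⟩)
  have h4 : ∑ e ∈ nonadj P, h e.1 e.2 = ∑ e ∈ univ.filter (fun e : Fin n × Fin n => e.1 < e.2 ∧
      (fun i j => P i ≠ j ∧ P j ≠ i) e.1 e.2), h e.1 e.2 := by
    apply Finset.sum_congr _ (fun _ _ => rfl)
    ext e
    rw [mem_nonadj]
    simp
  rw [h4]
  refine Eq.trans ?_ (h2.trans ?_)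
  · congr!
  · congr!

/-- the product over non-adjacent pairs is at most `e^6` times the Gaussian weight -/
theorem prod_le (P : Perm (Fin n)) (x : Fin n → ℝ) (h0 : ∀ i, 0 ≤ x i) (h1 : ∀ i, x i ≤ 1) :
    ∏ e ∈ nonadj P, (1 - x e.1 * x e.2) ≤ Real.exp 6 * gw x := by
  have ht0 : ∀ i j, 0 ≤ x i * x j := fun i j => mul_nonneg (h0 i) (h0 j)
  have ht1 : ∀ i j, x i * x j ≤ 1 := fun i j => mul_le_one₀ (h1 i) (h0 j) (h1 j)
  have step1 : ∏ e ∈ nonadj P, (1 - x e.1 * x e.2) ≤
      Real.exp (-∑ e ∈ nonadj P, (x e.1 * x e.2 + (x e.1 * x e.2) ^ 2 / 2)) := by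
    rw [← Finset.sum_neg_distrib, Real.exp_sum]
    apply Finset.prod_le_prod
    · intro e _
      linarith [ht1 e.1 e.2]
    · intro e _
      exact one_sub_le (ht0 _ _) (ht1 _ _)
  refine step1.trans ?_
  unfold gw
  rw [← Real.exp_add, Real.exp_le_exp]
  have h2 := sum_nonadj P
    (fun i j => x i * x j + (x i * x j) ^ 2 / 2) (fun i j => by ring)
  set s := ∑ e ∈ nonadj P, (x e.1 * x e.2 + (x e.1 * x e.2) ^ 2 / 2) with hs
  set q := ∑ i, x i ^ 2 with hq
  have h3 : ∀ i j, (x i * x j + (x i * x j) ^ 2 / 2) - (if i = j then 3 / 2 * x i ^ 2 else 0)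
      - (if j = P i then 3 / 2 * (x i * x j) else 0) - (if i = P j then 3 / 2 * (x j * x i) else 0)
      ≤ if i ≠ j ∧ (P i ≠ j ∧ P j ≠ i) then x i * x j + (x i * x j) ^ 2 / 2 else 0 := by
    intro i j
    have hc : x i * x j + (x i * x j) ^ 2 / 2 ≤ 3 / 2 * (x i * x j) := by
      have := ht0 i j
      have := ht1 i j
      nlinarith
    by_cases c1 : i = j
    · subst c1
      have e5 : ¬ (i ≠ i ∧ (P i ≠ i ∧ P i ≠ i)) := fun h => h.1 rfl
      rw [if_pos rfl, if_neg e5]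
      have e2 : 0 ≤ (if i = P i then 3 / 2 * (x i * x i) else 0) := by
        split_ifs
        · have := ht0 i i; linarith
        · exact le_rfl
      nlinarith
    · rw [if_neg c1]
      by_cases c2 : j = P i
      · rw [if_pos c2]
        have e2 : 0 ≤ (if i = P j then 3 / 2 * (x j * x i) else 0) := by
          split_ifs
          · have := ht0 j i; linarith
          · exact le_rfl
        have e5 : ¬ (i ≠ j ∧ (P i ≠ j ∧ P j ≠ i)) := fun h => h.2.1 c2.symm
        rw [if_neg e5]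
        linarith
      · rw [if_neg c2]
        by_cases c3 : i = P j
        · have e5 : ¬ (i ≠ j ∧ (P i ≠ j ∧ P j ≠ i)) := fun h => h.2.2 c3.symm
          rw [if_pos c3, if_neg e5]
          have : x j * x i = x i * x j := mul_comm _ _
          linarith
        · rw [if_neg c3, if_pos ⟨c1, fun h => c2 h.symm, fun h => c3 h.symm⟩]
          linarith
  have h4 : ∑ i, ∑ j, ((x i * x j + (x i * x j) ^ 2 / 2) - (if i = j then 3 / 2 * x i ^ 2 else 0)
      - (if j = P i then 3 / 2 * (x i * x j) else 0) - (if i = P j then 3 / 2 * (x j * x i) else 0))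
      ≤ 2 * s := by
    rw [h2]
    exact Finset.sum_le_sum fun i _ => Finset.sum_le_sum fun j _ => h3 i j
  have e1 : ∑ i, ∑ j, (x i * x j + (x i * x j) ^ 2 / 2) = (∑ i, x i) ^ 2 + q ^ 2 / 2 := by
    simp only [Finset.sum_add_distrib]
    rw [sum_sq_eq]
    congr 1
    rw [← sum_sq_eq (fun i => x i ^ 2), Finset.sum_div]
    apply Finset.sum_congr rfl
    intro i _
    rw [Finset.sum_div]
    apply Finset.sum_congr rfl
    intro j _
    ring
  have e2 : ∑ i, ∑ j, (if i = j then 3 / 2 * x i ^ 2 else 0) = 3 / 2 * q := by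
    rw [hq, Finset.mul_sum]
    apply Finset.sum_congr rfl
    intro i _
    simp
  have e3 : ∑ i, ∑ j, (if j = P i then 3 / 2 * (x i * x j) else 0) ≤ 3 / 2 * q := by
    have : ∑ i, ∑ j, (if j = P i then 3 / 2 * (x i * x j) else 0) =
        3 / 2 * ∑ i, x i * x (P i) := by
      rw [Finset.mul_sum]
      apply Finset.sum_congr rfl
      intro i _
      simp
    rw [this]
    have := sum_perm_le P x
    linarith
  have e4 : ∑ i, ∑ j, (if i = P j then 3 / 2 * (x j * x i) else 0) ≤ 3 / 2 * q := by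
    rw [Finset.sum_comm]
    exact e3
  simp only [Finset.sum_sub_distrib] at h4
  rw [e1, e2] at h4
  have h5 : (∑ i, x i) ^ 2 + q ^ 2 / 2 - 9 / 2 * q ≤ 2 * s := by linarith
  nlinarith [sq_nonneg (q - 9 / 2)]

end Pool.Agent.Helper91_SR
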