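import Pool.Agent.Helper91_SR.PointD
import Pool.Agent.Helper91_SR.CountC2
set_option autoImplicit false
namespace Pool.Agent.Helper91_SR
open Equiv Finset Classical

variable {n : ℕ}

theorem app_T {T : Finset (Fin n)} {σ μ : Perm (Fin n)} (hμ : MatchOn T μ) {i : Fin n}
    (hi : i ∈ T) : (σ * μ) i = σ i := by
  rw [Perm.mul_apply, hμ.1 i hi]

theorem app_nT {T : Finset (Fin n)} {σ μ : Perm (Fin n)} (hσ : LongOn T σ) (hμ : MatchOn T μ)
    {i : Fin n} (hi : i ∉ T) : (σ * μ) i = μ i := by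
  rw [Perm.mul_apply, hσ.1 _ (match_mem hμ hi)]

theorem long_mem {T : Finset (Fin n)} {σ : Perm (Fin n)} (hσ : LongOn T σ) {i : Fin n}
    (hi : i ∈ T) : σ i ∈ T := by
  by_contra h
  have h1 := hσ.1 _ h
  have h2 : σ i = i := σ.injective h1
  rw [h2] at h
  exact h hi

theorem long_ne {T : Finset (Fin n)} {σ : Perm (Fin n)} (hσ : LongOn T σ) {i : Fin n}
    (hi : i ∈ T) : σ i ≠ i := by
  intro h
  apply hσ.2.1 i hi
  rw [h, h]

theorem match_symm {T : Finset (Fin n)} {μ : Perm (Fin n)} (hμ : MatchOn T μ) {i j : Fin n}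
    (hij : i ≠ j) (h : μ i = j) : i ∉ T ∧ j ∉ T ∧ μ j = i := by
  have hi : i ∉ T := by
    intro h'
    rw [hμ.1 i h'] at h
    exact hij h
  have hj := match_mem hμ hi
  rw [h] at hj
  have := (hμ.2 i hi).1
  rw [h] at this
  exact ⟨hi, hj, this⟩

/-- the pairs adjacent inside the long part -/
theorem prod_split {T : Finset (Fin n)} {σ μ : Perm (Fin n)} (hσ : LongOn T σ)
    (hμ : MatchOn T μ) (f : Fin n → Fin n → ℝ) (hf : ∀ i j, f i j = f j i) :
    ∏ e ∈ nonadj μ, f e.1 e.2 = (∏ e ∈ nonadj (σ * μ), f e.1 e.2) * ∏ i ∈ T, f i (σ i) := by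
  set F1 : Finset (Fin n × Fin n) := univ.filter fun e => e.1 < e.2 ∧ e.1 ∈ T ∧ σ e.1 = e.2
    with hF1
  set F2 : Finset (Fin n × Fin n) := univ.filter fun e => e.1 < e.2 ∧ e.2 ∈ T ∧ σ e.2 = e.1
    with hF2
  have m1 : ∀ e : Fin n × Fin n, e ∈ F1 ↔ e.1 < e.2 ∧ e.1 ∈ T ∧ σ e.1 = e.2 := by
    intro e; simp [hF1]
  have m2 : ∀ e : Fin n × Fin n, e ∈ F2 ↔ e.1 < e.2 ∧ e.2 ∈ T ∧ σ e.2 = e.1 := by
    intro e; simp [hF2]
  have hunion : nonadj μ = (nonadj (σ * μ) ∪ F1) ∪ F2 := by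
    ext e
    rw [Finset.mem_union, Finset.mem_union, mem_nonadj, mem_nonadj, m1, m2]
    constructor
    · rintro ⟨h1, h2, h3⟩
      by_cases c1 : (σ * μ) e.1 = e.2
      · left; right
        have h4 : e.1 ∈ T := by
          by_contra h5
          rw [app_nT hσ hμ h5] at c1
          exact h2 c1
        rw [app_T hμ h4] at c1
        exact ⟨h1, h4, c1⟩
      · by_cases c2 : (σ * μ) e.2 = e.1
        · right
          have h4 : e.2 ∈ T := by
            by_contra h5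
            rw [app_nT hσ hμ h5] at c2
            exact h3 c2
          rw [app_T hμ h4] at c2
          exact ⟨h1, h4, c2⟩
        · left; left
          exact ⟨h1, c1, c2⟩
    · rintro ((⟨h1, h2, h3⟩ | ⟨h1, h2, h3⟩) | ⟨h1, h2, h3⟩)
      · refine ⟨h1, ?_, ?_⟩
        · intro h4
          obtain ⟨h5, _, _⟩ := match_symm hμ h1.ne h4
          exact h2 (by rw [app_nT hσ hμ h5, h4])
        · intro h4
          obtain ⟨h5, _, _⟩ := match_symm hμ h1.ne' h4
          exact h3 (by rw [app_nT hσ hμ h5, h4])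
      · have h4 := long_mem hσ h2
        rw [h3] at h4
        refine ⟨h1, ?_, ?_⟩
        · rw [hμ.1 _ h2]; exact h1.ne
        · rw [hμ.1 _ h4]; exact h1.ne'
      · have h4 := long_mem hσ h2
        rw [h3] at h4
        refine ⟨h1, ?_, ?_⟩
        · rw [hμ.1 _ h4]; exact h1.ne
        · rw [hμ.1 _ h2]; exact h1.ne'
  have hd1 : Disjoint (nonadj (σ * μ)) F1 := by
    rw [Finset.disjoint_left]
    intro e h1 h2
    rw [mem_nonadj] at h1
    rw [m1] at h2
    apply h1.2.1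
    rw [app_T hμ h2.2.1, h2.2.2]
  have hd2 : Disjoint (nonadj (σ * μ) ∪ F1) F2 := by
    rw [Finset.disjoint_left]
    intro e h1 h2
    rw [Finset.mem_union, mem_nonadj, m1] at h1
    rw [m2] at h2
    rcases h1 with h1 | h1
    · apply h1.2.2
      rw [app_T hμ h2.2.1, h2.2.2]
    · apply hσ.2.1 e.1 h1.2.1
      rw [h1.2.2, h2.2.2]
  have hT : T = (T.filter fun i => i < σ i) ∪ (T.filter fun i => σ i < i) := by
    ext i
    simp only [Finset.mem_union, Finset.mem_filter]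
    constructor
    · intro hi
      rcases lt_or_gt_of_ne (long_ne hσ hi) with h | h
      · exact Or.inr ⟨hi, h⟩
      · exact Or.inl ⟨hi, h⟩
    · rintro (h | h) <;> exact h.1
  have hTd : Disjoint (T.filter fun i => i < σ i) (T.filter fun i => σ i < i) := by
    rw [Finset.disjoint_left]
    intro i h1 h2
    exact lt_asymm (Finset.mem_filter.mp h1).2 (Finset.mem_filter.mp h2).2
  have e1 : ∏ e ∈ F1, f e.1 e.2 = ∏ i ∈ T.filter (fun i => i < σ i), f i (σ i) := by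
    refine Finset.prod_bij' (fun e _ => e.1) (fun i _ => (i, σ i)) ?_ ?_ ?_ ?_ ?_
    · intro e he
      rw [m1] at he
      rw [Finset.mem_filter, he.2.2]
      exact ⟨he.2.1, he.1⟩
    · intro i hi
      rw [Finset.mem_filter] at hi
      rw [m1]
      exact ⟨hi.2, hi.1, rfl⟩
    · intro e he
      rw [m1] at he
      rw [he.2.2]
    · intro i _; rfl
    · intro e he
      rw [m1] at he
      rw [he.2.2]
  have e2 : ∏ e ∈ F2, f e.1 e.2 = ∏ i ∈ T.filter (fun i => σ i < i), f i (σ i) := by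
    refine Finset.prod_bij' (fun e _ => e.2) (fun i _ => (σ i, i)) ?_ ?_ ?_ ?_ ?_
    · intro e he
      rw [m2] at he
      rw [Finset.mem_filter, he.2.2]
      exact ⟨he.2.1, he.1⟩
    · intro i hi
      rw [Finset.mem_filter] at hi
      rw [m2]
      exact ⟨hi.2, hi.1, rfl⟩
    · intro e he
      rw [m2] at he
      rw [he.2.2]
    · intro i _; rfl
    · intro e he
      rw [m2] at he
      rw [he.2.2]
      exact hf _ _
  rw [hunion, Finset.prod_union hd2, Finset.prod_union hd1, e1, e2]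
  conv_rhs => rw [hT, Finset.prod_union hTd]
  ring

theorem one_sub_sum_le (s : Finset (Fin n)) (t : Fin n → ℝ) (h0 : ∀ i ∈ s, 0 ≤ t i)
    (h1 : ∀ i ∈ s, t i ≤ 1) : 1 - ∑ i ∈ s, t i ≤ ∏ i ∈ s, (1 - t i) := by
  induction s using Finset.induction_on with
  | empty => simp
  | insert a s ha ih =>
    rw [Finset.sum_insert ha, Finset.prod_insert ha]
    have ih' := ih (fun i hi => h0 i (Finset.mem_insert_of_mem hi))
      (fun i hi => h1 i (Finset.mem_insert_of_mem hi))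
    have ha0 := h0 a (Finset.mem_insert_self a s)
    have ha1 := h1 a (Finset.mem_insert_self a s)
    have hs : 0 ≤ ∑ i ∈ s, t i := Finset.sum_nonneg fun i hi => h0 i (Finset.mem_insert_of_mem hi)
    have : (1 - t a) * (1 - ∑ i ∈ s, t i) ≤ (1 - t a) * ∏ i ∈ s, (1 - t i) :=
      mul_le_mul_of_nonneg_left ih' (by linarith)
    nlinarith

theorem second_order (s : Finset (Fin n)) (t : Fin n → ℝ) (h0 : ∀ i ∈ s, 0 ≤ t i)
    (h1 : ∀ i ∈ s, t i ≤ 1) :
    |1 - (∏ i ∈ s, (1 - t i)) * (1 + ∑ i ∈ s, t i)| ≤ (∑ i ∈ s, t i) ^ 2 := by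
  have hs : 0 ≤ ∑ i ∈ s, t i := Finset.sum_nonneg h0
  have h2 := one_sub_sum_le s t h0 h1
  have h3 : ∏ i ∈ s, (1 - t i) ≤ Real.exp (-∑ i ∈ s, t i) := by
    rw [← Finset.sum_neg_distrib, Real.exp_sum]
    apply Finset.prod_le_prod
    · intro i hi; linarith [h1 i hi]
    · intro i _
      have := Real.add_one_le_exp (-t i)
      linarith
  have h4 : (∏ i ∈ s, (1 - t i)) * (1 + ∑ i ∈ s, t i) ≤ 1 := by
    calc (∏ i ∈ s, (1 - t i)) * (1 + ∑ i ∈ s, t i)
        ≤ Real.exp (-∑ i ∈ s, t i) * Real.exp (∑ i ∈ s, t i) := by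
          apply mul_le_mul h3 _ (by linarith) (Real.exp_pos _).le
          have := Real.add_one_le_exp (∑ i ∈ s, t i)
          linarith
      _ = 1 := by rw [← Real.exp_add]; simp
  rw [abs_of_nonneg (by linarith)]
  have h5 : (1 - ∑ i ∈ s, t i) * (1 + ∑ i ∈ s, t i) ≤
      (∏ i ∈ s, (1 - t i)) * (1 + ∑ i ∈ s, t i) :=
    mul_le_mul_of_nonneg_right h2 (by linarith)
  nlinarith

theorem sum_long_le {T : Finset (Fin n)} {σ : Perm (Fin n)} (hσ : LongOn T σ) (x : Fin n → ℝ) :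
    ∑ i ∈ T, x i * x (σ i) ≤ ∑ i ∈ T, x i ^ 2 := by
  have h1 : ∑ i ∈ T, x (σ i) ^ 2 = ∑ i ∈ T, x i ^ 2 := by
    refine Finset.sum_bij (fun i _ => σ i) (fun i hi => long_mem hσ hi)
      (fun i _ j _ h => σ.injective h) ?_ (fun i _ => rfl)
    intro j hj
    have himg : T.image σ = T := by
      apply Finset.eq_of_subset_of_card_le
      · intro a ha
        rw [Finset.mem_image] at ha
        obtain ⟨b, hb, rfl⟩ := ha
        exact long_mem hσ hb
      · rw [Finset.card_image_of_injective _ σ.injective]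
    rw [← himg, Finset.mem_image] at hj
    obtain ⟨b, hb, hb2⟩ := hj
    exact ⟨b, hb, hb2⟩
  have h2 : ∀ i, x i * x (σ i) ≤ (x i ^ 2 + x (σ i) ^ 2) / 2 := by
    intro i
    nlinarith [sq_nonneg (x i - x (σ i))]
  calc ∑ i ∈ T, x i * x (σ i) ≤ ∑ i ∈ T, (x i ^ 2 + x (σ i) ^ 2) / 2 :=
        Finset.sum_le_sum fun i _ => h2 i
    _ = ∑ i ∈ T, x i ^ 2 := by
        rw [← Finset.sum_div, Finset.sum_add_distrib, h1]
        ring

/-- pointwise form of the second order estimate -/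
theorem point_a {T : Finset (Fin n)} {σ μ : Perm (Fin n)} (hσ : LongOn T σ)
    (hμ : MatchOn T μ) (x : Fin n → ℝ) (h0 : ∀ i, 0 ≤ x i) (h1 : ∀ i, x i ≤ 1) :
    |(∏ e ∈ nonadj (σ * μ), (1 - x e.1 * x e.2)) -
      (∏ e ∈ nonadj μ, (1 - x e.1 * x e.2)) * (1 + ∑ i ∈ T, x i * x (σ i))| ≤
    Real.exp 6 * gw x * (∑ i ∈ T, x i ^ 2) ^ 2 := by
  have ht0 : ∀ i j, 0 ≤ x i * x j := fun i j => mul_nonneg (h0 i) (h0 j)
  have ht1 : ∀ i j, x i * x j ≤ 1 := fun i j => mul_le_one₀ (h1 i) (h0 j) (h1 j)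
  have hsp := prod_split hσ hμ (fun i j => 1 - x i * x j) (fun i j => by ring)
  rw [hsp]
  set A := ∏ e ∈ nonadj (σ * μ), (1 - x e.1 * x e.2) with hA
  have hA0 : 0 ≤ A := Finset.prod_nonneg fun e _ => by linarith [ht1 e.1 e.2]
  have hA1 : A ≤ Real.exp 6 * gw x := prod_le _ x h0 h1
  have h2 := second_order T (fun i => x i * x (σ i)) (fun i _ => ht0 _ _) (fun i _ => ht1 _ _)
  have h3 : A - A * (∏ i ∈ T, (1 - x i * x (σ i))) * (1 + ∑ i ∈ T, x i * x (σ i)) =
      A * (1 - (∏ i ∈ T, (1 - x i * x (σ i))) * (1 + ∑ i ∈ T, x i * x (σ i))) := by ring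
  rw [h3, abs_mul, abs_of_nonneg hA0]
  have h4 : 0 ≤ ∑ i ∈ T, x i * x (σ i) := Finset.sum_nonneg fun i _ => ht0 _ _
  have h5 := sum_long_le hσ x
  have h6 : (∑ i ∈ T, x i * x (σ i)) ^ 2 ≤ (∑ i ∈ T, x i ^ 2) ^ 2 := by
    apply pow_le_pow_left₀ h4 h5
  apply mul_le_mul hA1 (h2.trans h6) (abs_nonneg _) (by unfold gw; positivity)

end Pool.Agent.Helper91_SR
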