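import Pool.Agent.Helper91_SR.PointD2
set_option autoImplicit false
namespace Pool.Agent.Helper91_SR
open Equiv Finset Classical

variable {n : ℕ}

/-- exact evaluation of pair sums over pairs not matched by `μ` -/
theorem sum_nonadj_match {T : Finset (Fin n)} {μ : Perm (Fin n)} (hμ : MatchOn T μ)
    (h : Fin n → Fin n → ℝ) (hs : ∀ i j, h i j = h j i) :
    2 * ∑ e ∈ nonadj μ, h e.1 e.2 =
      ∑ i, ∑ j, h i j - ∑ i, h i i - ∑ i ∈ Tᶜ, h i (μ i) := by
  rw [sum_nonadj μ h hs]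
  have h1 : ∀ i j, (if i ≠ j ∧ (μ i ≠ j ∧ μ j ≠ i) then h i j else 0) =
      h i j - (if i = j then h i j else 0) - (if j = μ i ∧ i ∉ T then h i j else 0) := by
    intro i j
    by_cases c1 : i = j
    · have c2 : ¬ (j = μ i ∧ i ∉ T) := by
        rintro ⟨h2, h3⟩
        exact (hμ.2 i h3).2 (by rw [← h2, c1])
      have c3 : ¬ (i ≠ j ∧ (μ i ≠ j ∧ μ j ≠ i)) := fun h => h.1 c1
      rw [if_neg c3, if_pos c1, if_neg c2]
      ring
    · rw [if_neg c1]
      by_cases c2 : j = μ i ∧ i ∉ T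
      · have c3 : ¬ (i ≠ j ∧ (μ i ≠ j ∧ μ j ≠ i)) := fun h => h.2.1 c2.1.symm
        rw [if_neg c3, if_pos c2]
        ring
      · have c3 : i ≠ j ∧ (μ i ≠ j ∧ μ j ≠ i) := by
          refine ⟨c1, fun h2 => ?_, fun h2 => ?_⟩
          · exact c2 ⟨h2.symm, (match_symm hμ c1 h2).1⟩
          · obtain ⟨h3, h4, h5⟩ := match_symm hμ (Ne.symm c1) h2
            exact c2 ⟨h5.symm, h4⟩
        rw [if_pos c3, if_neg c2]
        ring
  simp only [h1, Finset.sum_sub_distrib]
  congr 1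
  · congr 1
    apply Finset.sum_congr rfl
    intro i _
    simp
  · have h2 : ∀ i, ∑ j, (if j = μ i ∧ i ∉ T then h i j else 0) =
        if i ∉ T then h i (μ i) else 0 := by
      intro i
      by_cases hi : i ∈ T
      · simp [hi]
      · simp [hi]
    rw [Finset.sum_congr rfl fun i _ => h2 i, ← Finset.sum_filter]
    apply Finset.sum_congr _ (fun _ _ => rfl)
    ext i
    simp

theorem match_sum {T : Finset (Fin n)} {μ : Perm (Fin n)} (hμ : MatchOn T μ) (f : Fin n → ℝ) :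
    ∑ i ∈ Tᶜ, f (μ i) = ∑ i ∈ Tᶜ, f i := by
  refine Finset.sum_bij' (fun i _ => μ i) (fun i _ => μ i) ?_ ?_ ?_ ?_ ?_
  · intro i hi
    rw [Finset.mem_compl] at hi ⊢
    exact match_mem hμ hi
  · intro i hi
    rw [Finset.mem_compl] at hi ⊢
    exact match_mem hμ hi
  · intro i hi
    rw [Finset.mem_compl] at hi
    exact (hμ.2 i hi).1
  · intro i hi
    rw [Finset.mem_compl] at hi
    exact (hμ.2 i hi).1
  · intro i _; rfl

/-- the logarithmic expansion on the small box -/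
theorem log_expand {T : Finset (Fin n)} {μ : Perm (Fin n)} (hμ : MatchOn T μ) (x : Fin n → ℝ)
    (h0 : ∀ i, 0 ≤ x i) (h1 : ∀ i, x i ≤ 1 / 2) :
    |(∑ e ∈ nonadj μ, Real.log (1 - x e.1 * x e.2)) + (∑ i, x i) ^ 2 / 2 - 1 / 2| ≤
      |(1 / 2) * (∑ i ∈ Tᶜ, x i * x (μ i)) - 1 / 2| +
      1 / 4 * ((∑ i, x i ^ 2) * |(∑ i, x i ^ 2) - 2|) +
      1 / 2 * (∑ i, x i ^ 4) + n * ∑ i, x i ^ 6 := by
  have ht0 : ∀ i j, 0 ≤ x i * x j := fun i j => mul_nonneg (h0 i) (h0 j)
  have ht1 : ∀ i j, x i * x j ≤ 1 / 2 := by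
    intro i j
    have := mul_le_mul (h1 i) (h1 j) (h0 j) (by norm_num)
    linarith
  set q := ∑ i, x i ^ 2 with hq
  set x4 := ∑ i, x i ^ 4 with hx4
  set x6 := ∑ i, x i ^ 6 with hx6
  set S := ∑ i, x i with hS
  set L := ∑ e ∈ nonadj μ, Real.log (1 - x e.1 * x e.2) with hL
  set u := (1 / 2) * (∑ i ∈ Tᶜ, x i * x (μ i)) with hu
  set v := ∑ i ∈ Tᶜ, (x i * x (μ i)) ^ 2 with hv
  have hA := sum_nonadj_match hμ (fun i j => x i * x j + (x i * x j) ^ 2 / 2)
    (fun i j => by ring)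
  set s := ∑ e ∈ nonadj μ, (x e.1 * x e.2 + (x e.1 * x e.2) ^ 2 / 2) with hs
  have e1 : ∑ i, ∑ j, (x i * x j + (x i * x j) ^ 2 / 2) = S ^ 2 + q ^ 2 / 2 := by
    simp only [Finset.sum_add_distrib]
    rw [sum_sq_eq]
    congr 1
    rw [hq, ← sum_sq_eq (fun i => x i ^ 2), Finset.sum_div]
    apply Finset.sum_congr rfl
    intro i _
    rw [Finset.sum_div]
    apply Finset.sum_congr rfl
    intro j _
    ring
  have e2 : ∑ i, (x i * x i + (x i * x i) ^ 2 / 2) = q + x4 / 2 := by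
    rw [Finset.sum_add_distrib, hq, hx4, Finset.sum_div]
    congr 1
    · apply Finset.sum_congr rfl
      intro i _
      ring
    · apply Finset.sum_congr rfl
      intro i _
      ring
  have e3 : ∑ i ∈ Tᶜ, (x i * x (μ i) + (x i * x (μ i)) ^ 2 / 2) = 2 * u + v / 2 := by
    rw [Finset.sum_add_distrib, hu, hv, Finset.sum_div]
    ring
  rw [e1, e2, e3] at hA
  -- bounds on `v`
  have hv0 : 0 ≤ v := Finset.sum_nonneg fun i _ => sq_nonneg _
  have hv1 : v ≤ x4 := by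
    have h2 : v ≤ ∑ i ∈ Tᶜ, (x i ^ 4 + x (μ i) ^ 4) / 2 := by
      apply Finset.sum_le_sum
      intro i _
      nlinarith [sq_nonneg (x i ^ 2 - x (μ i) ^ 2)]
    have h3 : ∑ i ∈ Tᶜ, (x i ^ 4 + x (μ i) ^ 4) / 2 = ∑ i ∈ Tᶜ, x i ^ 4 := by
      rw [← Finset.sum_div, Finset.sum_add_distrib, match_sum hμ (fun i => x i ^ 4)]
      ring
    have h4 : ∑ i ∈ Tᶜ, x i ^ 4 ≤ x4 := by
      apply Finset.sum_le_sum_of_subset_of_nonneg (Finset.subset_univ _)
      intro i _ _
      positivity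
    linarith
  have hx40 : 0 ≤ x4 := Finset.sum_nonneg fun i _ => by positivity
  -- bounds on the remainder
  have hLu : L ≤ -s := by
    rw [hL, hs, ← Finset.sum_neg_distrib]
    apply Finset.sum_le_sum
    intro e _
    exact log_ub (ht0 _ _) (by linarith [ht1 e.1 e.2])
  have hLl : -s - 2 * ∑ e ∈ nonadj μ, (x e.1 * x e.2) ^ 3 ≤ L := by
    have : -s - 2 * ∑ e ∈ nonadj μ, (x e.1 * x e.2) ^ 3 =
        ∑ e ∈ nonadj μ, -((x e.1 * x e.2) + (x e.1 * x e.2) ^ 2 / 2 + 2 * (x e.1 * x e.2) ^ 3) := by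
      rw [hs, Finset.mul_sum, ← Finset.sum_neg_distrib, ← Finset.sum_sub_distrib]
      apply Finset.sum_congr rfl
      intro e _
      ring
    rw [this]
    apply Finset.sum_le_sum
    intro e _
    exact log_lb (ht0 _ _) (ht1 _ _)
  have hcube : 2 * ∑ e ∈ nonadj μ, (x e.1 * x e.2) ^ 3 ≤ n * x6 := by
    have h2 := sum_nonadj_match hμ (fun i j => (x i * x j) ^ 3) (fun i j => by ring)
    rw [h2]
    have h3 : 0 ≤ ∑ i, (x i * x i) ^ 3 := Finset.sum_nonneg fun i _ => by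
      have := ht0 i i; positivity
    have h4 : 0 ≤ ∑ i ∈ Tᶜ, (x i * x (μ i)) ^ 3 := Finset.sum_nonneg fun i _ => by
      have := ht0 i (μ i); positivity
    have h5 : ∑ i, ∑ j, (x i * x j) ^ 3 ≤ n * x6 := by
      have h6 : ∀ i j, (x i * x j) ^ 3 ≤ (x i ^ 6 + x j ^ 6) / 2 := by
        intro i j
        nlinarith [sq_nonneg (x i ^ 3 - x j ^ 3)]
      calc ∑ i, ∑ j, (x i * x j) ^ 3 ≤ ∑ i, ∑ j, (x i ^ 6 + x j ^ 6) / 2 :=
            Finset.sum_le_sum fun i _ => Finset.sum_le_sum fun j _ => h6 i j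
        _ = n * x6 := by
            simp only [← Finset.sum_div, Finset.sum_add_distrib, Finset.sum_const,
              Finset.card_univ, Fintype.card_fin, nsmul_eq_mul]
            rw [← Finset.mul_sum, ← hx6]
            ring
    linarith
  have hx60 : 0 ≤ x6 := Finset.sum_nonneg fun i _ => by positivity
  have hq0 : 0 ≤ q := Finset.sum_nonneg fun i _ => by positivity
  have hn0 : (0 : ℝ) ≤ n := by positivity
  -- assembly
  have a1 := abs_nonneg (u - 1 / 2)
  have a2 := le_abs_self (u - 1 / 2)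
  have a3 := neg_abs_le (u - 1 / 2)
  have a4 := le_abs_self (q - 2)
  have a5 := neg_abs_le (q - 2)
  have b1 : q * (q - 2) ≤ q * |q - 2| := mul_le_mul_of_nonneg_left a4 hq0
  have b2 : -(q * |q - 2|) ≤ q * (q - 2) := by
    have := mul_le_mul_of_nonneg_left a5 hq0
    linarith
  have hnx : 0 ≤ (n : ℝ) * x6 := mul_nonneg hn0 hx60
  rw [abs_le]
  constructor
  · nlinarith
  · nlinarith

/-- comparison of the product with `√e` times the Gaussian weight -/
theorem point_b {T : Finset (Fin n)} {μ : Perm (Fin n)} (hμ : MatchOn T μ) (x : Fin n → ℝ)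
    (h0 : ∀ i, 0 ≤ x i) (lam : ℝ) (hlam : 0 < lam) :
    |(if ∀ i, x i ≤ 1 then ∏ e ∈ nonadj μ, (1 - x e.1 * x e.2) else 0) -
      Real.exp (1 / 2) * gw x| ≤
    Real.exp 6 * gw x * (lam / 2 * ((1 / 2) * (∑ i ∈ Tᶜ, x i * x (μ i)) - 1 / 2) ^ 2 +
      (lam + 1) / 4 * ((∑ i, x i ^ 2) - 2) ^ 2 + 1 / lam +
      1 / 2 * (∑ i, x i ^ 4) + (n + 64) * ∑ i, x i ^ 6) := by
  have hg : 0 < gw x := Real.exp_pos _
  set q := ∑ i, x i ^ 2 with hq
  set x4 := ∑ i, x i ^ 4 with hx4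
  set x6 := ∑ i, x i ^ 6 with hx6
  set u := (1 / 2) * (∑ i ∈ Tᶜ, x i * x (μ i)) with hu
  have hx40 : 0 ≤ x4 := Finset.sum_nonneg fun i _ => by positivity
  have hx60 : 0 ≤ x6 := Finset.sum_nonneg fun i _ => by positivity
  have hq0 : 0 ≤ q := Finset.sum_nonneg fun i _ => by positivity
  have hn0 : (0 : ℝ) ≤ n := by positivity
  by_cases hsmall : ∀ i, x i ≤ 1 / 2
  · have h1 : ∀ i, x i ≤ 1 := fun i => (hsmall i).trans (by norm_num)
    rw [if_pos h1]
    have ht1 : ∀ i j, x i * x j ≤ 1 / 2 := by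
      intro i j
      have := mul_le_mul (hsmall i) (hsmall j) (h0 j) (by norm_num)
      linarith
    set L := ∑ e ∈ nonadj μ, Real.log (1 - x e.1 * x e.2) with hL
    have hprod : ∏ e ∈ nonadj μ, (1 - x e.1 * x e.2) = Real.exp L := by
      rw [hL, Real.exp_sum]
      apply Finset.prod_congr rfl
      intro e _
      rw [Real.exp_log]
      linarith [ht1 e.1 e.2]
    have hexp : Real.exp L = gw x * Real.exp (L + (∑ i, x i) ^ 2 / 2) := by
      unfold gw
      rw [← Real.exp_add]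
      congr 1
      ring
    have hle6 : L + (∑ i, x i) ^ 2 / 2 ≤ 6 := by
      have h2 := prod_le μ x h0 h1
      rw [hprod, hexp, mul_comm (Real.exp 6)] at h2
      have h3 := le_of_mul_le_mul_left h2 hg
      exact Real.exp_le_exp.mp h3
    rw [hprod, hexp]
    have h4 : gw x * Real.exp (L + (∑ i, x i) ^ 2 / 2) - Real.exp (1 / 2) * gw x =
        gw x * (Real.exp (L + (∑ i, x i) ^ 2 / 2) - Real.exp (1 / 2)) := by ring
    rw [h4, abs_mul, abs_of_pos hg]
    have h5 := exp_sub_le hle6 (show (1 / 2 : ℝ) ≤ 6 by norm_num)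
    have h6 := log_expand hμ x h0 hsmall
    rw [← hL, ← hu, ← hq, ← hx4, ← hx6] at h6
    have h7 : |u - 1 / 2| ≤ lam / 2 * (u - 1 / 2) ^ 2 + 1 / (2 * lam) := by
      rw [← sq_abs (u - 1 / 2)]
      set y := |u - 1 / 2|
      have h8 : 0 ≤ (lam * y - 1) ^ 2 / (2 * lam) := by positivity
      have h9 : (lam * y - 1) ^ 2 / (2 * lam) = lam / 2 * y ^ 2 + 1 / (2 * lam) - y := by
        field_simp
        ring
      linarith
    have h8 : q * |q - 2| ≤ (lam + 1) * (q - 2) ^ 2 + 1 / lam := by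
      rw [← sq_abs (q - 2)]
      have h10 : q ≤ 2 + |q - 2| := by
        have := le_abs_self (q - 2)
        linarith
      set y := |q - 2| with hy
      have hy0 : 0 ≤ y := abs_nonneg _
      have h9 : 0 ≤ (lam * y - 1) ^ 2 / lam := by positivity
      have h11 : (lam * y - 1) ^ 2 / lam = lam * y ^ 2 + 1 / lam - 2 * y := by
        field_simp
        ring
      nlinarith [mul_le_mul_of_nonneg_right h10 hy0]
    have h9 : (0 : ℝ) < 1 / lam := by positivity
    have h10 : 1 / (2 * lam) = 1 / 2 * (1 / lam) := by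
      field_simp
    calc gw x * |Real.exp (L + (∑ i, x i) ^ 2 / 2) - Real.exp (1 / 2)|
        ≤ gw x * (Real.exp 6 * |L + (∑ i, x i) ^ 2 / 2 - 1 / 2|) :=
          mul_le_mul_of_nonneg_left h5 hg.le
      _ = Real.exp 6 * gw x * |L + (∑ i, x i) ^ 2 / 2 - 1 / 2| := by ring
      _ ≤ _ := by
          apply mul_le_mul_of_nonneg_left _ (by positivity)
          refine h6.trans ?_
          rw [h10] at h7
          nlinarith
  · push Not at hsmall
    obtain ⟨i0, hi0⟩ := hsmall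
    have h64 : 1 ≤ 64 * x6 := by
      have h2 : x i0 ^ 6 ≤ x6 := by
        rw [hx6]
        exact Finset.single_le_sum (f := fun i => x i ^ 6) (fun i _ => by positivity)
          (Finset.mem_univ i0)
      have h3 : (1 / 2 : ℝ) ^ 6 ≤ x i0 ^ 6 := pow_le_pow_left₀ (by norm_num) hi0.le 6
      norm_num at h3
      linarith
    have hF0 : 0 ≤ (if ∀ i, x i ≤ 1 then ∏ e ∈ nonadj μ, (1 - x e.1 * x e.2) else 0) := by
      split_ifs with h1
      · apply Finset.prod_nonneg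
        intro e _
        have := mul_le_one₀ (h1 e.1) (h0 e.2) (h1 e.2)
        linarith
      · exact le_rfl
    have hF1 : (if ∀ i, x i ≤ 1 then ∏ e ∈ nonadj μ, (1 - x e.1 * x e.2) else 0) ≤
        Real.exp 6 * gw x := by
      split_ifs with h1
      · exact prod_le μ x h0 h1
      · positivity
    have hE : Real.exp (1 / 2) * gw x ≤ Real.exp 6 * gw x := by
      apply mul_le_mul_of_nonneg_right _ hg.le
      exact Real.exp_le_exp.mpr (by norm_num)
    have hE0 : 0 ≤ Real.exp (1 / 2) * gw x := by positivity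
    have h2 : |(if ∀ i, x i ≤ 1 then ∏ e ∈ nonadj μ, (1 - x e.1 * x e.2) else 0) -
        Real.exp (1 / 2) * gw x| ≤ Real.exp 6 * gw x := by
      rw [abs_le]
      constructor <;> linarith
    refine h2.trans ?_
    have h3 : (1 : ℝ) ≤ lam / 2 * (u - 1 / 2) ^ 2 + (lam + 1) / 4 * (q - 2) ^ 2 + 1 / lam +
        1 / 2 * x4 + (n + 64) * x6 := by
      have e1 : 0 ≤ lam / 2 * (u - 1 / 2) ^ 2 := by positivity
      have e2 : 0 ≤ (lam + 1) / 4 * (q - 2) ^ 2 := by positivity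
      have e3 : 0 ≤ 1 / lam := by positivity
      have e4 : 0 ≤ (n : ℝ) * x6 := by positivity
      nlinarith
    calc Real.exp 6 * gw x = Real.exp 6 * gw x * 1 := by ring
      _ ≤ _ := mul_le_mul_of_nonneg_left h3 (by positivity)

/-- the symmetric first order term is at most the sum of squares -/
theorem Y_le {T : Finset (Fin n)} {m : ℕ} (hT : T.card = 2 * m) (x : Fin n → ℝ) :
    (∑ i ∈ T, ∑ j ∈ T.erase i, x i * x j) / (2 * (m : ℝ) - 1) ≤ ∑ i ∈ T, x i ^ 2 := by
  rcases Nat.eq_zero_or_pos m with rfl | hm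
  · have : T = ∅ := by rw [← Finset.card_eq_zero]; omega
    rw [this]
    simp
  · have hm1 : (1 : ℝ) ≤ m := by exact_mod_cast hm
    rw [div_le_iff₀ (by linarith)]
    have h1 : ∑ i ∈ T, ∑ j ∈ T.erase i, x i * x j ≤
        ∑ i ∈ T, ∑ j ∈ T.erase i, (x i ^ 2 + x j ^ 2) / 2 := by
      apply Finset.sum_le_sum
      intro i _
      apply Finset.sum_le_sum
      intro j _
      nlinarith [sq_nonneg (x i - x j)]
    refine h1.trans (le_of_eq ?_)
    have h2 : ∀ i ∈ T, ∑ j ∈ T.erase i, (x i ^ 2 + x j ^ 2) / 2 =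
        ((2 * (m : ℝ) - 1) * x i ^ 2 + (∑ j ∈ T, x j ^ 2 - x i ^ 2)) / 2 := by
      intro i hi
      rw [← Finset.sum_div, Finset.sum_add_distrib, Finset.sum_const, Finset.card_erase_of_mem hi,
        hT, nsmul_eq_mul, Nat.cast_sub (by omega)]
      rw [← Finset.add_sum_erase T (fun j => x j ^ 2) hi]
      push_cast
      ring
    rw [Finset.sum_congr rfl h2, ← Finset.sum_div, Finset.sum_add_distrib, ← Finset.mul_sum,
      Finset.sum_sub_distrib, Finset.sum_const, hT, nsmul_eq_mul]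
    push_cast
    ring

end Pool.Agent.Helper91_SR
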